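import Mathlib

set_option autoImplicit false

namespace Pool.Agent.Helper671

instance fact7 : Fact (Nat.Prime 7) := ⟨by norm_num⟩

/-- The group `F₇² ⋊ {l ∈ GL₂(F₇) : (det l)² = 1}` of affine maps
`(x, y) ↦ (a x + b y + u, c x + d y + v)`. -/
@[ext]
structure A7 where
  /-- translation part, first coordinate -/
  u : ZMod 7
  /-- translation part, second coordinate -/
  v : ZMod 7
  /-- matrix entry -/
  a : ZMod 7
  /-- matrix entry -/
  b : ZMod 7
  /-- matrix entry -/
  c : ZMod 7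
  /-- matrix entry -/
  d : ZMod 7
  h : (a * d - b * c) ^ 2 = 1
deriving DecidableEq

namespace A7

instance : One A7 := ⟨⟨0, 0, 1, 0, 0, 1, by decide⟩⟩

instance : Mul A7 := ⟨fun p q =>
  ⟨p.u + (p.a * q.u + p.b * q.v), p.v + (p.c * q.u + p.d * q.v),
   p.a * q.a + p.b * q.c, p.a * q.b + p.b * q.d,
   p.c * q.a + p.d * q.c, p.c * q.b + p.d * q.d, by
    have h1 := p.h
    have h2 := q.h
    linear_combination (q.a * q.d - q.b * q.c) ^ 2 * h1 + h2⟩⟩

instance : Inv A7 := ⟨fun p =>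
  ⟨-((p.a * p.d - p.b * p.c) * (p.d * p.u - p.b * p.v)),
   -((p.a * p.d - p.b * p.c) * (- p.c * p.u + p.a * p.v)),
   (p.a * p.d - p.b * p.c) * p.d, -((p.a * p.d - p.b * p.c) * p.b),
   -((p.a * p.d - p.b * p.c) * p.c), (p.a * p.d - p.b * p.c) * p.a, by
    have h1 := p.h
    linear_combination ((p.a * p.d - p.b * p.c) ^ 4 + (p.a * p.d - p.b * p.c) ^ 2 + 1) * h1⟩⟩

@[simp] theorem one_u : (1 : A7).u = 0 := rfl
@[simp] theorem one_v : (1 : A7).v = 0 := rfl
@[simp] theorem one_a : (1 : A7).a = 1 := rfl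
@[simp] theorem one_b : (1 : A7).b = 0 := rfl
@[simp] theorem one_c : (1 : A7).c = 0 := rfl
@[simp] theorem one_d : (1 : A7).d = 1 := rfl
@[simp] theorem mul_u (p q : A7) : (p * q).u = p.u + (p.a * q.u + p.b * q.v) := rfl
@[simp] theorem mul_v (p q : A7) : (p * q).v = p.v + (p.c * q.u + p.d * q.v) := rfl
@[simp] theorem mul_a (p q : A7) : (p * q).a = p.a * q.a + p.b * q.c := rfl
@[simp] theorem mul_b (p q : A7) : (p * q).b = p.a * q.b + p.b * q.d := rfl
@[simp] theorem mul_c (p q : A7) : (p * q).c = p.c * q.a + p.d * q.c := rfl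
@[simp] theorem mul_d (p q : A7) : (p * q).d = p.c * q.b + p.d * q.d := rfl
@[simp] theorem inv_u (p : A7) : (p⁻¹).u =
    -((p.a * p.d - p.b * p.c) * (p.d * p.u - p.b * p.v)) := rfl
@[simp] theorem inv_v (p : A7) : (p⁻¹).v =
    -((p.a * p.d - p.b * p.c) * (- p.c * p.u + p.a * p.v)) := rfl
@[simp] theorem inv_a (p : A7) : (p⁻¹).a = (p.a * p.d - p.b * p.c) * p.d := rfl
@[simp] theorem inv_b (p : A7) : (p⁻¹).b = -((p.a * p.d - p.b * p.c) * p.b) := rfl
@[simp] theorem inv_c (p : A7) : (p⁻¹).c = -((p.a * p.d - p.b * p.c) * p.c) := rfl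
@[simp] theorem inv_d (p : A7) : (p⁻¹).d = (p.a * p.d - p.b * p.c) * p.a := rfl

instance : Group A7 := Group.ofLeftAxioms
  (by intro p q r; ext <;> simp <;> ring)
  (by intro p; ext <;> simp)
  (by
    intro p
    have h1 := p.h
    ext <;> simp
    · linear_combination 0 * h1
    · linear_combination 0 * h1
    · linear_combination h1
    · ring
    · ring
    · linear_combination h1)

instance : Finite A7 := by
  refine Finite.of_injective (β := ZMod 7 × ZMod 7 × ZMod 7 × ZMod 7 × ZMod 7 × ZMod 7)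
    (fun p => (p.u, p.v, p.a, p.b, p.c, p.d)) ?_
  intro p q hpq
  simp only [Prod.mk.injEq] at hpq
  obtain ⟨h1, h2, h3, h4, h5, h6⟩ := hpq
  exact A7.ext h1 h2 h3 h4 h5 h6

/-- Translations. -/
def vec (x y : ZMod 7) : A7 := ⟨x, y, 1, 0, 0, 1, by decide⟩

/-- Linear maps. -/
def lin (a b c d : ZMod 7) (h : (a * d - b * c) ^ 2 = 1) : A7 := ⟨0, 0, a, b, c, d, h⟩

@[simp] theorem vec_u (x y : ZMod 7) : (vec x y).u = x := rfl
@[simp] theorem vec_v (x y : ZMod 7) : (vec x y).v = y := rfl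
@[simp] theorem vec_a (x y : ZMod 7) : (vec x y).a = 1 := rfl
@[simp] theorem vec_b (x y : ZMod 7) : (vec x y).b = 0 := rfl
@[simp] theorem vec_c (x y : ZMod 7) : (vec x y).c = 0 := rfl
@[simp] theorem vec_d (x y : ZMod 7) : (vec x y).d = 1 := rfl
@[simp] theorem lin_u (a b c d : ZMod 7) (h) : (lin a b c d h).u = 0 := rfl
@[simp] theorem lin_v (a b c d : ZMod 7) (h) : (lin a b c d h).v = 0 := rfl
@[simp] theorem lin_a (a b c d : ZMod 7) (h) : (lin a b c d h).a = a := rfl
@[simp] theorem lin_b (a b c d : ZMod 7) (h) : (lin a b c d h).b = b := rfl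
@[simp] theorem lin_c (a b c d : ZMod 7) (h) : (lin a b c d h).c = c := rfl
@[simp] theorem lin_d (a b c d : ZMod 7) (h) : (lin a b c d h).d = d := rfl

/-- Minus the identity. -/
def neg : A7 := lin (-1) 0 0 (-1) (by decide)

@[simp] theorem neg_u : neg.u = 0 := rfl
@[simp] theorem neg_v : neg.v = 0 := rfl
@[simp] theorem neg_a : neg.a = -1 := rfl
@[simp] theorem neg_b : neg.b = 0 := rfl
@[simp] theorem neg_c : neg.c = 0 := rfl
@[simp] theorem neg_d : neg.d = -1 := rfl

theorem vec_mul (x y x' y' : ZMod 7) : vec x y * vec x' y' = vec (x + x') (y + y') := by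
  ext <;> simp

theorem vec_zero : vec 0 0 = 1 := rfl

theorem vec_inv (x y : ZMod 7) : (vec x y)⁻¹ = vec (-x) (-y) := by
  ext <;> simp

/-- Conjugation action on translations. -/
theorem conj_vec (p : A7) (x y : ZMod 7) :
    p * vec x y * p⁻¹ = vec (p.a * x + p.b * y) (p.c * x + p.d * y) := by
  rw [mul_inv_eq_iff_eq_mul]
  ext <;> simp <;> ring

end A7

end Pool.Agent.Helper671
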