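import Pool.Agent.Helper671.A7

set_option autoImplicit false

namespace Pool.Agent.Helper671

namespace A7

private theorem comp_1_0 (K : Subgroup A7) (hK : K.Normal) (h)
    (hk : lin 0 (-1) 1 0 h ∈ K) (h') : lin 1 1 0 1 h' ∈ K := by
  have := K.mul_mem (K.mul_mem (hK.conj_mem _ hk (lin 6 0 0 1 (by decide))) (hK.conj_mem _ hk (lin 6 0 4 1 (by decide)))) (hK.conj_mem _ hk (lin 6 4 1 4 (by decide)))
  convert this using 1
  ext <;> simp only [mul_u, mul_v, mul_a, mul_b, mul_c, mul_d, inv_u, inv_v, inv_a, inv_b, inv_c,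
    inv_d, lin_u, lin_v, lin_a, lin_b, lin_c, lin_d] <;> decide

private theorem comp_1_1 (K : Subgroup A7) (hK : K.Normal) (h)
    (hk : lin 0 (-1) 1 1 h ∈ K) (h') : lin 1 1 0 1 h' ∈ K := by
  have := K.mul_mem (hK.conj_mem _ hk (lin 6 6 4 5 (by decide))) (hK.conj_mem _ hk (lin 5 3 1 5 (by decide)))
  convert this using 1
  ext <;> simp only [mul_u, mul_v, mul_a, mul_b, mul_c, mul_d, inv_u, inv_v, inv_a, inv_b, inv_c,
    inv_d, lin_u, lin_v, lin_a, lin_b, lin_c, lin_d] <;> decide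

private theorem comp_1_2 (K : Subgroup A7) (hK : K.Normal) (h)
    (hk : lin 0 (-1) 1 2 h ∈ K) (h') : lin 1 1 0 1 h' ∈ K := by
  have := K.mul_mem (hK.conj_mem _ hk (lin 6 5 1 1 (by decide))) (hK.conj_mem _ hk (lin 6 3 2 2 (by decide)))
  convert this using 1
  ext <;> simp only [mul_u, mul_v, mul_a, mul_b, mul_c, mul_d, inv_u, inv_v, inv_a, inv_b, inv_c,
    inv_d, lin_u, lin_v, lin_a, lin_b, lin_c, lin_d] <;> decide

private theorem comp_1_3 (K : Subgroup A7) (hK : K.Normal) (h)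
    (hk : lin 0 (-1) 1 3 h ∈ K) (h') : lin 1 1 0 1 h' ∈ K := by
  have := K.mul_mem (K.mul_mem (hK.conj_mem _ hk (lin 6 6 2 1 (by decide))) (hK.conj_mem _ hk (lin 6 6 2 1 (by decide)))) (hK.conj_mem _ hk (lin 6 2 5 3 (by decide)))
  convert this using 1
  ext <;> simp only [mul_u, mul_v, mul_a, mul_b, mul_c, mul_d, inv_u, inv_v, inv_a, inv_b, inv_c,
    inv_d, lin_u, lin_v, lin_a, lin_b, lin_c, lin_d] <;> decide

private theorem comp_1_4 (K : Subgroup A7) (hK : K.Normal) (h)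
    (hk : lin 0 (-1) 1 4 h ∈ K) (h') : lin 1 1 0 1 h' ∈ K := by
  have := K.mul_mem (K.mul_mem (hK.conj_mem _ hk (lin 6 3 0 1 (by decide))) (hK.conj_mem _ hk (lin 6 3 0 1 (by decide)))) (hK.conj_mem _ hk (lin 6 6 6 5 (by decide)))
  convert this using 1
  ext <;> simp only [mul_u, mul_v, mul_a, mul_b, mul_c, mul_d, inv_u, inv_v, inv_a, inv_b, inv_c,
    inv_d, lin_u, lin_v, lin_a, lin_b, lin_c, lin_d] <;> decide

private theorem comp_1_5 (K : Subgroup A7) (hK : K.Normal) (h)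
    (hk : lin 0 (-1) 1 5 h ∈ K) (h') : lin 1 1 0 1 h' ∈ K := by
  have := K.mul_mem (hK.conj_mem _ hk (lin 6 2 1 6 (by decide))) (hK.conj_mem _ hk (lin 6 5 5 2 (by decide)))
  convert this using 1
  ext <;> simp only [mul_u, mul_v, mul_a, mul_b, mul_c, mul_d, inv_u, inv_v, inv_a, inv_b, inv_c,
    inv_d, lin_u, lin_v, lin_a, lin_b, lin_c, lin_d] <;> decide

private theorem comp_1_6 (K : Subgroup A7) (hK : K.Normal) (h)
    (hk : lin 0 (-1) 1 6 h ∈ K) (h') : lin 1 1 0 1 h' ∈ K := by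
  have := K.mul_mem (hK.conj_mem _ hk (lin 6 4 1 2 (by decide))) (hK.conj_mem _ hk (lin 6 4 6 3 (by decide)))
  convert this using 1
  ext <;> simp only [mul_u, mul_v, mul_a, mul_b, mul_c, mul_d, inv_u, inv_v, inv_a, inv_b, inv_c,
    inv_d, lin_u, lin_v, lin_a, lin_b, lin_c, lin_d] <;> decide

private theorem comp_6_0 (K : Subgroup A7) (hK : K.Normal) (h)
    (hk : lin 0 (-6) 1 0 h ∈ K) (h') : lin 1 1 0 1 h' ∈ K := by
  have := K.mul_mem (hK.conj_mem _ hk (lin 6 4 3 3 (by decide))) (hK.conj_mem _ hk (lin 6 1 4 4 (by decide)))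
  convert this using 1
  ext <;> simp only [mul_u, mul_v, mul_a, mul_b, mul_c, mul_d, inv_u, inv_v, inv_a, inv_b, inv_c,
    inv_d, lin_u, lin_v, lin_a, lin_b, lin_c, lin_d] <;> decide

private theorem comp_6_1 (K : Subgroup A7) (hK : K.Normal) (h)
    (hk : lin 0 (-6) 1 1 h ∈ K) (h') : lin 1 1 0 1 h' ∈ K := by
  have := K.mul_mem (hK.conj_mem _ hk (lin 6 6 4 3 (by decide))) (hK.conj_mem _ hk (lin 6 4 3 3 (by decide)))
  convert this using 1
  ext <;> simp only [mul_u, mul_v, mul_a, mul_b, mul_c, mul_d, inv_u, inv_v, inv_a, inv_b, inv_c,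
    inv_d, lin_u, lin_v, lin_a, lin_b, lin_c, lin_d] <;> decide

private theorem comp_6_2 (K : Subgroup A7) (hK : K.Normal) (h)
    (hk : lin 0 (-6) 1 2 h ∈ K) (h') : lin 1 1 0 1 h' ∈ K := by
  have := K.mul_mem (hK.conj_mem _ hk (lin 5 3 5 0 (by decide))) (hK.conj_mem _ hk (lin 6 3 5 0 (by decide)))
  convert this using 1
  ext <;> simp only [mul_u, mul_v, mul_a, mul_b, mul_c, mul_d, inv_u, inv_v, inv_a, inv_b, inv_c,
    inv_d, lin_u, lin_v, lin_a, lin_b, lin_c, lin_d] <;> decide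

private theorem comp_6_3 (K : Subgroup A7) (hK : K.Normal) (h)
    (hk : lin 0 (-6) 1 3 h ∈ K) (h') : lin 1 1 0 1 h' ∈ K := by
  have := K.mul_mem (hK.conj_mem _ hk (lin 6 4 0 1 (by decide))) (hK.conj_mem _ hk (lin 6 4 3 3 (by decide)))
  convert this using 1
  ext <;> simp only [mul_u, mul_v, mul_a, mul_b, mul_c, mul_d, inv_u, inv_v, inv_a, inv_b, inv_c,
    inv_d, lin_u, lin_v, lin_a, lin_b, lin_c, lin_d] <;> decide

private theorem comp_6_4 (K : Subgroup A7) (hK : K.Normal) (h)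
    (hk : lin 0 (-6) 1 4 h ∈ K) (h') : lin 1 1 0 1 h' ∈ K := by
  have := K.mul_mem (hK.conj_mem _ hk (lin 6 3 0 6 (by decide))) (hK.conj_mem _ hk (lin 6 3 3 4 (by decide)))
  convert this using 1
  ext <;> simp only [mul_u, mul_v, mul_a, mul_b, mul_c, mul_d, inv_u, inv_v, inv_a, inv_b, inv_c,
    inv_d, lin_u, lin_v, lin_a, lin_b, lin_c, lin_d] <;> decide

private theorem comp_6_5 (K : Subgroup A7) (hK : K.Normal) (h)
    (hk : lin 0 (-6) 1 5 h ∈ K) (h') : lin 1 1 0 1 h' ∈ K := by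
  have := K.mul_mem (hK.conj_mem _ hk (lin 5 4 3 5 (by decide))) (hK.conj_mem _ hk (lin 5 4 5 0 (by decide)))
  convert this using 1
  ext <;> simp only [mul_u, mul_v, mul_a, mul_b, mul_c, mul_d, inv_u, inv_v, inv_a, inv_b, inv_c,
    inv_d, lin_u, lin_v, lin_a, lin_b, lin_c, lin_d] <;> decide

private theorem comp_6_6 (K : Subgroup A7) (hK : K.Normal) (h)
    (hk : lin 0 (-6) 1 6 h ∈ K) (h') : lin 1 1 0 1 h' ∈ K := by
  have := K.mul_mem (hK.conj_mem _ hk (lin 6 6 6 5 (by decide))) (hK.conj_mem _ hk (lin 6 5 4 0 (by decide)))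
  convert this using 1
  ext <;> simp only [mul_u, mul_v, mul_a, mul_b, mul_c, mul_d, inv_u, inv_v, inv_a, inv_b, inv_c,
    inv_d, lin_u, lin_v, lin_a, lin_b, lin_c, lin_d] <;> decide

theorem comp_mem (K : Subgroup A7) (hK : K.Normal) (δ τ : ZMod 7) (h)
    (hk : lin 0 (-δ) 1 τ h ∈ K) (h') : lin 1 1 0 1 h' ∈ K := by
  have hδ : δ = 1 ∨ δ = 6 := by
    have h1 : δ ^ 2 = 1 := by linear_combination h
    have h2 : ∀ x : ZMod 7, x ^ 2 = 1 → x = 1 ∨ x = 6 := by decide
    exact h2 δ h1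
  rcases hδ with rfl | rfl
  · fin_cases τ
    · exact comp_1_0 K hK _ hk _
    · exact comp_1_1 K hK _ hk _
    · exact comp_1_2 K hK _ hk _
    · exact comp_1_3 K hK _ hk _
    · exact comp_1_4 K hK _ hk _
    · exact comp_1_5 K hK _ hk _
    · exact comp_1_6 K hK _ hk _
  · fin_cases τ
    · exact comp_6_0 K hK _ hk _
    · exact comp_6_1 K hK _ hk _
    · exact comp_6_2 K hK _ hk _
    · exact comp_6_3 K hK _ hk _
    · exact comp_6_4 K hK _ hk _
    · exact comp_6_5 K hK _ hk _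
    · exact comp_6_6 K hK _ hk _

/-- An element with nonzero lower left entry. -/
theorem c_ne_zero_mem (K : Subgroup A7) (hK : K.Normal) (hV : ∀ x y, vec x y ∈ K)
    (p : A7) (hp : p ∈ K) (hc : p.c ≠ 0) (h') : lin 1 1 0 1 h' ∈ K := by
  obtain ⟨k, hk⟩ : ∃ k : ZMod 7, (k ^ 2 * p.c) ^ 2 = 1 := by
    revert hc
    generalize p.c = c
    revert c
    decide
  -- conjugate to companion form
  have hg : (k * (k * p.c) - (k * p.a) * 0) ^ 2 = 1 := by
    linear_combination hk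
  set g : A7 := lin k (k * p.a) 0 (k * p.c) hg with hgdef
  have h1 : g⁻¹ * p * g ∈ K := by
    have := hK.conj_mem p hp g⁻¹
    simpa using this
  set r := g⁻¹ * p * g with hr
  have hgr : g * r = p * g := by
    rw [hr]; group
  have h2 : vec (-r.u) (-r.v) * r ∈ K := K.mul_mem (hV _ _) h1
  have hk0 : k ≠ 0 := by
    intro h0
    rw [h0] at hk
    revert hk
    generalize p.c = c
    revert c
    decide
  have ea := congrArg A7.a hgr
  have eb := congrArg A7.b hgr
  have ec := congrArg A7.c hgr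
  have ed := congrArg A7.d hgr
  simp only [hgdef, mul_a, mul_b, mul_c, mul_d, lin_a, lin_b, lin_c, lin_d] at ea eb ec ed
  have hrc : r.c = 1 := by
    have : k * p.c * (r.c - 1) = 0 := by linear_combination ec
    rcases mul_eq_zero.1 this with h | h
    · rcases mul_eq_zero.1 h with h | h
      · exact absurd h hk0
      · exact absurd h hc
    · exact sub_eq_zero.1 h
  have hra : r.a = 0 := by
    have : k * r.a = 0 := by
      rw [hrc] at ea
      linear_combination ea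
    rcases mul_eq_zero.1 this with h | h
    · exact absurd h hk0
    · exact h
  have hrd : r.d = p.a + p.d := by
    have : k * p.c * (r.d - (p.a + p.d)) = 0 := by linear_combination ed
    rcases mul_eq_zero.1 this with h | h
    · rcases mul_eq_zero.1 h with h | h
      · exact absurd h hk0
      · exact absurd h hc
    · exact sub_eq_zero.1 h
  have h3 : vec (-r.u) (-r.v) * r = lin 0 (-(-r.b)) 1 r.d (by
      have := r.h
      rw [hra, hrc] at this
      linear_combination this) := by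
    ext <;> simp [hra, hrc]
  rw [h3] at h2
  exact comp_mem K hK _ _ _ h2 _

theorem nonscalar_mem (K : Subgroup A7) (hK : K.Normal) (hV : ∀ x y, vec x y ∈ K)
    (p : A7) (hp : p ∈ K) (hc : p.c ≠ 0 ∨ p.b ≠ 0 ∨ p.a ≠ p.d) (h') :
    lin 1 1 0 1 h' ∈ K := by
  by_cases h1 : p.c = 0
  · by_cases h2 : p.b = 0
    · have h3 : p.a ≠ p.d := by
        rcases hc with h | h | h
        · exact absurd h1 h
        · exact absurd h2 h
        · exact h
      refine c_ne_zero_mem K hK hV _ (hK.conj_mem p hp (lin 1 0 1 1 (by decide))) ?_ _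
      simp only [mul_c, lin_a, lin_b, lin_c, lin_d, inv_a, inv_c, h1, h2, mul_d]
      intro h4
      apply h3
      have : p.a - p.d = 0 := by
        linear_combination h4
      exact sub_eq_zero.1 this
    · refine c_ne_zero_mem K hK hV _ (hK.conj_mem p hp (lin 0 1 1 0 (by decide))) ?_ _
      simp only [mul_c, lin_a, lin_b, lin_c, lin_d, inv_a, inv_c, h1, mul_d]
      intro h4
      apply h2
      linear_combination h4
  · exact c_ne_zero_mem K hK hV p hp h1 _

theorem neg_of_x1 (K : Subgroup A7) (hK : K.Normal) (h')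
    (hx : lin 1 1 0 1 h' ∈ K) : neg ∈ K := by
  have h1 : lin 1 1 0 1 h' * (lin 0 1 6 0 (by decide) * lin 1 1 0 1 h' *
      (lin 0 1 6 0 (by decide))⁻¹) * lin 1 1 0 1 h' ∈ K :=
    K.mul_mem (K.mul_mem hx (hK.conj_mem _ hx _)) hx
  have h2 := K.mul_mem h1 h1
  convert h2 using 1
  ext <;> simp only [mul_u, mul_v, mul_a, mul_b, mul_c, mul_d, inv_u, inv_v, inv_a, inv_b, inv_c,
    inv_d, lin_u, lin_v, lin_a, lin_b, lin_c, lin_d, neg_u, neg_v, neg_a, neg_b, neg_c, neg_d] <;>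
    decide

theorem diag_of_x1 (K : Subgroup A7) (hK : K.Normal) (h')
    (hx : lin 1 1 0 1 h' ∈ K) : lin 3 0 0 5 (by decide) ∈ K := by
  have hy : lin 0 1 6 0 (by decide) * lin 1 1 0 1 h' *
      (lin 0 1 6 0 (by decide))⁻¹ ∈ K := hK.conj_mem _ hx _
  have hy' := K.inv_mem hy
  have h1 := K.mul_mem (K.mul_mem hx (K.mul_mem hy' hy')) (K.mul_mem (K.mul_mem hx hx) hy')
  convert h1 using 1
  ext <;> simp only [mul_u, mul_v, mul_a, mul_b, mul_c, mul_d, inv_u, inv_v, inv_a, inv_b, inv_c,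
    inv_d, lin_u, lin_v, lin_a, lin_b, lin_c, lin_d]  <;>
    decide

/-- (F1) A normal subgroup containing the translations and something else contains `-1`. -/
theorem neg_mem (K : Subgroup A7) (hK : K.Normal) (hV : ∀ x y, vec x y ∈ K)
    (p : A7) (hp : p ∈ K) (hne : ¬ (p.a = 1 ∧ p.b = 0 ∧ p.c = 0 ∧ p.d = 1)) : neg ∈ K := by
  by_cases hc : p.c ≠ 0 ∨ p.b ≠ 0 ∨ p.a ≠ p.d
  · exact neg_of_x1 K hK (by decide) (nonscalar_mem K hK hV p hp hc _)
  · push Not at hc
    obtain ⟨hc, hb, had⟩ := hc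
    have h1 : p.a = 6 := by
      have := p.h
      rw [hc, hb, ← had] at this
      have hne' : p.a ≠ 1 := by
        intro h
        exact hne ⟨h, hb, hc, had ▸ h⟩
      revert this hne'
      generalize p.a = x
      revert x
      decide
    have h2 : vec (-p.u) (-p.v) * p ∈ K := K.mul_mem (hV _ _) hp
    convert h2 using 1
    ext
    · simp
    · simp
    · simp [h1]; decide
    · simp [hb]
    · simp [hc]
    · simp [← had, h1]; decide

end A7

end Pool.Agent.Helper671
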