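import Pool.Agent.Helper671.A7

/-! No abelian group has automorphism group `A7` (proof by helper191). -/

set_option autoImplicit false

namespace Pool.Agent.Helper671

theorem A7.center_triv (p : A7) (hp : ∀ q : A7, p * q = q * p) : p = 1 := by
  have h1 := hp (A7.vec 1 0)
  have h2 := hp (A7.vec 0 1)
  have h3 := hp A7.neg
  have h1u := congrArg A7.u h1
  have h1v := congrArg A7.v h1
  have h2u := congrArg A7.u h2
  have h2v := congrArg A7.v h2
  have h3u := congrArg A7.u h3
  have h3v := congrArg A7.v h3
  simp at h1u h1v h2u h2v h3u h3v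
  have ha : p.a = 1 := by linear_combination h1u
  have hc : p.c = 0 := by linear_combination h1v
  have hb : p.b = 0 := by linear_combination h2u
  have hd : p.d = 1 := by linear_combination h2v
  have two : (4 : ZMod 7) * 2 = 1 := by decide
  have hu : p.u = 0 := by
    have : (2 : ZMod 7) * p.u = 0 := by linear_combination h3u
    calc p.u = (4 * 2) * p.u := by rw [two, one_mul]
      _ = 4 * (2 * p.u) := by ring
      _ = 0 := by rw [this, mul_zero]
  have hv : p.v = 0 := by
    have : (2 : ZMod 7) * p.v = 0 := by linear_combination h3v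
    calc p.v = (4 * 2) * p.v := by rw [two, one_mul]
      _ = 4 * (2 * p.v) := by ring
      _ = 0 := by rw [this, mul_zero]
  ext <;> simp [ha, hb, hc, hd, hu, hv]

theorem A7.vec_pow_seven (x y : ZMod 7) : (A7.vec x y) ^ 7 = 1 := by
  have h : ∀ n : ℕ, (A7.vec x y) ^ n = A7.vec (n * x) (n * y) := by
    intro n
    induction n with
    | zero => simp [A7.vec_zero]
    | succ n ih => rw [pow_succ, ih, A7.vec_mul]; congr 1 <;> (push_cast; ring)
  rw [h 7]
  have : ((7 : ℕ) : ZMod 7) = 0 := by decide
  rw [this, zero_mul, zero_mul, A7.vec_zero]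

theorem no_abelian_lin (V : Type*) [AddCommGroup V] [Module (ZMod 2) V]
    (Ψ : (V ≃ₗ[ZMod 2] V) ≃* A7) : False := by
  classical
  have h2 : ∀ v : V, v + v = 0 := by
    intro v
    have h : (2 : ZMod 2) = 0 := by decide
    rw [← two_smul (ZMod 2) v, h, zero_smul]
  obtain ⟨κ, hκ⟩ : ∃ κ : V ≃ₗ[ZMod 2] V, Ψ κ = A7.vec 1 0 := Ψ.surjective _
  have hκ1 : κ ≠ 1 := by
    intro h
    have : A7.vec 1 0 = 1 := by
      rw [← hκ, h, map_one]
    have := congrArg A7.u this
    simp only [A7.vec_u, A7.one_u] at this
    exact absurd this (by decide)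
  obtain ⟨x, hx⟩ : ∃ x, κ x ≠ x := by
    by_contra hcon
    push Not at hcon
    apply hκ1
    ext v
    simpa using hcon v
  have hx0 : x ≠ 0 := by
    rintro rfl
    simp at hx
  obtain ⟨y, hy⟩ : ∃ y, y = κ x := ⟨_, rfl⟩
  have hyx : y ≠ x := by rw [hy]; exact hx
  have hy0 : y ≠ 0 := by
    rw [hy]
    intro h
    apply hx0
    exact (LinearEquiv.map_eq_zero_iff κ).1 h
  obtain ⟨f, hfx, hfy⟩ : ∃ f : V →ₗ[ZMod 2] ZMod 2, f x = 0 ∧ f y = 1 := by
    have hmem : y ∉ Submodule.span (ZMod 2) {x} := by
      rw [Submodule.mem_span_singleton]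
      rintro ⟨a, ha⟩
      have h01 : a = 0 ∨ a = 1 := by
        have : ∀ a : ZMod 2, a = 0 ∨ a = 1 := by decide
        exact this _
      rcases h01 with rfl | rfl
      · simp at ha; exact hy0 ha.symm
      · simp at ha; exact hyx ha.symm
    obtain ⟨f, hf1, hf2⟩ := Submodule.exists_dual_map_eq_bot_of_notMem hmem inferInstance
    refine ⟨f, ?_, ?_⟩
    · have : f x ∈ (Submodule.span (ZMod 2) {x}).map f :=
        Submodule.mem_map_of_mem (Submodule.mem_span_singleton_self x)
      rw [hf2] at this
      exact (Submodule.mem_bot (ZMod 2)).1 this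
    · have : ∀ a : ZMod 2, a ≠ 0 → a = 1 := by decide
      exact this _ hf1
  let t : V ≃ₗ[ZMod 2] V :=
    { toFun := fun v => v + f v • x
      invFun := fun v => v + f v • x
      left_inv := by
        intro v
        simp only [map_add, map_smul, hfx, smul_eq_mul, mul_zero, add_zero]
        rw [add_assoc, h2, add_zero]
      right_inv := by
        intro v
        simp only [map_add, map_smul, hfx, smul_eq_mul, mul_zero, add_zero]
        rw [add_assoc, h2, add_zero]
      map_add' := by
        intro v w
        rw [map_add, add_smul]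
        abel
      map_smul' := by
        intro a v
        rw [map_smul, smul_add, smul_eq_mul, mul_smul]
        rfl }
  have ht : ∀ v, t v = v + f v • x := fun v => rfl
  have htt : t * t = 1 := by
    ext v
    rw [LinearEquiv.mul_apply, ht, ht]
    simp only [map_add, map_smul, hfx, smul_eq_mul, mul_zero, add_zero]
    rw [add_assoc, h2, add_zero]; rfl
  have hti : t⁻¹ = t := by
    rw [inv_eq_iff_mul_eq_one]; exact htt
  obtain ⟨g, hgv⟩ : ∃ g : V →ₗ[ZMod 2] ZMod 2, ∀ v, g v = f (κ⁻¹ v) :=
    ⟨f.comp (κ⁻¹ : V ≃ₗ[ZMod 2] V).toLinearMap, fun v => rfl⟩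
  have hκκ : ∀ v, κ (κ⁻¹ v) = v := fun v => by
    rw [← LinearEquiv.mul_apply, mul_inv_cancel]; rfl
  have hκκ' : ∀ v, κ⁻¹ (κ v) = v := fun v => by
    rw [← LinearEquiv.mul_apply, inv_mul_cancel]; rfl
  have ht2 : ∀ v, (κ * t * κ⁻¹) v = v + g v • y := by
    intro v
    rw [LinearEquiv.mul_apply, LinearEquiv.mul_apply, ht, map_add, map_smul, hκκ, ← hy, hgv]
  have hgy : g y = 0 := by
    rw [hgv, hy, hκκ', hfx]
  obtain ⟨c, hc⟩ : ∃ c : V ≃ₗ[ZMod 2] V, c = κ * t * κ⁻¹ * t⁻¹ := ⟨_, rfl⟩
  have hc7 : c ^ 7 = 1 := by
    apply Ψ.injective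
    rw [map_pow, map_one, hc]
    rw [map_mul, map_mul, map_mul, map_inv, map_inv, hκ, mul_assoc, mul_assoc,
      ← mul_assoc (Ψ t), A7.vec_inv, A7.conj_vec, A7.vec_mul, A7.vec_pow_seven]
  have hcv : ∀ v, c v = v + f v • x + (g v + f v * g x) • y := by
    intro v
    rw [hc, hti, LinearEquiv.mul_apply, ht2, ht, map_add, map_smul, smul_eq_mul]
  have hsx : ∀ a : ZMod 2, a + a = 0 := by decide
  have hc12 : c ^ 12 = 1 := by
    have hgx : g x = 0 ∨ g x = 1 := by
      have : ∀ a : ZMod 2, a = 0 ∨ a = 1 := by decide
      exact this _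
    have h01 : ∀ a : ZMod 2, a = 0 ∨ a = 1 := by decide
    have h11 : (1 : ZMod 2) + 1 = 0 := by decide
    have hxx : x + x = 0 := h2 x
    have hyy : y + y = 0 := h2 y
    rcases hgx with hgx | hgx
    · have hcv' : ∀ v, c v = v + f v • x + g v • y := by
        intro v; rw [hcv, hgx, mul_zero, add_zero]
      have hcx : c x = x := by rw [hcv', hfx, hgx]; simp
      have hcy : c y = y + x := by rw [hcv', hfy, hgy]; simp
      have h4 : c * c * (c * c) = 1 := by
        ext v
        rw [LinearEquiv.mul_apply, LinearEquiv.mul_apply, LinearEquiv.mul_apply]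
        rw [hcv' v]
        simp only [map_add, map_smul, hcx, hcy, hcv' v, smul_add]
        have e2 : ∀ w : V, v + 2 • w = v := fun w => by rw [two_nsmul, h2, add_zero]
        rcases h01 (f v) with h | h <;> rcases h01 (g v) with h' | h'
        · simp [h, h']
        · simp only [h, h', zero_smul, one_smul, add_zero, LinearEquiv.coe_one, id]
          refine Eq.trans ?_ (e2 (2 • y + 3 • x))
          abel
        · simp only [h, h', zero_smul, one_smul, add_zero, LinearEquiv.coe_one, id]
          refine Eq.trans ?_ (e2 (2 • x))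
          abel
        · simp only [h, h', zero_smul, one_smul, add_zero, LinearEquiv.coe_one, id]
          refine Eq.trans ?_ (e2 (5 • x + 2 • y))
          abel
      calc c ^ 12 = (c * c * (c * c)) ^ 3 := by
            rw [show c * c * (c * c) = c ^ 4 by rw [← pow_two, ← pow_two, ← pow_mul], ← pow_mul]
        _ = 1 := by rw [h4, one_pow]
    · have hcx : c x = x + y := by rw [hcv, hfx, hgx]; simp
      have hcy : c y = y + x + y := by rw [hcv, hfy, hgy, hgx]; simp
      have h3 : c * c * c = 1 := by
        ext v
        rw [LinearEquiv.mul_apply, LinearEquiv.mul_apply]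
        rw [hcv v]
        simp only [map_add, map_smul, hcx, hcy, hcv v, smul_add, hgx]
        have e2 : ∀ w : V, v + 2 • w = v := fun w => by rw [two_nsmul, h2, add_zero]
        rcases h01 (f v) with h | h <;> rcases h01 (g v) with h' | h'
        · simp [h, h']
        · simp only [h, h', zero_smul, one_smul, add_zero, zero_mul, LinearEquiv.coe_one, id]
          refine Eq.trans ?_ (e2 (4 • y + 2 • x))
          abel
        · simp only [h, h', zero_smul, one_smul, add_zero, zero_add, mul_one,
            LinearEquiv.coe_one, id]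
          refine Eq.trans ?_ (e2 (6 • y + 4 • x))
          abel
        · simp only [h, h', h11, zero_smul, one_smul, add_zero, mul_one, LinearEquiv.coe_one, id]
          refine Eq.trans ?_ (e2 (2 • y + 2 • x))
          abel
      calc c ^ 12 = (c * c * c) ^ 4 := by
            rw [show c * c * c = c ^ 3 by rw [← pow_two, ← pow_succ], ← pow_mul]
        _ = 1 := by rw [h3, one_pow]
  have hc1 : c = 1 := by
    calc c = (c ^ 7) ^ 7 * ((c ^ 12) ^ 4)⁻¹ := by
          rw [← pow_mul, ← pow_mul, eq_mul_inv_iff_mul_eq, ← pow_succ']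
      _ = 1 := by rw [hc7, hc12]; simp
  have hkt : κ * t * κ⁻¹ = t := by
    have := hc1
    rw [hc, mul_inv_eq_one] at this
    exact this
  have := ht2 y
  rw [hkt, ht, hfy, hgy, one_smul, zero_smul, add_zero] at this
  exact hx0 (by simpa using this)

/-- No commutative group has automorphism group `A7`. -/
theorem no_abelian (H : Type*) [CommGroup H] (Ψ : MulAut H ≃* A7) : False := by
  have hinv : (MulEquiv.inv H : MulAut H) = 1 := by
    apply Ψ.injective
    rw [map_one]
    apply A7.center_triv
    intro q
    obtain ⟨s, rfl⟩ := Ψ.surjective q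
    rw [← map_mul, ← map_mul]
    congr 1
    ext v
    simp [MulAut.mul_apply]
  have hneg : ∀ v : H, v⁻¹ = v := by
    intro v
    have := congrArg (fun e : MulAut H => e v) hinv
    simpa using this
  let _ : Module (ZMod 2) (Additive H) := AddCommGroup.zmodModule (n := 2) (by
    intro v
    rw [two_nsmul]
    change Additive.ofMul (v.toMul * v.toMul) = Additive.ofMul 1
    congr 1
    nth_rewrite 1 [← hneg v.toMul]
    simp)
  let E : (Additive H ≃ₗ[ZMod 2] Additive H) ≃* MulAut H :=
    { toFun := fun e => MulEquiv.toAdditive.symm e.toAddEquiv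
      invFun := fun s =>
        { (MulEquiv.toAdditive s : Additive H ≃+ Additive H) with
          map_smul' := by
            intro a v
            have h01 : ∀ a : ZMod 2, a = 0 ∨ a = 1 := by decide
            rcases h01 a with rfl | rfl
            · simp
            · simp }
      left_inv := by
        intro e
        ext v
        rfl
      right_inv := by
        intro e
        ext v
        rfl
      map_mul' := by
        intro e e'
        ext v
        rfl }
  exact no_abelian_lin (Additive H) (E.trans Ψ)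

end Pool.Agent.Helper671
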