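import Mathlib

set_option autoImplicit false

namespace Pool.Agent.Helper671

namespace AbEndo

lemma exists_zmod_hom {A : Type*} [AddCommGroup A] (m : ℕ) (t : A)
    (h : ¬ ∃ y : A, 7 ^ (m+1) • y = 7 ^ m • t) :
    ∃ f : A →+ ZMod (7 ^ (m+1)), f t = 1 := by
  classical
  obtain ⟨n, hn⟩ : ∃ n : ℕ, n = 7 ^ (m+1) := ⟨_, rfl⟩
  rw [← hn] at h ⊢
  have hn0 : 0 < n := by rw [hn]; positivity
  have : NeZero n := ⟨hn0.ne'⟩
  have hnq : (n : ℚ) ≠ 0 := by exact_mod_cast hn0.ne'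
  let H : AddSubgroup A := (nsmulAddMonoidHom (α := A) n).range
  have hne : (QuotientAddGroup.mk (7 ^ m • t) : A ⧸ H) ≠ 0 := by
    intro h0
    rw [QuotientAddGroup.eq_zero_iff] at h0
    obtain ⟨y, hy⟩ := h0
    exact h ⟨y, hy⟩
  obtain ⟨c, hc⟩ := CharacterModule.exists_character_apply_ne_zero_of_ne_zero hne
  let c' : A →+ AddCircle (1 : ℚ) := AddMonoidHom.comp c (QuotientAddGroup.mk' H)
  have hc't : 7 ^ m • c' t ≠ 0 := by
    rw [← map_nsmul]; exact hc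
  have hc'n : ∀ x, n • c' x = 0 := by
    intro x
    rw [← map_nsmul]
    have : QuotientAddGroup.mk' H (n • x) = 0 := by
      rw [QuotientAddGroup.mk'_apply, QuotientAddGroup.eq_zero_iff]
      exact ⟨x, rfl⟩
    show c (QuotientAddGroup.mk' H (n • x)) = 0
    rw [this]
    exact map_zero (c : A ⧸ H →+ AddCircle (1 : ℚ))
  have hl : zmultiplesHom (AddCircle (1:ℚ)) (((1/n : ℚ)) : AddCircle (1:ℚ)) (n : ℤ) = 0 := by
    rw [zmultiplesHom_apply, natCast_zsmul, ← AddCircle.coe_nsmul, AddCircle.coe_eq_zero_iff]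
    refine ⟨1, ?_⟩
    simp [hnq]
  let g : ZMod n →+ AddCircle (1 : ℚ) := ZMod.lift n ⟨zmultiplesHom (AddCircle (1:ℚ)) (((1/n : ℚ)) : AddCircle (1:ℚ)), hl⟩
  have hg : ∀ k : ℤ, g (k : ZMod n) = ((k / n : ℚ) : AddCircle (1:ℚ)) := by
    intro k
    show ZMod.lift n _ (k : ZMod n) = _
    rw [ZMod.lift_coe]
    show zmultiplesHom _ _ k = _
    rw [zmultiplesHom_apply, ← AddCircle.coe_zsmul]
    congr 1
    simp [div_eq_mul_inv]
  have hginj : Function.Injective g := by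
    rw [injective_iff_map_eq_zero]
    intro a ha
    obtain ⟨k, rfl⟩ := ZMod.intCast_surjective a
    rw [hg, AddCircle.coe_eq_zero_iff] at ha
    obtain ⟨j, hj⟩ := ha
    rw [ZMod.intCast_zmod_eq_zero_iff_dvd]
    refine ⟨j, ?_⟩
    have : (k : ℚ) = n * j := by
      field_simp at hj
      simp at hj
      linarith
    exact_mod_cast this
  have hsurj : ∀ x, ∃ k, g k = c' x := by
    intro x
    obtain ⟨k, _, hk⟩ := (AddCircle.nsmul_eq_zero_iff (p := (1:ℚ)) hn0).mp (hc'n x)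
    refine ⟨((k : ℤ) : ZMod n), ?_⟩
    rw [hg, ← hk]
    simp
  choose f0 hf0 using hsurj
  let f : A →+ ZMod n :=
    { toFun := f0
      map_zero' := by
        apply hginj
        rw [hf0]; simp
      map_add' := by
        intro x y
        apply hginj
        rw [hf0, map_add, map_add, hf0, hf0] }
  have hft : (7 ^ m : ℕ) • f t ≠ 0 := by
    intro h0
    apply hc't
    have : g ((7 ^ m : ℕ) • f t) = 0 := by rw [h0, map_zero]
    rw [map_nsmul] at this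
    rw [← hf0 t]
    exact this
  have hunit : IsUnit (f t) := by
    obtain ⟨k, hk⟩ : ∃ k : ℕ, f t = (k : ZMod n) := ⟨(f t).val, by simp⟩
    rw [hk] at hft ⊢
    rw [ZMod.isUnit_iff_coprime, hn]
    apply Nat.Coprime.pow_right
    rw [Nat.coprime_comm, Nat.Prime.coprime_iff_not_dvd (by norm_num)]
    rintro ⟨j, rfl⟩
    apply hft
    rw [nsmul_eq_mul, ← Nat.cast_mul, ZMod.natCast_eq_zero_iff, hn]
    exact ⟨j, by ring⟩
  obtain ⟨u, hu⟩ := hunit
  refine ⟨(AddMonoidHom.mulLeft ((u⁻¹ : (ZMod n)ˣ) : ZMod n)).comp f, ?_⟩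
  show ((u⁻¹ : (ZMod n)ˣ) : ZMod n) * f t = 1
  rw [← hu]
  simp

lemma bij_of_hom {A : Type*} [AddCommGroup A] (n : ℕ) (T : ZMod n →+ A) (f : A →+ ZMod n)
    (N : ℕ) (u : ZMod n) (hT : f (T 1) = u) (hu : IsUnit (1 + (N : ZMod n) * u)) :
    Function.Bijective (fun z : A => z + N • ((T.comp f) z)) := by
  have hTf : ∀ c : ZMod n, f (T c) = c * u := by
    intro c
    obtain ⟨k, rfl⟩ := ZMod.intCast_surjective c
    have : T (k : ZMod n) = k • T 1 := by
      rw [← map_zsmul]; simp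
    rw [this, map_zsmul, hT]
    simp
  obtain ⟨v, hv⟩ := hu
  constructor
  · let F : A →+ A := AddMonoidHom.id A + N • (T.comp f)
    have hF : (fun z : A => z + N • ((T.comp f) z)) = F := by
      funext z; rfl
    rw [hF, injective_iff_map_eq_zero]
    intro z hz
    have hz' : z + N • T (f z) = 0 := hz
    have h1 : f z + N • (f z * u) = 0 := by
      have := congrArg f hz'
      rw [map_add, map_nsmul, hTf, map_zero] at this
      exact this
    have h2 : (v : ZMod n) * f z = 0 := by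
      rw [hv, ← h1, nsmul_eq_mul]; ring
    have h3 : f z = 0 := by
      have := congrArg (fun x => ((v⁻¹ : (ZMod n)ˣ) : ZMod n) * x) h2
      simpa using this
    rw [h3] at hz'
    simpa using hz'
  · intro w
    refine ⟨w - N • T ((v⁻¹ : (ZMod n)ˣ) * f w), ?_⟩
    show w - N • T ((v⁻¹ : (ZMod n)ˣ) * f w) + N • T (f (w - N • T ((v⁻¹ : (ZMod n)ˣ) * f w))) = w
    have h1 : f (w - N • T ((v⁻¹ : (ZMod n)ˣ) * f w)) = (v⁻¹ : (ZMod n)ˣ) * f w := by
      rw [map_sub, map_nsmul, hTf, nsmul_eq_mul]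
      have hv' : (N : ZMod n) * u = v - 1 := by rw [hv]; ring
      have hvv : ((v⁻¹ : (ZMod n)ˣ) : ZMod n) * v = 1 := by simp
      calc f w - N * (((v⁻¹ : (ZMod n)ˣ) : ZMod n) * f w * u)
          = f w - ((v⁻¹ : (ZMod n)ˣ) : ZMod n) * f w * (N * u) := by ring
        _ = f w - ((v⁻¹ : (ZMod n)ˣ) : ZMod n) * f w * (v - 1) := by rw [hv']
        _ = f w * (1 - ((v⁻¹ : (ZMod n)ˣ) : ZMod n) * v) + ((v⁻¹ : (ZMod n)ˣ) : ZMod n) * f w := by ring
        _ = _ := by rw [hvv]; ring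
    rw [h1]
    abel

/-- hom from ZMod n given an element killed by n -/
lemma exists_T {A : Type*} [AddCommGroup A] (n : ℕ) (t : A) (ht : n • t = 0) :
    ∃ T : ZMod n →+ A, T 1 = t := by
  refine ⟨ZMod.lift n ⟨zmultiplesHom A t, ?_⟩, ?_⟩
  · rw [zmultiplesHom_apply, natCast_zsmul, ht]
  · have := ZMod.lift_coe n ⟨zmultiplesHom A t, by rw [zmultiplesHom_apply, natCast_zsmul, ht]⟩ 1
    rw [Int.cast_one] at this
    rw [this]
    simp

lemma unit_of_seven {k : ℕ} (a : ℕ) (ha : ¬ 7 ∣ a) : IsUnit ((a : ZMod (7 ^ k))) := by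
  rw [ZMod.isUnit_iff_coprime]
  apply Nat.Coprime.pow_right
  rw [Nat.coprime_comm, Nat.Prime.coprime_iff_not_dvd (by norm_num)]
  exact ha

/-- finite height -/
lemma caseA {A : Type*} [AddCommGroup A] (z0 : A) (h0 : 7 • z0 = 0) (i : ℕ) (hi : ¬ 7 ∣ i)
    (m : ℕ) (hm : ¬ ∃ y : A, 7 ^ (m+1) • y = z0) (t : A) (ht : 7 ^ m • t = z0) :
    ∃ ν : A →+ A, Function.Bijective (fun z => z + i • (ν z)) ∧ i • (ν z0) = 3 • z0 := by
  obtain ⟨f, hf⟩ := exists_zmod_hom m t (by rw [ht]; exact hm)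
  have htn : 7 ^ (m+1) • t = 0 := by
    rw [pow_succ, mul_comm, mul_smul, ht, h0]
  obtain ⟨T, hT⟩ := exists_T (7 ^ (m+1)) t htn
  -- e with i e = 3 mod 7
  obtain ⟨e, he⟩ : ∃ e : ℕ, (i * e) % 7 = 3 := by
    have hi7 : i % 7 ≠ 0 := fun h => hi (Nat.dvd_of_mod_eq_zero h)
    have hlt : i % 7 < 7 := Nat.mod_lt _ (by norm_num)
    have : ∀ r < 7, r ≠ 0 → ∃ e : ℕ, e < 7 ∧ (r * e) % 7 = 3 := by decide
    obtain ⟨e, _, he⟩ := this (i % 7) hlt hi7
    exact ⟨e, by rw [Nat.mul_mod, Nat.mod_mod, ← Nat.mul_mod] at he; rw [← he]⟩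
  refine ⟨e • (T.comp f), ?_, ?_⟩
  · have := bij_of_hom (7 ^ (m+1)) T f (i * e) 1 (by rw [hT, hf]) (by
      have : (1 + ((i * e : ℕ) : ZMod (7 ^ (m+1))) * 1) = ((1 + i * e : ℕ) : ZMod (7 ^ (m+1))) := by
        push_cast; ring
      rw [this]
      apply unit_of_seven
      omega)
    convert this using 2 with z
    show z + i • (e • (T.comp f) z) = z + (i * e) • (T.comp f) z
    rw [mul_smul]
  · show i • (e • T (f z0)) = 3 • z0
    have h1 : T (f z0) = z0 := by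
      rw [← ht, map_nsmul, hf, map_nsmul, hT]
    rw [h1, ← mul_smul]
    have h2 : i * e = 7 * (i * e / 7) + 3 := by omega
    rw [h2, add_smul, mul_comm, mul_smul, h0, smul_zero, zero_add]

lemma killed {A : Type*} [AddCommGroup A] (z : A) (k c : ℕ) (hc : ¬ 7 ∣ c) (h1 : 7 ^ k • z = 0)
    (h2 : c • z = 0) : z = 0 := by
  have hcop : Nat.Coprime (7 ^ k) c := by
    apply Nat.Coprime.pow_left
    rw [Nat.Prime.coprime_iff_not_dvd (by norm_num)]
    exact hc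
  have h3 := Nat.dvd_gcd (addOrderOf_dvd_of_nsmul_eq_zero h1) (addOrderOf_dvd_of_nsmul_eq_zero h2)
  rw [Nat.Coprime] at hcop
  rw [hcop, Nat.dvd_one, AddMonoid.addOrderOf_eq_one_iff] at h3
  exact h3

lemma caseB {A : Type*} [AddCommGroup A] (q : ℕ) (hq : 0 < q) (h7 : 7 ∣ q)
    (hZ : ∀ η : A →+ A, Function.Bijective (fun z => z + q • (η z)) → ∀ z, q • (η z) = 0)
    (z0 : A) (h0 : 7 • z0 = 0) (h1 : z0 ≠ 0) (hinf : ∀ m : ℕ, ∃ y : A, 7 ^ m • y = z0) : False := by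
  classical
  obtain ⟨a, q2, hq2, hqq⟩ := Nat.exists_eq_pow_mul_and_not_dvd hq.ne' 7 (by norm_num)
  obtain ⟨t, ht⟩ := hinf a
  have htn : 7 ^ (a+1) • t = 0 := by
    rw [pow_succ, mul_comm, mul_smul, ht, h0]
  obtain ⟨T, hT⟩ := exists_T (7 ^ (a+1)) t htn
  have key : ∀ z : A, ∃ y : A, 7 ^ (a+1) • y = 7 ^ a • z := by
    intro z
    by_contra hcon
    obtain ⟨f, hf⟩ := exists_zmod_hom a z hcon
    have hbij := bij_of_hom (7 ^ (a+1)) T f q (f t) (by rw [hT]) (by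
      obtain ⟨k, hk⟩ : ∃ k : ℕ, f t = (k : ZMod (7 ^ (a+1))) := by
        have : NeZero (7 ^ (a+1)) := ⟨by positivity⟩
        exact ⟨(f t).val, by simp⟩
      rw [hk]
      have : (1 + (q : ZMod (7 ^ (a+1))) * k) = ((1 + q * k : ℕ) : ZMod (7 ^ (a+1))) := by
        push_cast; ring
      rw [this]
      apply unit_of_seven
      obtain ⟨r, hr⟩ := h7
      rw [hr]
      intro hd
      have : 7 ∣ 7 * r * k := ⟨r * k, by ring⟩
      omega)
    have h2 := hZ (T.comp f) hbij z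
    have h3 : q • t = 0 := by
      have : (T.comp f) z = t := by
        show T (f z) = t
        rw [hf, hT]
      rw [this] at h2
      exact h2
    rw [hqq, mul_comm, mul_smul, ht] at h3
    exact h1 (killed z0 1 q2 hq2 (by simpa using h0) h3)
  let D : AddSubgroup A :=
    { carrier := {z | (∃ y, 7 ^ a • y = z) ∧ ∃ k : ℕ, 7 ^ k • z = 0}
      zero_mem' := ⟨⟨0, by simp⟩, ⟨0, by simp⟩⟩
      add_mem' := by
        rintro x y ⟨⟨x', rfl⟩, ⟨k, hk⟩⟩ ⟨⟨y', rfl⟩, ⟨l, hl⟩⟩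
        refine ⟨⟨x' + y', by rw [smul_add]⟩, ⟨k + l, ?_⟩⟩
        rw [smul_add, pow_add]
        nth_rewrite 1 [mul_comm]
        rw [mul_smul, hk, mul_smul, hl, smul_zero, smul_zero, add_zero]
      neg_mem' := by
        rintro x ⟨⟨x', rfl⟩, ⟨k, hk⟩⟩
        refine ⟨⟨-x', by rw [smul_neg]⟩, ⟨k, ?_⟩⟩
        rw [smul_neg, hk, neg_zero] }
  have hD7 : ∀ z ∈ D, ∃ w ∈ D, 7 • w = z := by
    rintro z ⟨⟨y, rfl⟩, ⟨k, hk⟩⟩
    obtain ⟨y', hy'⟩ := key y
    have h7w : 7 • (7 ^ a • y') = 7 ^ a • y := by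
      rw [← hy', ← mul_smul, pow_succ, mul_comm]
    refine ⟨7 ^ a • y', ⟨⟨y', rfl⟩, ⟨k + 1, ?_⟩⟩, h7w⟩
    rw [pow_succ, mul_smul, h7w, hk]
  have hD7e : ∀ e : ℕ, ∀ z ∈ D, ∃ w ∈ D, 7 ^ e • w = z := by
    intro e
    induction e with
    | zero => intro z hz; exact ⟨z, hz, by simp⟩
    | succ e ih =>
      intro z hz
      obtain ⟨w, hw, hwz⟩ := ih z hz
      obtain ⟨v, hv, hvw⟩ := hD7 w hw
      exact ⟨v, hv, by rw [pow_succ, mul_smul, hvw, hwz]⟩
  have hDc : ∀ c : ℕ, ¬ 7 ∣ c → ∀ z ∈ D, ∃ w ∈ D, c • w = z := by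
    intro c hc z hz
    obtain ⟨_, ⟨k, hk⟩⟩ := id hz
    have hcop : IsCoprime (c : ℤ) ((7 ^ k : ℕ) : ℤ) := by
      rw [Nat.isCoprime_iff_coprime]
      apply Nat.Coprime.pow_right
      rw [Nat.coprime_comm, Nat.Prime.coprime_iff_not_dvd (by norm_num)]
      exact hc
    obtain ⟨u, v, huv⟩ := hcop
    refine ⟨u • z, D.zsmul_mem hz u, ?_⟩
    have h4 : ((7 ^ k : ℕ) : ℤ) • z = 0 := by rw [natCast_zsmul]; exact hk
    calc c • (u • z) = (u * (c:ℤ)) • z := by rw [← natCast_zsmul, ← mul_smul, mul_comm]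
      _ = (1 - v * ((7 ^ k : ℕ) : ℤ)) • z := by rw [← huv]; congr 1; ring
      _ = z := by rw [sub_smul, mul_smul, h4, smul_zero, one_smul, sub_zero]
  have hDn : ∀ n : ℕ, n ≠ 0 → ∀ z ∈ D, ∃ w ∈ D, n • w = z := by
    intro n hn z hz
    obtain ⟨e, c, hc, hne⟩ := Nat.exists_eq_pow_mul_and_not_dvd hn 7 (by norm_num)
    obtain ⟨w, hw, hwz⟩ := hDc c hc z hz
    obtain ⟨v, hv, hvw⟩ := hD7e e w hw
    exact ⟨v, hv, by rw [hne, mul_comm, mul_smul, hvw, hwz]⟩
  have hdiv : DivisibleBy D ℤ := divisibleByOfSMulRightSurj D ℤ (by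
    intro n hn x
    obtain ⟨x, hx⟩ := x
    obtain ⟨w, hw, hwx⟩ := hDn n.natAbs (by simpa using hn) x hx
    rcases Int.natAbs_eq n with hna | hna
    · refine ⟨⟨w, hw⟩, ?_⟩
      apply Subtype.ext
      show n • w = x
      rw [hna, natCast_zsmul, hwx]
    · refine ⟨⟨-w, D.neg_mem hw⟩, ?_⟩
      apply Subtype.ext
      show n • (-w) = x
      rw [hna, neg_smul, smul_neg, neg_neg, natCast_zsmul, hwx])
  obtain ⟨ρ, hρ⟩ := (Module.Baer.of_divisible D).extension_property_addMonoidHom D.subtype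
    D.subtype_injective (AddMonoidHom.id D)
  have hρD : ∀ z (hz : z ∈ D), ρ z = ⟨z, hz⟩ := by
    intro z hz
    exact DFunLike.congr_fun hρ ⟨z, hz⟩
  have h7q : ¬ 7 ∣ (1 + q) := by omega
  have hbij : Function.Bijective (fun z => z + q • ((D.subtype.comp ρ) z)) := by
    constructor
    · have hF : (fun z : A => z + q • ((D.subtype.comp ρ) z)) = ((AddMonoidHom.id A + q • (D.subtype.comp ρ) : A →+ A) : A → A) := by
        funext z; rfl
      rw [hF, injective_iff_map_eq_zero]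
      intro z hz
      have hz' : z + q • (ρ z : A) = 0 := hz
      have hzD : z ∈ D := by
        have : z = -(q • (ρ z : A)) := eq_neg_of_add_eq_zero_left hz'
        rw [this]
        exact D.neg_mem (D.nsmul_mem (ρ z).2 q)
      rw [hρD z hzD] at hz'
      obtain ⟨_, ⟨k, hk⟩⟩ := id hzD
      apply killed z k (1 + q) h7q hk
      rw [add_smul, one_smul]
      exact hz'
    · intro w
      obtain ⟨x, hx, hxw⟩ := hDn (1 + q) (by omega) (ρ w : A) (ρ w).2
      refine ⟨w - q • x, ?_⟩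
      show w - q • x + q • (ρ (w - q • x) : A) = w
      have : (ρ (w - q • x) : A) = x := by
        rw [map_sub, map_nsmul, hρD x hx]
        show (ρ w : A) - q • x = x
        rw [← hxw, add_smul, one_smul]
        abel
      rw [this]
      abel
  have hz0D : z0 ∈ D := ⟨hinf a, ⟨1, by simpa using h0⟩⟩
  obtain ⟨y, hy, hyz⟩ := hDn q hq.ne' z0 hz0D
  have h5 := hZ (D.subtype.comp ρ) hbij y
  have h6 : (D.subtype.comp ρ) y = y := by
    show (ρ y : A) = y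
    rw [hρD y hy]
  rw [h6, hyz] at h5
  exact h1 h5

theorem add_version {A : Type*} [AddCommGroup A] (q : ℕ) (hq : 0 < q) (h7 : 7 ∣ q)
    (hZ : ∀ η : A →+ A, Function.Bijective (fun z => z + q • (η z)) → ∀ z, q • (η z) = 0)
    (z0 : A) (h0 : 7 • z0 = 0) (h1 : z0 ≠ 0) (i : ℕ) (hi : ¬ 7 ∣ i) :
    ∃ ν : A →+ A, Function.Bijective (fun z => z + i • (ν z)) ∧ i • (ν z0) = 3 • z0 := by
  classical
  by_cases hinf : ∀ m : ℕ, ∃ y : A, 7 ^ m • y = z0
  · exact (caseB q hq h7 hZ z0 h0 h1 hinf).elim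
  · push Not at hinf
    have hex : ∃ m : ℕ, ∀ y : A, 7 ^ m • y ≠ z0 := hinf
    have hspec := Nat.find_spec hex
    have hmin := fun k => Nat.find_min hex (m := k)
    cases hm : Nat.find hex with
    | zero =>
      rw [hm] at hspec
      exact absurd (by simp) (hspec z0)
    | succ m =>
      rw [hm] at hspec
      have h2 := hmin m (by omega)
      push Not at h2
      obtain ⟨t, ht⟩ := h2
      exact caseA z0 h0 i hi m (fun ⟨y, hy⟩ => hspec y hy) t ht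

end AbEndo

theorem abelian_endo {Z : Type*} [CommGroup Z] (q : ℕ) (hq : 0 < q) (h7 : 7 ∣ q)
    (hZ : ∀ η : Z →* Z, Function.Bijective (fun z => z * (η z) ^ q) → ∀ z, (η z) ^ q = 1)
    (z0 : Z) (h0 : z0 ^ 7 = 1) (h1 : z0 ≠ 1) (i : ℕ) (hi : ¬ 7 ∣ i) :
    ∃ ν : Z →* Z, Function.Bijective (fun z => z * (ν z) ^ i) ∧ (ν z0) ^ i = z0 ^ 3 := by
  obtain ⟨ν, hν1, hν2⟩ := AbEndo.add_version (A := Additive Z) q hq h7
    (fun η hη z => hZ (MonoidHom.toAdditive.symm η) hη z)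
    (Additive.ofMul z0) h0 h1 i hi
  exact ⟨MonoidHom.toAdditive.symm ν, hν1, hν2⟩

end Pool.Agent.Helper671
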