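import Pool.Agent.Helper671.A7Mat

set_option autoImplicit false

namespace Pool.Agent.Helper671

open A7

variable {H : Type*} [Group H] (Ψ : MulAut H ≃* A7)

/-- The homomorphism `H → Inn H ⊂ Aut H ≅ A7`. -/
def NN : H →* A7 := Ψ.toMonoidHom.comp MulAut.conj

theorem NN_apply (h : H) : NN Ψ h = Ψ (MulAut.conj h) := rfl

theorem NN_equiv (α : MulAut H) (h : H) : NN Ψ (α h) = Ψ α * NN Ψ h * (Ψ α)⁻¹ := by
  rw [NN_apply, NN_apply, ← map_inv, ← map_mul, ← map_mul]
  congr 1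
  ext x
  simp [MulAut.mul_apply]

theorem NN_eq_one_iff (h : H) : NN Ψ h = 1 ↔ ∀ x, h * x = x * h := by
  rw [NN_apply]
  constructor
  · intro h1 x
    have h2 : MulAut.conj h = 1 := by
      apply Ψ.injective
      rw [h1, map_one]
    have := congrArg (fun e : MulAut H => e x) h2
    simp only [MulAut.conj_apply, MulAut.one_apply] at this
    rw [mul_inv_eq_iff_eq_mul] at this
    exact this
  · intro h1
    have : MulAut.conj h = 1 := by
      ext x
      simp only [MulAut.conj_apply, MulAut.one_apply]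
      rw [h1 x, mul_inv_cancel_right]
    rw [this, map_one]

theorem NN_eq_iff (g h : H) : NN Ψ g = NN Ψ h ↔ ∀ x, (h⁻¹ * g) * x = x * (h⁻¹ * g) := by
  rw [← NN_eq_one_iff Ψ, map_mul, map_inv, inv_mul_eq_one]
  exact ⟨fun h => h.symm, fun h => h.symm⟩

theorem range_normal : (NN Ψ).range.Normal := by
  constructor
  rintro _ ⟨h, rfl⟩ g
  obtain ⟨α, rfl⟩ := Ψ.surjective g
  exact ⟨α h, NN_equiv Ψ α h⟩

/-- A normal subgroup containing one nonzero translation contains all of them. -/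
theorem vec_mem_of_one (K : Subgroup A7) (hK : K.Normal) (x₀ y₀ : ZMod 7)
    (hne : ¬ (x₀ = 0 ∧ y₀ = 0)) (h0 : vec x₀ y₀ ∈ K) (x y : ZMod 7) : vec x y ∈ K := by
  obtain ⟨a, b, hab⟩ : ∃ a b : ZMod 7, a * x₀ + b * y₀ = 1 := by
    revert x₀ y₀
    have : ∀ x₀ y₀ : ZMod 7, ¬ (x₀ = 0 ∧ y₀ = 0) → ∃ a b : ZMod 7, a * x₀ + b * y₀ = 1 := by
      decide
    intro x₀ y₀ h1 _
    exact this x₀ y₀ h1
  have h1 : vec 1 0 ∈ K := by
    have := hK.conj_mem _ h0 (lin a b (-y₀) x₀ (by linear_combination (a * x₀ + b * y₀ + 1) * hab))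
    rw [conj_vec] at this
    simp only [lin_a, lin_b, lin_c, lin_d] at this
    convert this using 2
    · exact hab.symm
    · ring
  have h2 : vec 0 1 ∈ K := by
    have := hK.conj_mem _ h1 (lin 0 1 1 0 (by decide))
    rw [conj_vec] at this
    simpa using this
  have h3 : ∀ n : ℕ, vec (n : ZMod 7) 0 ∈ K := by
    intro n
    induction n with
    | zero => rw [Nat.cast_zero, vec_zero]; exact K.one_mem
    | succ n ih =>
      have := K.mul_mem ih h1
      rw [vec_mul] at this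
      simpa using this
  have h4 : ∀ n : ℕ, vec 0 (n : ZMod 7) ∈ K := by
    intro n
    induction n with
    | zero => rw [Nat.cast_zero, vec_zero]; exact K.one_mem
    | succ n ih =>
      have := K.mul_mem ih h2
      rw [vec_mul] at this
      simpa using this
  have h5 := K.mul_mem (h3 x.val) (h4 y.val)
  rw [vec_mul] at h5
  simpa using h5

/-- All translations are inner. -/
theorem vec_mem_range (hne : ∃ h, NN Ψ h ≠ 1) (x y : ZMod 7) : ∃ u, NN Ψ u = vec x y := by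
  obtain ⟨h, hh⟩ := hne
  have hK := range_normal Ψ
  set p := NN Ψ h with hp
  have hpK : p ∈ (NN Ψ).range := ⟨h, rfl⟩
  by_cases hl : p.a = 1 ∧ p.b = 0 ∧ p.c = 0 ∧ p.d = 1
  · obtain ⟨ha, hb, hc, hd⟩ := hl
    have hpv : p = vec p.u p.v := by
      ext <;> simp [ha, hb, hc, hd]
    refine vec_mem_of_one _ hK p.u p.v ?_ (hpv ▸ hpK) x y
    rintro ⟨hu, hv⟩
    apply hh
    rw [hpv, hu, hv, vec_zero]
  · obtain ⟨x₀, y₀, h0⟩ : ∃ x₀ y₀ : ZMod 7,
        ¬ (p.a * x₀ + p.b * y₀ - x₀ = 0 ∧ p.c * x₀ + p.d * y₀ - y₀ = 0) := by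
      by_contra hcon
      push Not at hcon
      apply hl
      obtain ⟨e1, e2⟩ := hcon 1 0
      obtain ⟨e3, e4⟩ := hcon 0 1
      exact ⟨by linear_combination e1, by linear_combination e3, by linear_combination e2,
        by linear_combination e4⟩
    refine vec_mem_of_one _ hK _ _ h0 ?_ x y
    have h1 : p * (vec x₀ y₀ * p⁻¹ * (vec x₀ y₀)⁻¹) ∈ (NN Ψ).range :=
      Subgroup.mul_mem _ hpK (hK.conj_mem _ (Subgroup.inv_mem _ hpK) _)
    have h2 : p * (vec x₀ y₀ * p⁻¹ * (vec x₀ y₀)⁻¹) =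
        vec (p.a * x₀ + p.b * y₀ - x₀) (p.c * x₀ + p.d * y₀ - y₀) := by
      rw [← mul_assoc, ← mul_assoc, conj_vec, vec_inv, vec_mul]
      rw [sub_eq_add_neg, sub_eq_add_neg]
    rw [← h2]
    exact h1

/-- If `α` is trivial on `U / Z` then `α` is inner by an element of `U`. -/
theorem inner_of_trivial (hV : ∀ x y, ∃ u, NN Ψ u = vec x y) (α : MulAut H)
    (hα : ∀ x y u, NN Ψ u = vec x y → NN Ψ (α u) = vec x y) :
    ∃ w, α = MulAut.conj w ∧ NN Ψ w = vec (Ψ α).u (Ψ α).v := by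
  have h1 : ∀ x y, vec ((Ψ α).a * x + (Ψ α).b * y) ((Ψ α).c * x + (Ψ α).d * y) = vec x y := by
    intro x y
    obtain ⟨u, hu⟩ := hV x y
    have := hα x y u hu
    rw [NN_equiv, hu, conj_vec] at this
    exact this
  have e1 := congrArg A7.u (h1 1 0)
  have e2 := congrArg A7.v (h1 1 0)
  have e3 := congrArg A7.u (h1 0 1)
  have e4 := congrArg A7.v (h1 0 1)
  simp only [vec_u, vec_v, mul_one, mul_zero, add_zero, zero_add] at e1 e2 e3 e4
  have h2 : Ψ α = vec (Ψ α).u (Ψ α).v := by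
    ext <;> simp [e1, e2, e3, e4]
  obtain ⟨w, hw⟩ := hV (Ψ α).u (Ψ α).v
  refine ⟨w, ?_, hw⟩
  apply Ψ.injective
  rw [h2, ← hw, NN_apply]

/-- `(*)`: an automorphism trivial on `U / Z` is trivial on the centre. -/
theorem star (hV : ∀ x y, ∃ u, NN Ψ u = vec x y) (α : MulAut H)
    (hα : ∀ x y u, NN Ψ u = vec x y → NN Ψ (α u) = vec x y) (z : H)
    (hz : NN Ψ z = 1) : α z = z := by
  obtain ⟨w, hw, -⟩ := inner_of_trivial Ψ hV α hα
  rw [NN_eq_one_iff] at hz
  rw [hw, MulAut.conj_apply, ← hz w, mul_inv_cancel_right]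

end Pool.Agent.Helper671
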