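import Pool.Agent.Helper671.Disc1

set_option autoImplicit false

namespace Pool.Agent.Helper671

open A7

section class2
variable {H : Type*} [Group H]

theorem class2_pow_left (a b k : H) (hk : ∀ x, k * x = x * k) (hab : a * b = k * b * a) (n : ℕ) :
    a ^ n * b = k ^ n * b * a ^ n := by
  induction n with
  | zero => simp
  | succ n ih =>
    have hkn : ∀ x, k ^ n * x = x * k ^ n := fun x => (Commute.pow_left (hk x) n).eq
    calc a ^ (n + 1) * b = a ^ n * (a * b) := by rw [pow_succ, mul_assoc]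
      _ = a ^ n * (k * b * a) := by rw [hab]
      _ = k * (a ^ n * b) * a := by
          rw [mul_assoc k b a, ← mul_assoc, ← hk (a ^ n), mul_assoc, mul_assoc, mul_assoc]
      _ = k * (k ^ n * b * a ^ n) * a := by rw [ih]
      _ = k ^ (n + 1) * b * a ^ (n + 1) := by
          rw [pow_succ' k, pow_succ a]; simp only [mul_assoc]

theorem class2_pow_right (a b k : H) (hk : ∀ x, k * x = x * k) (hab : a * b = k * b * a) (n : ℕ) :
    a * b ^ n = k ^ n * b ^ n * a := by
  induction n with
  | zero => simp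
  | succ n ih =>
    calc a * b ^ (n + 1) = (a * b ^ n) * b := by rw [pow_succ, mul_assoc]
      _ = k ^ n * b ^ n * a * b := by rw [ih]
      _ = k ^ n * b ^ n * (k * b * a) := by rw [← hab]; simp only [mul_assoc]
      _ = k ^ n * k * (b ^ n * b) * a := by
          rw [mul_assoc k b a, ← mul_assoc _ k, mul_assoc (k ^ n) (b ^ n) k, ← hk (b ^ n)]
          simp only [mul_assoc]
      _ = k ^ (n + 1) * b ^ (n + 1) * a := by rw [pow_succ k, pow_succ b]

/-- `a^n b^n = k^{n(n-1)/2} (ab)^n`. -/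
theorem class2_mul_pow (a b k : H) (hk : ∀ x, k * x = x * k) (hab : a * b = k * b * a) (n : ℕ) :
    a ^ n * b ^ n = k ^ (n * (n - 1) / 2) * (a * b) ^ n := by
  induction n with
  | zero => simp
  | succ n ih =>
    have hkn : ∀ m x, k ^ m * x = x * k ^ m := fun m x => (Commute.pow_left (hk x) m).eq
    have e : (n + 1) * (n + 1 - 1) / 2 = n + n * (n - 1) / 2 := by
      rw [Nat.add_sub_cancel]
      rcases n with _ | n
      · simp
      · rw [Nat.add_sub_cancel]
        have : (n + 1 + 1) * (n + 1) = (n + 1) * n + (n + 1) * 2 := by ring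
        rw [this, Nat.add_mul_div_right _ _ (by norm_num), add_comm]
    rw [e]
    calc a ^ (n + 1) * b ^ (n + 1) = a ^ n * (a * b ^ n) * b := by
          rw [pow_succ, pow_succ]; simp only [mul_assoc]
      _ = a ^ n * (k ^ n * b ^ n * a) * b := by rw [class2_pow_right a b k hk hab]
      _ = k ^ n * (a ^ n * b ^ n) * (a * b) := by
          rw [mul_assoc (k ^ n) (b ^ n) a, ← mul_assoc (a ^ n) (k ^ n), ← hkn n (a ^ n)]
          simp only [mul_assoc]
      _ = k ^ n * (k ^ (n * (n - 1) / 2) * (a * b) ^ n) * (a * b) := by rw [ih]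
      _ = k ^ (n + n * (n - 1) / 2) * (a * b) ^ (n + 1) := by
          rw [pow_add, pow_succ (a * b)]; simp only [mul_assoc]

end class2

variable {H : Type*} [Group H] (Ψ : MulAut H ≃* A7)

theorem central_of_NN {z : H} (hz : NN Ψ z = 1) (x : H) : z * x = x * z :=
  (NN_eq_one_iff Ψ z).1 hz x

/-- Elements of `U` commute modulo the centre. -/
theorem comm_central {u u' : H} {x y x' y' : ZMod 7} (hu : NN Ψ u = vec x y)
    (hu' : NN Ψ u' = vec x' y') : NN Ψ (u * u' * u⁻¹ * u'⁻¹) = 1 := by
  simp only [map_mul, map_inv, hu, hu', vec_inv, vec_mul]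
  rw [← vec_zero]
  congr 1 <;> ring

theorem pow_seven_central {u : H} {x y : ZMod 7} (hu : NN Ψ u = vec x y) :
    NN Ψ (u ^ 7) = 1 := by
  have h : ∀ n : ℕ, (NN Ψ u) ^ n = vec (n * x) (n * y) := by
    intro n
    induction n with
    | zero => simp [vec_zero]
    | succ n ih => rw [pow_succ, ih, hu, vec_mul]; congr 1 <;> (push_cast; ring)
  rw [map_pow, h 7, ← vec_zero]
  have : ((7 : ℕ) : ZMod 7) = 0 := by decide
  rw [this, zero_mul, zero_mul]

theorem comm_pow_seven {u u' : H} {x y x' y' : ZMod 7} (hu : NN Ψ u = vec x y)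
    (hu' : NN Ψ u' = vec x' y') : (u * u' * u⁻¹ * u'⁻¹) ^ 7 = 1 := by
  have hc := central_of_NN Ψ (comm_central Ψ hu hu')
  have h1 := class2_pow_left u u' _ hc (by group) 7
  have h2 := central_of_NN Ψ (pow_seven_central Ψ hu) u'
  rw [h2, mul_assoc] at h1
  exact (mul_eq_right.1 h1.symm)

/-- the seventh power map is multiplicative on `U`. -/
theorem mul_pow_seven {u u' : H} {x y x' y' : ZMod 7} (hu : NN Ψ u = vec x y)
    (hu' : NN Ψ u' = vec x' y') : (u * u') ^ 7 = u ^ 7 * u' ^ 7 := by
  have hc := central_of_NN Ψ (comm_central Ψ hu hu')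
  have h1 := class2_mul_pow u u' _ hc (by group) 7
  have h2 := comm_pow_seven Ψ hu hu'
  rw [h1]
  have : (u * u' * u⁻¹ * u'⁻¹) ^ (7 * (7 - 1) / 2) = 1 := by
    have : 7 * (7 - 1) / 2 = 7 * 3 := by norm_num
    rw [this, pow_mul, h2, one_pow]
  rw [this, one_mul]

end Pool.Agent.Helper671
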