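import Pool.Agent.Helper671.Disc2

set_option autoImplicit false

namespace Pool.Agent.Helper671

open A7

variable {H : Type*} [Group H] (Ψ : MulAut H ≃* A7)

section
variable (σ : MulAut H) (hσ : Ψ σ = neg) (w : ZMod 7 → ZMod 7 → H)
  (hw : ∀ x y, NN Ψ (w x y) = vec x y) (hw7 : ∀ x y, (w x y) ^ 7 = 1)
  (hwσ : ∀ x y, σ (w x y) = (w x y)⁻¹)
  (hU : ∀ z, NN Ψ z = 1 → z ^ 7 = 1 → σ z = z)

theorem eq_one_of_sq {z : H} (h2 : z * z = 1) (h7 : z ^ 7 = 1) : z = 1 := by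
  have : z ^ 7 = (z * z) * (z * z) * (z * z) * z := by
    simp only [pow_succ, pow_zero, one_mul, mul_assoc]
  rw [h2] at this
  simpa [h7] using this.symm

include hw hw7 hwσ hU in
theorem w_unique {g : H} {x y : ZMod 7} (hg : NN Ψ g = vec x y) (hg7 : g ^ 7 = 1)
    (hgσ : σ g = g⁻¹) : g = w x y := by
  set z := (w x y)⁻¹ * g with hz
  have hgz : g = w x y * z := by rw [hz]; group
  have hz1 : NN Ψ z = 1 := by
    rw [hz, map_mul, map_inv, hw, hg, inv_mul_cancel]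
  have hzc := central_of_NN Ψ hz1
  have hz7 : z ^ 7 = 1 := by
    have h1 : (w x y * z) ^ 7 = (w x y) ^ 7 * z ^ 7 :=
      Commute.mul_pow (hzc (w x y)).symm 7
    rw [← hgz, hg7, hw7, one_mul] at h1
    exact h1.symm
  have hzσ := hU z hz1 hz7
  have h2 : z * z = 1 := by
    have h3 : σ g = (w x y)⁻¹ * z := by
      rw [hgz, map_mul, hwσ, hzσ]
    rw [hgσ, hgz, mul_inv_rev, ← hzc] at h3
    -- z⁻¹ * (w)⁻¹ = w⁻¹ * z
    have h4 : z⁻¹ * (w x y)⁻¹ = z * (w x y)⁻¹ := by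
      rw [h3]
    have h5 : z⁻¹ = z := mul_right_cancel h4
    have h6 := inv_mul_cancel z
    rw [h5] at h6
    exact h6
  have h1 : z = 1 := eq_one_of_sq h2 hz7
  rw [hgz, h1, mul_one]

include hw hw7 hwσ hU in
theorem w_zero : w 0 0 = 1 := by
  refine (w_unique Ψ σ w hw hw7 hwσ hU ?_ ?_ ?_).symm
  · rw [map_one, vec_zero]
  · exact one_pow _
  · simp

include hw hw7 hwσ hU hσ in
theorem w_conj {c : H} (hu : (NN Ψ c).u = 0) (hv : (NN Ψ c).v = 0) (x y : ZMod 7) :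
    c * w x y * c⁻¹ = w ((NN Ψ c).a * x + (NN Ψ c).b * y) ((NN Ψ c).c * x + (NN Ψ c).d * y) := by
  refine w_unique Ψ σ w hw hw7 hwσ hU ?_ ?_ ?_
  · rw [map_mul, map_mul, map_inv, hw, conj_vec]
  · rw [← MulAut.conj_apply, ← map_pow, hw7, map_one]
  · have h1 : NN Ψ (σ c) = NN Ψ c := by
      rw [NN_equiv, hσ, mul_inv_eq_iff_eq_mul]
      ext <;> simp [hu, hv]
    have h2 := (NN_eq_iff Ψ (σ c) c).1 h1
    set z := c⁻¹ * σ c with hz
    have h3 : σ c = c * z := by rw [hz]; group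
    rw [map_mul, map_mul, map_inv, h3, hwσ]
    have h4 : z * (w x y)⁻¹ * z⁻¹ = (w x y)⁻¹ := by
      rw [h2, mul_inv_cancel_right]
    calc c * z * (w x y)⁻¹ * (c * z)⁻¹ = c * (z * (w x y)⁻¹ * z⁻¹) * c⁻¹ := by group
      _ = c * (w x y)⁻¹ * c⁻¹ := by rw [h4]
      _ = (c * w x y * c⁻¹)⁻¹ := by group

include hw hw7 hwσ hU in
theorem w_mul (x y x' y' : ZMod 7) :
    w x y * w x' y' = w (x + x') (y + y') *
      (w x y * w x' y' * (w x y)⁻¹ * (w x' y')⁻¹) ^ 4 := by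
  set κ := w x y * w x' y' * (w x y)⁻¹ * (w x' y')⁻¹ with hκ
  have hκ1 : NN Ψ κ = 1 := comm_central Ψ (hw x y) (hw x' y')
  have hκc := central_of_NN Ψ hκ1
  have hκ7 : κ ^ 7 = 1 := comm_pow_seven Ψ (hw x y) (hw x' y')
  set k := (w (x + x') (y + y'))⁻¹ * (w x y * w x' y') with hk
  have hk1 : NN Ψ k = 1 := by
    rw [hk, map_mul, map_mul, map_inv, hw, hw, hw, vec_mul, inv_mul_cancel]
  have hkc := central_of_NN Ψ hk1
  have e1 : w x y * w x' y' = w (x + x') (y + y') * k := by rw [hk]; group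
  have hk7 : k ^ 7 = 1 := by
    have h1 := mul_pow_seven Ψ (hw x y) (hw x' y')
    rw [hw7, hw7, one_mul, e1, Commute.mul_pow (hkc _).symm, hw7, one_mul] at h1
    exact h1
  have hkσ := hU k hk1 hk7
  have e2 : κ = k * k := by
    have h1 := congrArg σ e1
    rw [map_mul, map_mul, hwσ, hwσ, hwσ, hkσ] at h1
    -- w⁻¹ w'⁻¹ = w''⁻¹ k
    have h2 : w x' y' * w x y = k⁻¹ * w (x + x') (y + y') := by
      have := congrArg (fun t => t⁻¹) h1
      simpa using this
    rw [hκ]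
    calc w x y * w x' y' * (w x y)⁻¹ * (w x' y')⁻¹
        = (w x y * w x' y') * (w x' y' * w x y)⁻¹ := by group
      _ = (w (x + x') (y + y') * k) * (k⁻¹ * w (x + x') (y + y'))⁻¹ := by rw [e1, h2]
      _ = (k * w (x + x') (y + y')) * (k⁻¹ * w (x + x') (y + y'))⁻¹ := by rw [hkc]
      _ = k * k := by group
  have e3 : k = κ ^ 4 := by
    have : κ ^ 4 = k ^ 7 * k := by
      rw [e2, ← pow_two, ← pow_mul, ← pow_succ]
    rw [this, hk7, one_mul]
  rw [← e3]
  exact e1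

include hσ hw hw7 hwσ hU in
/-- The final automorphism `θ`. -/
theorem theta_absurd (lam : H → H) (hl1 : ∀ c, NN Ψ (lam c) = 1)
    (hl2 : ∀ c c', (NN Ψ c).u = 0 → (NN Ψ c).v = 0 → (NN Ψ c').u = 0 → (NN Ψ c').v = 0 →
      lam (c * c') = lam c * lam c')
    (hl3 : ∀ u u' x y x' y', NN Ψ u = vec x y → NN Ψ u' = vec x' y' →
      lam (u * u' * u⁻¹ * u'⁻¹) = (u * u' * u⁻¹ * u'⁻¹) ^ 3)
    (hl4 : ∀ z, NN Ψ z = 1 → z * lam z = 1 → z = 1)
    (hl5 : ∀ z, NN Ψ z = 1 → ∃ y, NN Ψ y = 1 ∧ y * lam y = z) : False := by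
  have hlc : ∀ c x, lam c * x = x * lam c := fun c => central_of_NN Ψ (hl1 c)
  have hl0 : lam 1 = 1 := by
    have := hl2 1 1 (by simp) (by simp) (by simp) (by simp)
    rw [mul_one] at this
    exact (mul_eq_left.1 this.symm)
  have hlpow : ∀ k, NN Ψ k = 1 → ∀ n : ℕ, lam (k ^ n) = (lam k) ^ n := by
    intro k hk n
    induction n with
    | zero => simp [hl0]
    | succ n ih =>
      rw [pow_succ, hl2, ih, pow_succ] <;> simp [hk]
  have hw0 := w_zero Ψ σ w hw hw7 hwσ hU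
  let D : H → H := fun h => w (NN Ψ h).u (NN Ψ h).v
  let cc : H → H := fun h => (D h)⁻¹ * h
  have hD : ∀ h, NN Ψ (D h) = vec (NN Ψ h).u (NN Ψ h).v := fun h => hw _ _
  have hcc : ∀ h, NN Ψ (cc h) = ⟨0, 0, (NN Ψ h).a, (NN Ψ h).b, (NN Ψ h).c, (NN Ψ h).d,
      (NN Ψ h).h⟩ := by
    intro h
    change NN Ψ ((D h)⁻¹ * h) = _
    rw [map_mul, map_inv, hD, vec_inv]
    ext <;> simp
  have hhD : ∀ h, h = D h * cc h := by
    intro h
    change h = D h * ((D h)⁻¹ * h)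
    group
  let θ₀ : H → H := fun h => D h * h * lam (cc h)
  have hθ : ∀ h, θ₀ h = D h * h * lam (cc h) := fun h => rfl
  have hmul : ∀ h h', θ₀ (h * h') = θ₀ h * θ₀ h' := by
    intro h h'
    set p := NN Ψ h with hp
    set q := NN Ψ h' with hq
    obtain ⟨w1, hw1⟩ : ∃ w1, w1 = D h := ⟨_, rfl⟩
    obtain ⟨w3, hw3⟩ : ∃ w3, w3 = D h' := ⟨_, rfl⟩
    obtain ⟨w2, hw2⟩ : ∃ w2, w2 = w (p.a * q.u + p.b * q.v) (p.c * q.u + p.d * q.v) := ⟨_, rfl⟩
    obtain ⟨w12, hw12⟩ : ∃ w12, w12 = D (h * h') := ⟨_, rfl⟩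
    obtain ⟨c, hc⟩ : ∃ c, c = cc h := ⟨_, rfl⟩
    obtain ⟨c', hc'⟩ : ∃ c', c' = cc h' := ⟨_, rfl⟩
    have hNc : NN Ψ c = ⟨0, 0, p.a, p.b, p.c, p.d, p.h⟩ := by rw [hc, hcc]
    have hNc' : NN Ψ c' = ⟨0, 0, q.a, q.b, q.c, q.d, q.h⟩ := by rw [hc', hcc]
    have eA : c * w3 * c⁻¹ = w2 := by
      rw [hw2, hw3]
      have := w_conj Ψ σ hσ w hw hw7 hwσ hU (c := c) (by rw [hNc]) (by rw [hNc]) q.u q.v
      rw [hNc] at this
      exact this
    have eA' : c * w3 = w2 * c := by rw [← eA]; group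
    set κ := w1 * w2 * w1⁻¹ * w2⁻¹ with hκ
    have hNw1 : NN Ψ w1 = vec p.u p.v := by rw [hw1, hD]
    have hNw2 : NN Ψ w2 = vec (p.a * q.u + p.b * q.v) (p.c * q.u + p.d * q.v) := by
      rw [hw2, hw]
    have eB : w1 * w2 = w12 * κ ^ 4 := by
      have := w_mul Ψ σ w hw hw7 hwσ hU p.u p.v (p.a * q.u + p.b * q.v) (p.c * q.u + p.d * q.v)
      rw [hκ, hw1, hw2, hw12]
      change w p.u p.v * _ = w (NN Ψ (h * h')).u (NN Ψ (h * h')).v * _
      rw [map_mul, mul_u, mul_v]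
      exact this
    have hκ1 : NN Ψ κ = 1 := comm_central Ψ hNw1 hNw2
    have hκc := central_of_NN Ψ hκ1
    have hκ7 : κ ^ 7 = 1 := comm_pow_seven Ψ hNw1 hNw2
    have hκcn : ∀ (n : ℕ) (x : H), κ ^ n * x = x * κ ^ n :=
      fun n x => (Commute.pow_left (hκc x) n).eq
    have ew12 : w12 = w1 * w2 * κ ^ 3 := by
      rw [eB, mul_assoc, ← pow_add, hκ7, mul_one]
    have ecc : cc (h * h') = κ ^ 4 * c * c' := by
      change (D (h * h'))⁻¹ * (h * h') = _
      rw [← hw12]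
      have e1 : h = w1 * c := by rw [hw1, hc]; exact hhD h
      have e2 : h' = w3 * c' := by rw [hw3, hc']; exact hhD h'
      rw [e1, e2]
      calc w12⁻¹ * (w1 * c * (w3 * c')) = w12⁻¹ * (w1 * (c * w3) * c') := by group
        _ = w12⁻¹ * (w1 * w2) * c * c' := by rw [eA']; group
        _ = w12⁻¹ * (w12 * κ ^ 4) * c * c' := by rw [← eB]
        _ = κ ^ 4 * c * c' := by group
    have elam : lam (cc (h * h')) = κ ^ 12 * lam c * lam c' := by
      have hk4 : NN Ψ (κ ^ 4) = 1 := by rw [map_pow, hκ1, one_pow]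
      rw [ecc, hl2, hl2, hlpow κ hκ1, hκ, hl3 w1 w2 _ _ _ _ hNw1 hNw2, ← pow_mul]
      · rw [hk4]; rfl
      · rw [hk4]; rfl
      · rw [hNc]
      · rw [hNc]
      · rw [map_mul, hk4, one_mul, hNc]
      · rw [map_mul, hk4, one_mul, hNc]
      · rw [hNc']
      · rw [hNc']
    rw [hθ, hθ, hθ, elam, ← hw12, ← hw1, ← hw3, ← hc, ← hc']
    have e1 : h = w1 * c := by rw [hw1, hc]; exact hhD h
    have e2 : h' = w3 * c' := by rw [hw3, hc']; exact hhD h'
    have e3 : w1 * w2 = κ * (w2 * w1) := by rw [hκ]; group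
    rw [e1, e2]
    have lhs : w12 * (w1 * c * (w3 * c')) * (κ ^ 12 * lam c * lam c') =
        w1 * w1 * w2 * w2 * c * c' * lam c * lam c' := by
      calc w12 * (w1 * c * (w3 * c')) * (κ ^ 12 * lam c * lam c')
          = w12 * (w1 * (c * w3) * c') * (κ ^ 12 * lam c * lam c') := by group
        _ = w12 * (w1 * w2 * c * c') * (κ ^ 12 * lam c * lam c') := by rw [eA']; group
        _ = w12 * (w1 * w2 * c * c' * κ ^ 12) * (lam c * lam c') := by
            simp only [mul_assoc]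
        _ = w12 * (κ ^ 12 * (w1 * w2 * c * c')) * (lam c * lam c') := by rw [hκcn 12]
        _ = w1 * w2 * κ ^ 15 * (w1 * w2 * c * c') * (lam c * lam c') := by
            rw [ew12, show κ ^ 15 = κ ^ 3 * κ ^ 12 by rw [← pow_add]]; simp only [mul_assoc]
        _ = w1 * w2 * κ * (w1 * w2 * c * c') * (lam c * lam c') := by
            rw [show κ ^ 15 = κ from by
              calc κ ^ 15 = (κ ^ 7) ^ 2 * κ := by rw [← pow_mul, ← pow_succ]
                _ = κ := by rw [hκ7, one_pow, one_mul]]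
        _ = w1 * (κ * (w2 * w1)) * w2 * c * c' * (lam c * lam c') := by
            rw [mul_assoc w1 w2 κ, ← hκc w2]; simp only [mul_assoc]
        _ = w1 * (w1 * w2) * w2 * c * c' * (lam c * lam c') := by rw [← e3]
        _ = w1 * w1 * w2 * w2 * c * c' * lam c * lam c' := by simp only [mul_assoc]
    have rhs : w1 * (w1 * c) * lam c * (w3 * (w3 * c') * lam c') =
        w1 * w1 * w2 * w2 * c * c' * lam c * lam c' := by
      calc w1 * (w1 * c) * lam c * (w3 * (w3 * c') * lam c')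
          = w1 * (w1 * c) * (lam c * (w3 * (w3 * c'))) * lam c' := by simp only [mul_assoc]
        _ = w1 * (w1 * c) * ((w3 * (w3 * c')) * lam c) * lam c' := by rw [hlc]
        _ = w1 * w1 * (c * w3) * w3 * c' * lam c * lam c' := by simp only [mul_assoc]
        _ = w1 * w1 * (w2 * c) * w3 * c' * lam c * lam c' := by rw [eA']
        _ = w1 * w1 * w2 * (c * w3) * c' * lam c * lam c' := by simp only [mul_assoc]
        _ = w1 * w1 * w2 * (w2 * c) * c' * lam c * lam c' := by rw [eA']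
        _ = w1 * w1 * w2 * w2 * c * c' * lam c * lam c' := by simp only [mul_assoc]
    rw [lhs, rhs]
  have hNθ : ∀ h, NN Ψ (θ₀ h) = vec (NN Ψ h).u (NN Ψ h).v * NN Ψ h := by
    intro h
    rw [hθ, map_mul, map_mul, hl1, mul_one, hD]
  have two : (4 : ZMod 7) * 2 = 1 := by decide
  have hinj : Function.Injective (MonoidHom.mk' θ₀ hmul) := by
    rw [injective_iff_map_eq_one]
    intro h hh
    change θ₀ h = 1 at hh
    have h1 := hNθ h
    rw [hh, map_one] at h1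
    have eu := congrArg A7.u h1
    have ev := congrArg A7.v h1
    have ea := congrArg A7.a h1
    have eb := congrArg A7.b h1
    have ec := congrArg A7.c h1
    have ed := congrArg A7.d h1
    simp only [mul_u, mul_v, mul_a, mul_b, mul_c, mul_d, vec_u, vec_v, vec_a, vec_b, vec_c, vec_d,
      one_u, one_v, one_a, one_b, one_c, one_d, one_mul, zero_mul, add_zero, zero_add]
      at eu ev ea eb ec ed
    have hu : (NN Ψ h).u = 0 := by linear_combination (-4) * eu - (NN Ψ h).u * two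
    have hv : (NN Ψ h).v = 0 := by linear_combination (-4) * ev - (NN Ψ h).v * two
    have hN1 : NN Ψ h = 1 := by
      ext <;> simp [hu, hv, ← ea, ← eb, ← ec, ← ed]
    have hD1 : D h = 1 := by
      change w (NN Ψ h).u (NN Ψ h).v = 1
      rw [hu, hv, hw0]
    have hc1 : cc h = h := by
      change (D h)⁻¹ * h = h
      rw [hD1, inv_one, one_mul]
    rw [hθ, hD1, hc1, one_mul] at hh
    exact hl4 h hN1 hh
  have hsurj : Function.Surjective (MonoidHom.mk' θ₀ hmul) := by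
    intro g
    change ∃ h, θ₀ h = g
    obtain ⟨W, hW⟩ : ∃ W, W = w (4 * (NN Ψ g).u) (4 * (NN Ψ g).v) := ⟨_, rfl⟩
    have hNW : NN Ψ W = vec (4 * (NN Ψ g).u) (4 * (NN Ψ g).v) := by rw [hW, hw]
    set c := W⁻¹ * (W⁻¹ * g) with hc
    have hNc : (NN Ψ c).u = 0 ∧ (NN Ψ c).v = 0 := by
      rw [hc, map_mul, map_mul, map_inv, hNW, vec_inv]
      simp only [mul_u, mul_v, vec_u, vec_v, vec_a, vec_b, vec_c, vec_d, one_mul, zero_mul,
        add_zero, zero_add]
      constructor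
      · linear_combination (-(NN Ψ g).u) * two
      · linear_combination (-(NN Ψ g).v) * two
    obtain ⟨y, hy, hy2⟩ := hl5 (lam c)⁻¹ (by rw [map_inv, hl1, inv_one])
    refine ⟨W * (c * y), ?_⟩
    have hN : NN Ψ (W * (c * y)) = vec (4 * (NN Ψ g).u) (4 * (NN Ψ g).v) * NN Ψ c := by
      rw [map_mul, map_mul, hy, mul_one, hNW]
    have hDW : D (W * (c * y)) = W := by
      change w (NN Ψ (W * (c * y))).u (NN Ψ (W * (c * y))).v = W
      rw [hN, hW]
      congr 1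
      · simp [hNc.1, hNc.2]
      · simp [hNc.1, hNc.2]
    have hccW : cc (W * (c * y)) = c * y := by
      change (D (W * (c * y)))⁻¹ * (W * (c * y)) = c * y
      rw [hDW]; group
    rw [hθ, hDW, hccW, hl2 c y hNc.1 hNc.2 (by rw [hy]; rfl) (by rw [hy]; rfl)]
    have hyc := central_of_NN Ψ hy
    calc W * (W * (c * y)) * (lam c * lam y) = W * (W * c) * (y * (lam c * lam y)) := by
          simp only [mul_assoc]
      _ = W * (W * c) * (lam c * (y * lam y)) := by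
          rw [← mul_assoc y, hyc (lam c)]; simp only [mul_assoc]
      _ = W * (W * c) := by rw [hy2, mul_inv_cancel, mul_one]
      _ = g := by rw [hc]; group
  let θ : MulAut H := MulEquiv.ofBijective (MonoidHom.mk' θ₀ hmul) ⟨hinj, hsurj⟩
  have hθθ : ∀ h, θ h = θ₀ h := fun h => rfl
  have hfin : ∀ x y, vec ((Ψ θ).a * x + (Ψ θ).b * y) ((Ψ θ).c * x + (Ψ θ).d * y) =
      vec (x + x) (y + y) := by
    intro x y
    rw [← conj_vec, ← hw x y, ← NN_equiv, hθθ, hNθ, hw, vec_mul]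
    rfl
  have e1 := congrArg A7.u (hfin 1 0)
  have e2 := congrArg A7.v (hfin 1 0)
  have e3 := congrArg A7.u (hfin 0 1)
  have e4 := congrArg A7.v (hfin 0 1)
  simp only [vec_u, vec_v, mul_one, mul_zero, add_zero, zero_add] at e1 e2 e3 e4
  have hdet := (Ψ θ).h
  rw [e1, e2, e3, e4] at hdet
  revert hdet
  decide

end

end Pool.Agent.Helper671
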