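import Pool.Agent.Helper671.Disc3
import Pool.Agent.Helper671.AbEndo

set_option autoImplicit false

namespace Pool.Agent.Helper671

open A7
open scoped IsMulCommutative

variable {H : Type*} [Group H] (Ψ : MulAut H ≃* A7)

theorem mem_center_iff_NN (z : H) : z ∈ Subgroup.center H ↔ NN Ψ z = 1 := by
  rw [Subgroup.mem_center_iff, NN_eq_one_iff]
  exact ⟨fun h x => (h x).symm, fun h x => (h x).symm⟩

include Ψ in
theorem center_finiteIndex : (Subgroup.center H).FiniteIndex := by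
  have h : (NN Ψ).ker = Subgroup.center H := by
    ext z
    rw [MonoidHom.mem_ker, mem_center_iff_NN Ψ]
  rw [← h]
  infer_instance

theorem comm_mul_left {x y u : H} (hy : ∀ g, (y * u * y⁻¹ * u⁻¹) * g = g * (y * u * y⁻¹ * u⁻¹)) :
    (x * y) * u * (x * y)⁻¹ * u⁻¹ = (y * u * y⁻¹ * u⁻¹) * (x * u * x⁻¹ * u⁻¹) := by
  calc (x * y) * u * (x * y)⁻¹ * u⁻¹ = x * (y * u * y⁻¹ * u⁻¹) * (u * x⁻¹ * u⁻¹) := by group
    _ = (y * u * y⁻¹ * u⁻¹) * x * (u * x⁻¹ * u⁻¹) := by rw [← hy x]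
    _ = _ := by group

theorem comm_gen_left (S : Subgroup H) {a b u' : H} (ha : NN Ψ a = vec 1 0)
    (hb : NN Ψ b = vec 0 1) {x' y' : ZMod 7} (hu' : NN Ψ u' = vec x' y')
    (h1 : a * u' * a⁻¹ * u'⁻¹ ∈ S) (h2 : b * u' * b⁻¹ * u'⁻¹ ∈ S) {u : H} {x y : ZMod 7}
    (hu : NN Ψ u = vec x y) : u * u' * u⁻¹ * u'⁻¹ ∈ S := by
  have key : ∀ g g' : H, (∃ x y, NN Ψ g' = vec x y) → g * u' * g⁻¹ * u'⁻¹ ∈ S →
      g' * u' * g'⁻¹ * u'⁻¹ ∈ S → (g * g') * u' * (g * g')⁻¹ * u'⁻¹ ∈ S := by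
    rintro g g' ⟨x, y, hg'⟩ h3 h4
    rw [comm_mul_left (central_of_NN Ψ (comm_central Ψ hg' hu'))]
    exact S.mul_mem h4 h3
  have hpa : ∀ n : ℕ, NN Ψ (a ^ n) = vec n 0 := by
    intro n
    induction n with
    | zero => simp [vec_zero]
    | succ n ih => rw [pow_succ, map_mul, ih, ha, vec_mul]; congr 1 <;> (push_cast; ring)
  have hpb : ∀ n : ℕ, NN Ψ (b ^ n) = vec 0 n := by
    intro n
    induction n with
    | zero => simp [vec_zero]
    | succ n ih => rw [pow_succ, map_mul, ih, hb, vec_mul]; congr 1 <;> (push_cast; ring)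
  have hA : ∀ n : ℕ, a ^ n * u' * (a ^ n)⁻¹ * u'⁻¹ ∈ S := by
    intro n
    induction n with
    | zero => simp
    | succ n ih => rw [pow_succ]; exact key _ _ ⟨_, _, ha⟩ ih h1
  have hB : ∀ n : ℕ, b ^ n * u' * (b ^ n)⁻¹ * u'⁻¹ ∈ S := by
    intro n
    induction n with
    | zero => simp
    | succ n ih => rw [pow_succ]; exact key _ _ ⟨_, _, hb⟩ ih h2
  set z := (a ^ x.val * b ^ y.val)⁻¹ * u with hz
  have hz1 : NN Ψ z = 1 := by
    rw [hz, map_mul, map_inv, map_mul, hpa, hpb, hu, vec_mul]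
    simp
  have hzc := central_of_NN Ψ hz1
  have hu2 : u = z * (a ^ x.val * b ^ y.val) := by rw [hzc, hz]; group
  rw [hu2]
  have hab : NN Ψ (a ^ x.val * b ^ y.val) = vec x y := by
    rw [map_mul, hpa, hpb, vec_mul]
    simp
  refine key _ _ ⟨_, _, hab⟩ ?_ (key _ _ ⟨_, _, hpb _⟩ (hA _) (hB _))
  rw [hzc, mul_inv_cancel_right, mul_inv_cancel]
  exact S.one_mem

theorem comm_gen (S : Subgroup H) {a b : H} (ha : NN Ψ a = vec 1 0)
    (hb : NN Ψ b = vec 0 1) (h1 : a * b * a⁻¹ * b⁻¹ ∈ S) {u u' : H} {x y x' y' : ZMod 7}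
    (hu : NN Ψ u = vec x y) (hu' : NN Ψ u' = vec x' y') : u * u' * u⁻¹ * u'⁻¹ ∈ S := by
  have inv : ∀ g g' : H, g * g' * g⁻¹ * g'⁻¹ ∈ S → g' * g * g'⁻¹ * g⁻¹ ∈ S := by
    intro g g' h
    have := S.inv_mem h
    have e : (g * g' * g⁻¹ * g'⁻¹)⁻¹ = g' * g * g'⁻¹ * g⁻¹ := by group
    rwa [e] at this
  have triv : ∀ g : H, g * g * g⁻¹ * g⁻¹ ∈ S := by
    intro g
    have e : g * g * g⁻¹ * g⁻¹ = 1 := by group
    rw [e]; exact S.one_mem
  have hA : ∀ u x y, NN Ψ u = vec x y → u * a * u⁻¹ * a⁻¹ ∈ S := fun u x y hu =>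
    comm_gen_left Ψ S ha hb ha (triv a) (inv _ _ h1) hu
  have hB : ∀ u x y, NN Ψ u = vec x y → u * b * u⁻¹ * b⁻¹ ∈ S := fun u x y hu =>
    comm_gen_left Ψ S ha hb hb h1 (triv b) hu
  exact comm_gen_left Ψ S ha hb hu' (inv _ _ (hA u' _ _ hu')) (inv _ _ (hB u' _ _ hu')) hu

/-- The form of `(*)` used for endomorphisms of the centre. -/
theorem endo_star (hV : ∀ x y, ∃ u, NN Ψ u = vec x y)
    (η : Subgroup.center H →* Subgroup.center H)
    (hη : Function.Bijective (fun z => z * (η z) ^ ((Subgroup.center H).index * 7)))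
    (z : Subgroup.center H) : (η z) ^ ((Subgroup.center H).index * 7) = 1 := by
  haveI := center_finiteIndex Ψ
  set n := (Subgroup.center H).index with hn
  let T : H →* Subgroup.center H := MonoidHom.transferCenterPow H
  have hT : ∀ z : Subgroup.center H, T (z : H) = z ^ n := by
    intro z
    apply Subtype.ext
    rw [MonoidHom.transferCenterPow_apply]
    simp [hn]
  let μ : H → H := fun h => ((η (T h)) ^ 7 : Subgroup.center H)
  have hμc : ∀ h x, μ h * x = x * μ h := by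
    intro h x
    exact (Subgroup.mem_center_iff.1 ((η (T h)) ^ 7 : Subgroup.center H).2 x).symm
  have hμmul : ∀ h h', μ (h * h') = μ h * μ h' := by
    intro h h'
    change (((η (T (h * h'))) ^ 7 : Subgroup.center H) : H) = _
    rw [map_mul, map_mul, mul_pow]
    rfl
  have hμz : ∀ z : Subgroup.center H, μ z = ((η z) ^ (n * 7) : Subgroup.center H) := by
    intro z
    change (((η (T z)) ^ 7 : Subgroup.center H) : H) = _
    rw [hT, map_pow, ← pow_mul]
  have hmul : ∀ h h', (h * h') * μ (h * h') = (h * μ h) * (h' * μ h') := by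
    intro h h'
    rw [hμmul]
    calc h * h' * (μ h * μ h') = h * (h' * μ h) * μ h' := by simp only [mul_assoc]
      _ = h * (μ h * h') * μ h' := by rw [hμc h h']
      _ = _ := by simp only [mul_assoc]
  have hinj : Function.Injective (MonoidHom.mk' (fun h => h * μ h) hmul) := by
    rw [injective_iff_map_eq_one]
    intro h hh
    change h * μ h = 1 at hh
    have hh1 : h = (μ h)⁻¹ := eq_inv_of_mul_eq_one_left hh
    have hc : h ∈ Subgroup.center H := by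
      rw [hh1]
      exact Subgroup.inv_mem _ ((η (T h)) ^ 7 : Subgroup.center H).2
    have h2 : (⟨h, hc⟩ : Subgroup.center H) * (η ⟨h, hc⟩) ^ (n * 7) = 1 := by
      apply Subtype.ext
      have := hμz ⟨h, hc⟩
      change μ h = _ at this
      rw [Subgroup.coe_mul, ← this]
      exact hh
    have h3 : (1 : Subgroup.center H) * (η 1) ^ (n * 7) = 1 := by simp
    have h4 := hη.1 (h2.trans h3.symm)
    exact congrArg Subtype.val h4
  have hsurj : Function.Surjective (MonoidHom.mk' (fun h => h * μ h) hmul) := by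
    intro g
    change ∃ h, h * μ h = g
    obtain ⟨y, hy⟩ := hη.2 ((η (T g)) ^ 7)⁻¹
    refine ⟨g * y, ?_⟩
    have hy' : (y : H) * μ y = (μ g)⁻¹ := by
      rw [hμz]
      exact congrArg Subtype.val hy
    rw [hμmul]
    calc g * y * (μ g * μ y) = g * (y * μ g) * μ y := by simp only [mul_assoc]
      _ = g * (μ g * y) * μ y := by rw [hμc]
      _ = g * μ g * (y * μ y) := by simp only [mul_assoc]
      _ = g := by rw [hy', mul_inv_cancel_right]
  let α : MulAut H := MulEquiv.ofBijective (MonoidHom.mk' (fun h => h * μ h) hmul) ⟨hinj, hsurj⟩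
  have hα : ∀ h, α h = h * μ h := fun h => rfl
  have h1 := star Ψ hV α (by
    intro x y u hu
    rw [hα, map_mul, (mem_center_iff_NN Ψ _).1 ((η (T u)) ^ 7 : Subgroup.center H).2, mul_one, hu])
    z ((mem_center_iff_NN Ψ _).1 z.2)
  rw [hα, mul_eq_left, hμz] at h1
  exact Subtype.ext h1

/-- Everything except the construction of the sections `w` and the homomorphism `l₀`. -/
theorem absurd_of_data (hV : ∀ x y, ∃ u, NN Ψ u = vec x y) (σ : MulAut H) (hσ : Ψ σ = neg)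
    (hE : ∀ x y, ∃ g, NN Ψ g = vec x y ∧ g ^ 7 = 1 ∧ σ g = g⁻¹)
    (hU : ∀ z, NN Ψ z = 1 → z ^ 7 = 1 → σ z = z)
    (i : ℕ) (hi : ¬ 7 ∣ i) (l₀ : H → H) (hl1 : ∀ c, NN Ψ (l₀ c) = 1)
    (hl2 : ∀ c c', (NN Ψ c).u = 0 → (NN Ψ c).v = 0 → (NN Ψ c').u = 0 → (NN Ψ c').v = 0 →
      l₀ (c * c') = l₀ c * l₀ c')
    (hl3 : ∀ z, NN Ψ z = 1 → l₀ z = z ^ i) : False := by
  choose w hw hw7 hwσ using hE
  set z₀ := w 1 0 * w 0 1 * (w 1 0)⁻¹ * (w 0 1)⁻¹ with hz₀
  by_cases h0 : z₀ = 1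
  · refine theta_absurd Ψ σ hσ w hw hw7 hwσ hU (fun _ => 1) (by simp) (by simp) ?_
      (fun z _ h => by simpa using h) (fun z hz => ⟨z, hz, by simp⟩)
    intro u u' x y x' y' hu hu'
    have := comm_gen Ψ ⊥ (hw 1 0) (hw 0 1) (by rw [← hz₀, h0]; exact Subgroup.one_mem _) hu hu'
    rw [Subgroup.mem_bot] at this
    rw [this, one_pow]
  · have hz01 : NN Ψ z₀ = 1 := comm_central Ψ (hw 1 0) (hw 0 1)
    have hz07 : z₀ ^ 7 = 1 := comm_pow_seven Ψ (hw 1 0) (hw 0 1)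
    haveI := center_finiteIndex Ψ
    have hn : (Subgroup.center H).index ≠ 0 := Subgroup.FiniteIndex.index_ne_zero
    let Z0 : Subgroup.center H := ⟨z₀, (mem_center_iff_NN Ψ _).2 hz01⟩
    obtain ⟨ν, hν1, hν2⟩ := abelian_endo ((Subgroup.center H).index * 7) (by positivity)
      (Dvd.intro_left _ rfl) (endo_star Ψ hV) Z0 (Subtype.ext hz07)
      (fun h => h0 (congrArg Subtype.val h)) i hi
    have hmem : ∀ c, l₀ c ∈ Subgroup.center H := fun c => (mem_center_iff_NN Ψ _).2 (hl1 c)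
    have hlz : ∀ z (hz : z ∈ Subgroup.center H),
        (ν ⟨l₀ z, hmem z⟩ : H) = ((ν ⟨z, hz⟩) ^ i : Subgroup.center H) := by
      intro z hz
      rw [← map_pow]
      congr 2
      exact Subtype.ext (hl3 z ((mem_center_iff_NN Ψ _).1 hz))
    refine theta_absurd Ψ σ hσ w hw hw7 hwσ hU (fun c => (ν ⟨l₀ c, hmem c⟩ : H)) ?_ ?_ ?_ ?_ ?_
    · intro c
      exact (mem_center_iff_NN Ψ _).1 (ν ⟨l₀ c, hmem c⟩).2
    · intro c c' h1 h2 h3 h4
      rw [← Subgroup.coe_mul, ← map_mul]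
      congr 2
      exact Subtype.ext (hl2 c c' h1 h2 h3 h4)
    · intro u u' x y x' y' hu hu'
      have h1 := comm_gen Ψ (Subgroup.zpowers z₀) (hw 1 0) (hw 0 1)
        (by rw [← hz₀]; exact Subgroup.mem_zpowers _) hu hu'
      obtain ⟨j, hj⟩ := Subgroup.mem_zpowers_iff.1 h1
      have h2 : NN Ψ (u * u' * u⁻¹ * u'⁻¹) = 1 := comm_central Ψ hu hu'
      change (ν ⟨l₀ (u * u' * u⁻¹ * u'⁻¹), _⟩ : H) = _
      rw [hlz _ ((mem_center_iff_NN Ψ _).2 h2)]
      have h3 : (⟨u * u' * u⁻¹ * u'⁻¹, (mem_center_iff_NN Ψ _).2 h2⟩ : Subgroup.center H) =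
          Z0 ^ j := Subtype.ext (by rw [Subgroup.coe_zpow]; exact hj.symm)
      rw [h3, map_zpow, ← zpow_natCast, zpow_comm, zpow_natCast, hν2, Subgroup.coe_zpow,
        Subgroup.coe_pow, ← hj, ← zpow_natCast, ← zpow_natCast, zpow_comm]
    · intro z hz h
      have hzc := (mem_center_iff_NN Ψ z).2 hz
      rw [hlz z hzc] at h
      have h2 : (⟨z, hzc⟩ : Subgroup.center H) * (ν ⟨z, hzc⟩) ^ i = 1 := Subtype.ext h
      have h3 : (1 : Subgroup.center H) * (ν 1) ^ i = 1 := by simp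
      exact congrArg Subtype.val (hν1.1 (h2.trans h3.symm))
    · intro z hz
      have hzc := (mem_center_iff_NN Ψ z).2 hz
      obtain ⟨y, hy⟩ := hν1.2 ⟨z, hzc⟩
      refine ⟨y, (mem_center_iff_NN Ψ _).1 y.2, ?_⟩
      rw [hlz y y.2]
      exact congrArg Subtype.val hy

end Pool.Agent.Helper671
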