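import Pool.Agent.Helper671.Disc4

set_option autoImplicit false

namespace Pool.Agent.Helper671

open A7

variable {H : Type*} [Group H] (Ψ : MulAut H ≃* A7)

theorem neg_sq (σ : MulAut H) (hσ : Ψ σ = neg) (h : H) : σ (σ h) = h := by
  have : σ * σ = 1 := by
    apply Ψ.injective
    rw [map_mul, hσ, map_one]
    decide
  rw [← MulAut.mul_apply, this, MulAut.one_apply]

theorem NN_neg (σ : MulAut H) (hσ : Ψ σ = neg) {h : H} {x y : ZMod 7} (hh : NN Ψ h = vec x y) :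
    NN Ψ (σ h) = vec (-x) (-y) := by
  rw [NN_equiv, hσ, hh, conj_vec]
  simp

/-- From an element of order dividing `49` to the antisymmetric lift of order `7`. -/
theorem exists_antisym (σ : MulAut H) (hσ : Ψ σ = neg)
    (hU : ∀ z, NN Ψ z = 1 → z ^ 7 = 1 → σ z = z) {g : H} {x y : ZMod 7}
    (hg : NN Ψ g = vec x y) (h49 : g ^ 49 = 1) :
    ∃ w, NN Ψ w = vec x y ∧ w ^ 7 = 1 ∧ σ w = w⁻¹ := by
  have hσσ := neg_sq Ψ σ hσ
  set z := g * σ g with hz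
  have hz1 : NN Ψ z = 1 := by
    rw [hz, map_mul, hg, NN_neg Ψ σ hσ hg, vec_mul, ← vec_zero]
    congr 1 <;> ring
  have hzc := central_of_NN Ψ hz1
  have hg7 : NN Ψ (g ^ 7) = 1 := pow_seven_central Ψ hg
  have hσg7 : σ (g ^ 7) = g ^ 7 := hU _ hg7 (by rw [← pow_mul]; exact h49)
  have hz7 : z ^ 7 = g ^ 14 := by
    rw [hz, mul_pow_seven Ψ hg (NN_neg Ψ σ hσ hg), ← map_pow, hσg7, ← pow_add]
  -- w' = g * z⁻⁴
  set w' := g * (z⁻¹) ^ 4 with hw'
  have hzi1 : NN Ψ ((z⁻¹) ^ 4) = 1 := by rw [map_pow, map_inv, hz1, inv_one, one_pow]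
  have hw'1 : NN Ψ w' = vec x y := by rw [hw', map_mul, hzi1, mul_one, hg]
  have hw'7 : w' ^ 7 = 1 := by
    rw [hw', Commute.mul_pow (central_of_NN Ψ hzi1 g).symm, ← pow_mul, inv_pow,
      show 4 * 7 = 7 * 4 from rfl, pow_mul, hz7, ← pow_mul]
    have : g ^ 7 * (g ^ (14 * 4))⁻¹ = (g ^ 49)⁻¹ := by
      rw [show 14 * 4 = 49 + 7 from rfl, pow_add, mul_inv_rev, mul_inv_cancel_left]
    rw [this, h49, inv_one]
  set t := w' * σ w' with ht
  have ht1 : NN Ψ t = 1 := by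
    rw [ht, map_mul, hw'1, NN_neg Ψ σ hσ hw'1, vec_mul, ← vec_zero]
    congr 1 <;> ring
  have htc := central_of_NN Ψ ht1
  have ht7 : t ^ 7 = 1 := by
    rw [ht, mul_pow_seven Ψ hw'1 (NN_neg Ψ σ hσ hw'1), ← map_pow, hw'7, map_one, mul_one]
  have hσt := hU t ht1 ht7
  have ht31 : NN Ψ (t ^ 3) = 1 := by rw [map_pow, ht1, one_pow]
  refine ⟨w' * t ^ 3, ?_, ?_, ?_⟩
  · rw [map_mul, ht31, mul_one, hw'1]
  · rw [Commute.mul_pow (central_of_NN Ψ ht31 w').symm, ← pow_mul, mul_comm 3 7, pow_mul, ht7,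
      one_pow, hw'7, mul_one]
  · rw [map_mul, map_pow, hσt, eq_inv_iff_mul_eq_one]
    have e1 : σ w' = w'⁻¹ * t := by rw [ht]; group
    rw [e1]
    calc w'⁻¹ * t * t ^ 3 * (w' * t ^ 3) = w'⁻¹ * ((t * t ^ 3) * w') * t ^ 3 := by
          simp only [mul_assoc]
      _ = w'⁻¹ * (w' * (t * t ^ 3)) * t ^ 3 := by
          rw [← pow_succ', (Commute.pow_left (htc w') _).eq]
      _ = t * t ^ 3 * t ^ 3 := by group
      _ = t ^ 7 := by rw [← pow_succ', ← pow_add]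
      _ = 1 := ht7

section caseII
variable (hall : ∀ h, ∃ x y, NN Ψ h = vec x y)

include hall in
theorem hU_caseII (hV : ∀ x y, ∃ u, NN Ψ u = vec x y) (σ : MulAut H) (hσ : Ψ σ = neg)
    (z : H) (hz : NN Ψ z = 1) (hz7 : z ^ 7 = 1) : σ z = z := by
  have hzc := central_of_NN Ψ hz
  have hzcn : ∀ (n : ℕ) x, z ^ n * x = x * z ^ n := fun n x => (Commute.pow_left (hzc x) n).eq
  have hzn : ∀ n : ℕ, NN Ψ (z ^ n) = 1 := fun n => by rw [map_pow, hz, one_pow]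
  let f : H → H := fun h => h * z ^ (NN Ψ h).u.val
  have hf : ∀ h, f h = h * z ^ (NN Ψ h).u.val := fun h => rfl
  have hNf : ∀ h, NN Ψ (f h) = NN Ψ h := fun h => by rw [hf, map_mul, hzn, mul_one]
  have hmul : ∀ h h', f (h * h') = f h * f h' := by
    intro h h'
    obtain ⟨x, y, hh⟩ := hall h
    obtain ⟨x', y', hh'⟩ := hall h'
    rw [hf, hf, hf, map_mul, hh, hh', vec_mul, vec_u, vec_u, vec_u, ZMod.val_add,
      ← pow_eq_pow_mod _ hz7, pow_add]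
    calc h * h' * (z ^ x.val * z ^ x'.val) = h * (h' * z ^ x.val) * z ^ x'.val := by
          simp only [mul_assoc]
      _ = h * (z ^ x.val * h') * z ^ x'.val := by rw [hzcn]
      _ = _ := by simp only [mul_assoc]
  have hinj : Function.Injective (MonoidHom.mk' f hmul) := by
    rw [injective_iff_map_eq_one]
    intro h hh
    change f h = 1 at hh
    have h1 := hNf h
    rw [hh, map_one] at h1
    rw [hf, ← h1] at hh
    simpa using hh
  have hsurj : Function.Surjective (MonoidHom.mk' f hmul) := by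
    intro g
    refine ⟨g * (z ^ (NN Ψ g).u.val)⁻¹, ?_⟩
    change f _ = g
    rw [hf, map_mul, map_inv, hzn, inv_one, mul_one, inv_mul_cancel_right]
  let α : MulAut H := MulEquiv.ofBijective (MonoidHom.mk' f hmul) ⟨hinj, hsurj⟩
  have hα : ∀ h, α h = f h := fun h => rfl
  obtain ⟨w, hw, -⟩ := inner_of_trivial Ψ hV α (by
    intro x y u hu
    rw [hα, hNf, hu])
  obtain ⟨h, hh⟩ := hV 1 0
  have h1 : h * z = w * h * w⁻¹ := by
    have := hα h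
    rw [hw, MulAut.conj_apply, hf, hh, vec_u] at this
    rw [this]
    have : (1 : ZMod 7).val = 1 := rfl
    rw [this, pow_one]
  have h2 : w * h = z * h * w := by
    have := congrArg (fun t => t * w) h1
    simp only [inv_mul_cancel_right] at this
    rw [← this, hzc h]
  obtain ⟨x, y, hwN⟩ := hall w
  -- σ w = w⁻¹ * z1
  have e1 : NN Ψ (σ w) = NN Ψ (w⁻¹) := by rw [NN_neg Ψ σ hσ hwN, map_inv, hwN, vec_inv]
  have e2 : NN Ψ (σ h) = NN Ψ (h⁻¹) := by rw [NN_neg Ψ σ hσ hh, map_inv, hh, vec_inv]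
  rw [NN_eq_iff] at e1 e2
  set z1 := (w⁻¹)⁻¹ * σ w with hz1
  set z2 := (h⁻¹)⁻¹ * σ h with hz2
  have e3 : σ w = z1 * w⁻¹ := by rw [e1, hz1]; group
  have e4 : σ h = z2 * h⁻¹ := by rw [e2, hz2]; group
  have h3 : z = w * h * w⁻¹ * h⁻¹ := by
    rw [h2]; group
  have h4 : σ z = w⁻¹ * h⁻¹ * w * h := by
    rw [h3, map_mul, map_mul, map_mul, map_inv, map_inv, e3, e4]
    calc z1 * w⁻¹ * (z2 * h⁻¹) * (z1 * w⁻¹)⁻¹ * (z2 * h⁻¹)⁻¹
        = z1 * (w⁻¹ * z2) * h⁻¹ * w * (z1⁻¹ * h) * z2⁻¹ := by group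
      _ = z1 * (z2 * w⁻¹) * h⁻¹ * w * (z1⁻¹ * h) * z2⁻¹ := by rw [e2 w⁻¹]
      _ = (z1 * (z2 * (w⁻¹ * h⁻¹ * w))) * z1⁻¹ * (h * z2⁻¹) := by group
      _ = ((z2 * (w⁻¹ * h⁻¹ * w)) * z1) * z1⁻¹ * (h * z2⁻¹) := by rw [e1 (z2 * _)]
      _ = z2 * (w⁻¹ * h⁻¹ * w * h) * z2⁻¹ := by group
      _ = (w⁻¹ * h⁻¹ * w * h) * z2 * z2⁻¹ := by rw [e2]
      _ = _ := by group
  rw [h4]
  have h5 : w * h = h * w * z := by rw [h2, ← hzc (h * w)]; simp only [mul_assoc]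
  calc w⁻¹ * h⁻¹ * w * h = (h * w)⁻¹ * (w * h) := by group
    _ = z := by rw [h5]; group

/-- The map `(1-ρ) g (1+ρ)`. -/
def EE (ρ g : MulAut H) (h : H) : H := g (h * ρ h) * (ρ (g (h * ρ h)))⁻¹

theorem EE_NN_one (ρ g : MulAut H) {z : H} (hz : NN Ψ z = 1) : NN Ψ (EE ρ g z) = 1 := by
  have h1 : ∀ (α : MulAut H) {z : H}, NN Ψ z = 1 → NN Ψ (α z) = 1 := by
    intro α z hz
    rw [NN_equiv, hz, mul_one, mul_inv_cancel]
  have h2 : NN Ψ (z * ρ z) = 1 := by rw [map_mul, hz, h1 ρ hz, mul_one]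
  rw [EE, map_mul, map_inv, h1 _ h2, h1 _ (h1 _ h2), inv_one, mul_one]

theorem EE_mul (ρ g : MulAut H) {z z' : H} (hz : NN Ψ z = 1) (hz' : NN Ψ z' = 1) :
    EE ρ g (z * z') = EE ρ g z * EE ρ g z' := by
  have h1 : ∀ (α : MulAut H) {z : H}, NN Ψ z = 1 → NN Ψ (α z) = 1 := by
    intro α z hz
    rw [NN_equiv, hz, mul_one, mul_inv_cancel]
  have h2 : NN Ψ (z * ρ z) = 1 := by rw [map_mul, hz, h1 ρ hz, mul_one]
  have e1 : z * z' * ρ (z * z') = (z * ρ z) * (z' * ρ z') := by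
    rw [map_mul]
    calc z * z' * (ρ z * ρ z') = z * (z' * ρ z) * ρ z' := by simp only [mul_assoc]
      _ = z * (ρ z * z') * ρ z' := by rw [central_of_NN Ψ hz']
      _ = _ := by simp only [mul_assoc]
  rw [EE, e1, map_mul g (z * ρ z) (z' * ρ z'), map_mul ρ (g (z * ρ z)), mul_inv_rev, EE, EE]
  set p := g (z * ρ z)
  set q := g (z' * ρ z')
  have hp : NN Ψ (ρ p)⁻¹ = 1 := by rw [map_inv, h1 _ (h1 _ h2), inv_one]
  calc p * q * ((ρ q)⁻¹ * (ρ p)⁻¹) = p * ((q * (ρ q)⁻¹) * (ρ p)⁻¹) := by simp only [mul_assoc]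
    _ = p * ((ρ p)⁻¹ * (q * (ρ q)⁻¹)) := by rw [central_of_NN Ψ hp]
    _ = _ := by simp only [mul_assoc]

theorem EE_EE (ρ g : MulAut H) (hρ : ∀ h, ρ (ρ h) = h) {z : H} (hz : NN Ψ z = 1) :
    EE ρ g (EE ρ g z) = 1 := by
  have h1 : ∀ (α : MulAut H) {z : H}, NN Ψ z = 1 → NN Ψ (α z) = 1 := by
    intro α z hz
    rw [NN_equiv, hz, mul_one, mul_inv_cancel]
  have h2 : NN Ψ (z * ρ z) = 1 := by rw [map_mul, hz, h1 ρ hz, mul_one]
  have h3 : EE ρ g z * ρ (EE ρ g z) = 1 := by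
    obtain ⟨p, hp⟩ : ∃ p, p = g (z * ρ z) := ⟨_, rfl⟩
    have e : EE ρ g z = p * (ρ p)⁻¹ := by rw [hp]; rfl
    rw [e, map_mul ρ, map_inv, hρ]
    group
  rw [EE, h3, map_one, map_one, inv_one, mul_one]

include hall in
theorem EE_pow (ρ g : MulAut H) (h : H) : (EE ρ g h) ^ 7 = EE ρ g (h ^ 7) := by
  have hm : ∀ a b : H, (a * b) ^ 7 = a ^ 7 * b ^ 7 := by
    intro a b
    obtain ⟨x, y, ha⟩ := hall a
    obtain ⟨x', y', hb⟩ := hall b
    exact mul_pow_seven Ψ ha hb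
  rw [EE, hm, EE, inv_pow, ← map_pow, ← map_pow, ← map_pow, hm, ← map_pow]

include hall in
theorem EE_center (hV : ∀ x y, ∃ u, NN Ψ u = vec x y) (ρ g : MulAut H)
    (hρ : ∀ h, ρ (ρ h) = h) {z : H} (hz : NN Ψ z = 1) : EE ρ g (z ^ 7) = 1 := by
  have hm : ∀ a b : H, (a * b) ^ 7 = a ^ 7 * b ^ 7 := by
    intro a b
    obtain ⟨x, y, ha⟩ := hall a
    obtain ⟨x', y', hb⟩ := hall b
    exact mul_pow_seven Ψ ha hb
  have hc7 : ∀ a : H, NN Ψ (a ^ 7) = 1 := by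
    intro a
    obtain ⟨x, y, ha⟩ := hall a
    exact pow_seven_central Ψ ha
  have hE1 : ∀ a : H, NN Ψ (EE ρ g (a ^ 7)) = 1 := fun a => EE_NN_one Ψ ρ g (hc7 a)
  have hE0 : EE ρ g 1 = 1 := by simp [EE]
  have hEpow : ∀ {z : H}, NN Ψ z = 1 → ∀ n : ℕ, EE ρ g (z ^ n) = (EE ρ g z) ^ n := by
    intro z hz n
    induction n with
    | zero => simp [hE0]
    | succ n ih =>
      rw [pow_succ, EE_mul Ψ ρ g (by rw [map_pow, hz, one_pow]) hz, ih, pow_succ]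
  have hEinv : ∀ {z : H}, NN Ψ z = 1 → EE ρ g (z⁻¹) = (EE ρ g z)⁻¹ := by
    intro z hz
    rw [eq_inv_iff_mul_eq_one, ← EE_mul Ψ ρ g (by rw [map_inv, hz, inv_one]) hz,
      inv_mul_cancel, hE0]
  let f : H → H := fun h => h * EE ρ g (h ^ 7)
  have hf : ∀ h, f h = h * EE ρ g (h ^ 7) := fun h => rfl
  have hmul : ∀ h h', f (h * h') = f h * f h' := by
    intro h h'
    rw [hf, hf, hf, hm, EE_mul Ψ ρ g (hc7 h) (hc7 h')]
    calc h * h' * (EE ρ g (h ^ 7) * EE ρ g (h' ^ 7))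
        = h * (h' * EE ρ g (h ^ 7)) * EE ρ g (h' ^ 7) := by simp only [mul_assoc]
      _ = h * (EE ρ g (h ^ 7) * h') * EE ρ g (h' ^ 7) := by
          rw [central_of_NN Ψ (hE1 h) h']
      _ = _ := by simp only [mul_assoc]
  have hNf : ∀ h, NN Ψ (f h) = NN Ψ h := fun h => by rw [hf, map_mul, hE1, mul_one]
  have hinj : Function.Injective (MonoidHom.mk' f hmul) := by
    rw [injective_iff_map_eq_one]
    intro h hh
    change f h = 1 at hh
    rw [hf] at hh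
    have h1 : h = (EE ρ g (h ^ 7))⁻¹ := eq_inv_of_mul_eq_one_left hh
    have h2 : NN Ψ h = 1 := by rw [h1, map_inv, hE1, inv_one]
    have h3 : EE ρ g h = 1 := by
      rw [h1, hEinv (hE1 h), EE_EE Ψ ρ g hρ (hc7 h), inv_one]
    rw [h1, hEpow h2, h3, one_pow, inv_one]
  have hsurj : Function.Surjective (MonoidHom.mk' f hmul) := by
    intro a
    refine ⟨a * (EE ρ g (a ^ 7))⁻¹, ?_⟩
    change f _ = a
    have hi1 : NN Ψ (EE ρ g (a ^ 7))⁻¹ = 1 := by rw [map_inv, hE1, inv_one]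
    have h1 : EE ρ g ((a * (EE ρ g (a ^ 7))⁻¹) ^ 7) = EE ρ g (a ^ 7) := by
      rw [hm, EE_mul Ψ ρ g (hc7 a) (hc7 _), hEpow hi1, hEinv (hE1 a),
        EE_EE Ψ ρ g hρ (hc7 a), inv_one, one_pow, mul_one]
    rw [hf, h1, inv_mul_cancel_right]
  let α : MulAut H := MulEquiv.ofBijective (MonoidHom.mk' f hmul) ⟨hinj, hsurj⟩
  have hα : ∀ h, α h = f h := fun h => rfl
  have h1 := star Ψ hV α (by
    intro x y u hu
    rw [hα, hNf, hu]) z hz
  rw [hα, hf, mul_eq_left] at h1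
  exact h1

include hall in
theorem exists_49 (hV : ∀ x y, ∃ u, NN Ψ u = vec x y) (x y : ZMod 7) :
    ∃ g, NN Ψ g = vec x y ∧ g ^ 49 = 1 := by
  have hm : ∀ a b : H, (a * b) ^ 7 = a ^ 7 * b ^ 7 := by
    intro a b
    obtain ⟨x, y, ha⟩ := hall a
    obtain ⟨x', y', hb⟩ := hall b
    exact mul_pow_seven Ψ ha hb
  have hm49 : ∀ a b : H, (a * b) ^ 49 = a ^ 49 * b ^ 49 := by
    intro a b
    have : ∀ c : H, c ^ 49 = (c ^ 7) ^ 7 := fun c => by rw [← pow_mul]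
    rw [this, this, this, hm, hm]
  obtain ⟨ρ, hρ⟩ := Ψ.surjective (lin 1 0 0 (-1) (by decide))
  obtain ⟨g, hg⟩ := Ψ.surjective (lin 0 1 1 0 (by decide))
  have hρρ : ∀ h, ρ (ρ h) = h := by
    intro h
    have : ρ * ρ = 1 := by
      apply Ψ.injective
      rw [map_mul, hρ, map_one]
      decide
    rw [← MulAut.mul_apply, this, MulAut.one_apply]
  obtain ⟨u, hu⟩ := hV 1 0
  have e1 : NN Ψ (ρ u) = vec 1 0 := by
    rw [NN_equiv, hρ, hu, conj_vec]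
    congr 1
  have e2 : NN Ψ (g (u * ρ u)) = vec 0 2 := by
    rw [NN_equiv, hg, map_mul, hu, e1, vec_mul, conj_vec]
    congr 1
  have e3 : NN Ψ (ρ (g (u * ρ u))) = vec 0 (-2) := by
    rw [NN_equiv, hρ, e2, conj_vec]
    congr 1
  have e4 : NN Ψ (EE ρ g u) = vec 0 4 := by
    rw [EE, map_mul, map_inv, e3, e2, vec_inv, vec_mul]
    congr 1
  have e5 : (EE ρ g u) ^ 49 = 1 := by
    have : (EE ρ g u) ^ 49 = ((EE ρ g u) ^ 7) ^ 7 := by rw [← pow_mul]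
    rw [this, EE_pow Ψ hall, EE_pow Ψ hall]
    exact EE_center Ψ hall hV ρ g hρρ (pow_seven_central Ψ hu)
  let K0 : Subgroup H :=
    { carrier := {h | h ^ 49 = 1}
      mul_mem' := by
        intro a b ha hb
        change (a * b) ^ 49 = 1
        rw [hm49, ha, hb, mul_one]
      one_mem' := one_pow _
      inv_mem' := by
        intro a ha
        change (a⁻¹) ^ 49 = 1
        rw [inv_pow, ha, inv_one] }
  let K : Subgroup A7 := K0.map (NN Ψ)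
  have hK : K.Normal := by
    constructor
    rintro _ ⟨h, hh, rfl⟩ p
    obtain ⟨α, rfl⟩ := Ψ.surjective p
    refine ⟨α h, ?_, NN_equiv Ψ α h⟩
    change (α h) ^ 49 = 1
    rw [← map_pow, show h ^ 49 = 1 from hh, map_one]
  have h04 : vec 0 4 ∈ K := ⟨EE ρ g u, e5, e4⟩
  obtain ⟨h, hh, hh2⟩ := vec_mem_of_one K hK 0 4 (by decide) h04 x y
  exact ⟨h, hh2, hh⟩

include hall in
theorem caseII_absurd (hV : ∀ x y, ∃ u, NN Ψ u = vec x y) : False := by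
  obtain ⟨σ, hσ⟩ := Ψ.surjective neg
  have hU := hU_caseII Ψ hall hV σ hσ
  have hC : ∀ c, (NN Ψ c).u = 0 → (NN Ψ c).v = 0 → NN Ψ c = 1 := by
    intro c h1 h2
    obtain ⟨x, y, hc⟩ := hall c
    rw [hc] at h1 h2 ⊢
    rw [vec_u] at h1
    rw [vec_v] at h2
    rw [h1, h2, vec_zero]
  refine absurd_of_data Ψ hV σ hσ ?_ hU 1 (by norm_num)
    (fun h => if NN Ψ h = 1 then h else 1) ?_ ?_ ?_
  · intro x y
    obtain ⟨g, hg, hg49⟩ := exists_49 Ψ hall hV x y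
    exact exists_antisym Ψ σ hσ hU hg hg49
  · intro c
    beta_reduce
    split_ifs with h
    · exact h
    · exact map_one _
  · intro c c' h1 h2 h3 h4
    have e1 := hC c h1 h2
    have e2 := hC c' h3 h4
    simp [e1, e2]
  · intro z hz
    simp [hz]

end caseII

end Pool.Agent.Helper671
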