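import Pool.Agent.Helper671.Disc5

set_option autoImplicit false
set_option linter.unusedSimpArgs false
set_option linter.style.haveILetI false

namespace Pool.Agent.Helper671

open A7
open scoped IsMulCommutative

/-- The linear subgroup. -/
def Lin : Subgroup A7 where
  carrier := {p | p.u = 0 ∧ p.v = 0}
  mul_mem' := by
    rintro p q ⟨h1, h2⟩ ⟨h3, h4⟩
    constructor
    · rw [mul_u, h1, h3, h4]; ring
    · rw [mul_v, h2, h3, h4]; ring
  one_mem' := ⟨rfl, rfl⟩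
  inv_mem' := by
    rintro p ⟨h1, h2⟩
    constructor
    · rw [inv_u, h1, h2]; ring
    · rw [inv_v, h1, h2]; ring

theorem mem_Lin (p : A7) : p ∈ Lin ↔ p.u = 0 ∧ p.v = 0 := Iff.rfl

/-- The unipotent subgroup. -/
def Uni : Subgroup A7 where
  carrier := {p | p.u = 0 ∧ p.v = 0 ∧ p.a = 1 ∧ p.c = 0 ∧ p.d = 1}
  mul_mem' := by
    rintro p q ⟨h1, h2, h3, h4, h5⟩ ⟨h1', h2', h3', h4', h5'⟩
    refine ⟨?_, ?_, ?_, ?_, ?_⟩
    · rw [mul_u, h1, h1', h2']; ring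
    · rw [mul_v, h2, h1', h2']; ring
    · rw [mul_a, h3, h3', h4']; ring
    · rw [mul_c, h4, h5, h4']; ring
    · rw [mul_d, h4, h5, h5']; ring
  one_mem' := ⟨rfl, rfl, rfl, rfl, rfl⟩
  inv_mem' := by
    rintro p ⟨h1, h2, h3, h4, h5⟩
    refine ⟨?_, ?_, ?_, ?_, ?_⟩
    · rw [inv_u, h1, h2]; ring
    · rw [inv_v, h1, h2]; ring
    · rw [inv_a, h3, h4, h5]; ring
    · rw [inv_c, h4]; ring
    · rw [inv_d, h3, h4, h5]; ring

theorem Uni_le_Lin : Uni ≤ Lin := fun _ h => ⟨h.1, h.2.1⟩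

theorem cardL4 : Fintype.card {q : ZMod 7 × ZMod 7 × ZMod 7 × ZMod 7 //
    (q.1 * q.2.2.2 - q.2.1 * q.2.2.1) ^ 2 = 1} = 672 := by
  decide +kernel

theorem card_Lin : Nat.card Lin = 672 := by
  rw [← cardL4, ← Nat.card_eq_fintype_card]
  refine Nat.card_congr
    { toFun := fun p => ⟨(p.1.a, p.1.b, p.1.c, p.1.d), p.1.h⟩
      invFun := fun q => ⟨lin q.1.1 q.1.2.1 q.1.2.2.1 q.1.2.2.2 q.2, rfl, rfl⟩
      left_inv := ?_
      right_inv := ?_ }
  · rintro ⟨p, h1, h2⟩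
    apply Subtype.ext
    ext
    · exact h1.symm
    · exact h2.symm
    all_goals rfl
  · rintro ⟨⟨a, b, c, d⟩, h⟩
    rfl

theorem card_Uni : Nat.card Uni = 7 := by
  have h : Nat.card (ZMod 7) = 7 := by simp
  rw [← h]
  refine Nat.card_congr
    { toFun := fun p => p.1.b
      invFun := fun b => ⟨lin 1 b 0 1 (by ring), rfl, rfl, rfl, rfl, rfl⟩
      left_inv := ?_
      right_inv := ?_ }
  · rintro ⟨p, h1, h2, h3, h4, h5⟩
    apply Subtype.ext
    ext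
    · exact h1.symm
    · exact h2.symm
    · exact h3.symm
    · rfl
    · exact h4.symm
    · exact h5.symm
  · intro b
    rfl

theorem relIndex_Uni {K : Subgroup A7} (h1 : Uni ≤ K) (h2 : K ≤ Lin) :
    ¬ 7 ∣ Uni.relIndex K ∧ Uni.relIndex K ≠ 0 := by
  have e1 : Nat.card Uni * Uni.relIndex K = Nat.card K := by
    rw [← Subgroup.relIndex_bot_left, Subgroup.relIndex_mul_relIndex _ _ _ bot_le h1,
      Subgroup.relIndex_bot_left]
  have e2 : Nat.card K ∣ 672 := by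
    rw [← card_Lin]
    exact Subgroup.card_dvd_of_le h2
  rw [card_Uni] at e1
  rw [← e1] at e2
  constructor
  · rintro ⟨k, hk⟩
    rw [hk, ← mul_assoc] at e2
    have : 7 * 7 ∣ 672 := (Dvd.intro _ rfl).trans e2
    revert this
    decide
  · intro h0
    rw [h0, mul_zero] at e2
    revert e2
    decide

theorem lin_eq_neg {p : A7} (hp : p ∈ Lin) (hc : p.c = 0) (hb : p.b = 0) (had : p.a = p.d)
    (h1 : p ≠ 1) : p = neg := by
  have ha : p.a = 1 ∨ p.a = 6 := by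
    have := p.h
    rw [hc, hb, ← had] at this
    revert this
    generalize p.a = x
    revert x
    decide
  rcases ha with ha | ha
  · exfalso
    apply h1
    ext
    · exact hp.1
    · exact hp.2
    · exact ha
    · exact hb
    · exact hc
    · rw [← had]; exact ha
  · ext
    · exact hp.1
    · exact hp.2
    · exact ha
    · exact hb
    · exact hc
    · rw [← had]; exact ha

variable {H : Type*} [Group H] (Ψ : MulAut H ≃* A7)

/-- sub-case Ia -/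
theorem l0_caseIa (s : H) (hs : NN Ψ s = neg)
    (h : ∀ c, NN Ψ c ∈ Lin → NN Ψ c = 1 ∨ NN Ψ c = neg) :
    ∃ l₀ : H → H, (∀ c, NN Ψ (l₀ c) = 1) ∧
    (∀ c c', (NN Ψ c).u = 0 → (NN Ψ c).v = 0 → (NN Ψ c').u = 0 → (NN Ψ c').v = 0 →
      l₀ (c * c') = l₀ c * l₀ c') ∧ (∀ z, NN Ψ z = 1 → l₀ z = z ^ 2) := by
  classical
  refine ⟨fun c => if NN Ψ c ∈ Lin then c ^ 2 else 1, ?_, ?_, ?_⟩
  · intro c
    beta_reduce
    split_ifs with hc
    · rcases h c hc with h1 | h1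
      · rw [map_pow, h1, one_pow]
      · rw [map_pow, h1]; decide
    · exact map_one _
  · intro c c' h1 h2 h3 h4
    have e1 : NN Ψ c ∈ Lin := ⟨h1, h2⟩
    have e2 : NN Ψ c' ∈ Lin := ⟨h3, h4⟩
    have e3 : NN Ψ (c * c') ∈ Lin := by rw [map_mul]; exact Lin.mul_mem e1 e2
    simp only [e1, e2, e3, if_true]
    have hcomm : Commute c c' := by
      have key : ∀ g, NN Ψ g = 1 ∨ NN Ψ g = neg → NN Ψ g = 1 ∨ (∀ x, (s⁻¹ * g) * x = x * (s⁻¹ * g)) := by
        intro g hg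
        rcases hg with hg | hg
        · exact Or.inl hg
        · right
          rw [← NN_eq_iff Ψ]
          rw [hg, hs]
      rcases key c (h c e1) with k1 | k1
      · exact central_of_NN Ψ k1 c'
      · rcases key c' (h c' e2) with k2 | k2
        · exact (central_of_NN Ψ k2 c).symm
        · set z := s⁻¹ * c with hz
          set z' := s⁻¹ * c' with hz'
          have f1 : c = s * z := by rw [hz]; group
          have f2 : c' = s * z' := by rw [hz']; group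
          rw [f1, f2]
          exact Commute.mul_right (Commute.mul_left (Commute.refl s) (k1 s)) (k2 (s * z)).symm
    exact hcomm.mul_pow 2
  · intro z hz
    have : NN Ψ z ∈ Lin := by rw [hz]; exact Lin.one_mem
    simp [this]

/-- sub-case Ib -/
theorem l0_caseIb (τ d : H) (hτ : NN Ψ τ = lin 1 1 0 1 (by decide))
    (hd : NN Ψ d = lin 3 0 0 5 (by decide)) :
    ∃ i : ℕ, ¬ 7 ∣ i ∧ ∃ l₀ : H → H, (∀ c, NN Ψ (l₀ c) = 1) ∧
    (∀ c c', (NN Ψ c).u = 0 → (NN Ψ c).v = 0 → (NN Ψ c').u = 0 → (NN Ψ c').v = 0 →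
      l₀ (c * c') = l₀ c * l₀ c') ∧ (∀ z, NN Ψ z = 1 → l₀ z = z ^ i) := by
  classical
  -- the groups
  set C : Subgroup H := Lin.comap (NN Ψ) with hC
  set S : Subgroup H := Uni.comap (NN Ψ) with hS
  have hSC : S ≤ C := Subgroup.comap_mono Uni_le_Lin
  -- powers of τ
  have hτn : ∀ n : ℕ, NN Ψ (τ ^ n) = lin 1 n 0 1 (by ring) := by
    intro n
    induction n with
    | zero =>
      rw [pow_zero, map_one]
      ext <;> simp
    | succ n ih =>
      rw [pow_succ, map_mul, ih, hτ]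
      ext <;> simp
      ring
  -- S is abelian
  have hSform : ∀ s ∈ S, ∀ x, ((τ ^ (NN Ψ s).b.val)⁻¹ * s) * x =
      x * ((τ ^ (NN Ψ s).b.val)⁻¹ * s) := by
    intro s hs
    rw [← NN_eq_iff Ψ, hτn]
    obtain ⟨h1, h2, h3, h4, h5⟩ := hs
    ext
    · exact h1
    · exact h2
    · exact h3
    · simp
    · exact h4
    · exact h5
  have hScomm : ∀ s ∈ S, ∀ s' ∈ S, Commute s s' := by
    intro s hs s' hs'
    have k1 := hSform s hs
    have k2 := hSform s' hs'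
    set z := (τ ^ (NN Ψ s).b.val)⁻¹ * s with hz
    set z' := (τ ^ (NN Ψ s').b.val)⁻¹ * s' with hz'
    have f1 : s = τ ^ (NN Ψ s).b.val * z := by rw [hz]; group
    have f2 : s' = τ ^ (NN Ψ s').b.val * z' := by rw [hz']; group
    rw [f1, f2]
    exact Commute.mul_right (Commute.mul_left ((Commute.refl τ).pow_pow _ _) (k1 _)) (k2 _).symm
  -- d normalises S
  have hdS : ∀ s ∈ S, d * s * d⁻¹ ∈ S ∧ NN Ψ (d * s * d⁻¹) = NN Ψ (s ^ 2) := by
    intro s hs
    have h00 : NN Ψ (s ^ 2) = NN Ψ s * NN Ψ s := by rw [pow_two, map_mul]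
    have h0 : NN Ψ (d * s * d⁻¹) = NN Ψ (s ^ 2) := by
      rw [map_mul, map_mul, map_inv, hd, mul_inv_eq_iff_eq_mul, h00]
      obtain ⟨h1, h2, h3, h4, h5⟩ := hs
      ext
      · simp only [mul_u, mul_v, mul_a, mul_b, mul_c, mul_d, lin_u, lin_v, lin_a, lin_b, lin_c,
          lin_d, h1, h2, h3, h4, h5]; ring
      · simp only [mul_u, mul_v, mul_a, mul_b, mul_c, mul_d, lin_u, lin_v, lin_a, lin_b, lin_c,
          lin_d, h1, h2, h3, h4, h5]; ring
      · simp only [mul_u, mul_v, mul_a, mul_b, mul_c, mul_d, lin_u, lin_v, lin_a, lin_b, lin_c,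
          lin_d, h1, h2, h3, h4, h5]; ring
      · simp only [mul_u, mul_v, mul_a, mul_b, mul_c, mul_d, lin_u, lin_v, lin_a, lin_b, lin_c,
          lin_d, h1, h2, h3, h4, h5]
        have : (7 : ZMod 7) = 0 := by decide
        linear_combination (-(NN Ψ s).b) * this
      · simp only [mul_u, mul_v, mul_a, mul_b, mul_c, mul_d, lin_u, lin_v, lin_a, lin_b, lin_c,
          lin_d, h1, h2, h3, h4, h5]; ring
      · simp only [mul_u, mul_v, mul_a, mul_b, mul_c, mul_d, lin_u, lin_v, lin_a, lin_b, lin_c,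
          lin_d, h1, h2, h3, h4, h5]; ring
    refine ⟨?_, h0⟩
    change NN Ψ (d * s * d⁻¹) ∈ Uni
    rw [h0]
    exact S.pow_mem hs 2
  -- the retraction ζ
  let ζ₀ : H → H := fun s => s ^ 2 * (d * s * d⁻¹)⁻¹
  have hζ1 : ∀ s ∈ S, ζ₀ s ∈ Subgroup.center H := by
    intro s hs
    rw [mem_center_iff_NN Ψ]
    change NN Ψ (s ^ 2 * (d * s * d⁻¹)⁻¹) = 1
    rw [map_mul, map_inv, (hdS s hs).2, mul_inv_cancel]
  have hζmul : ∀ s ∈ S, ∀ s' ∈ S, ζ₀ (s * s') = ζ₀ s * ζ₀ s' := by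
    intro s hs s' hs'
    change (s * s') ^ 2 * (d * (s * s') * d⁻¹)⁻¹ =
      s ^ 2 * (d * s * d⁻¹)⁻¹ * (s' ^ 2 * (d * s' * d⁻¹)⁻¹)
    rw [(hScomm s hs s' hs').mul_pow]
    obtain ⟨p, hp⟩ : ∃ p, p = d * s * d⁻¹ := ⟨_, rfl⟩
    obtain ⟨q, hq⟩ : ∃ q, q = d * s' * d⁻¹ := ⟨_, rfl⟩
    have hpS : p ∈ S := by rw [hp]; exact (hdS s hs).1
    have hqS : q ∈ S := by rw [hq]; exact (hdS s' hs').1
    have e1 : d * (s * s') * d⁻¹ = p * q := by rw [hp, hq]; group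
    rw [e1, ← hp, ← hq, (hScomm p hpS q hqS).eq, mul_inv_rev]
    have e2 : s' ^ 2 * p⁻¹ = p⁻¹ * s' ^ 2 :=
      (hScomm _ (S.pow_mem hs' 2) _ (S.inv_mem hpS)).eq
    calc s ^ 2 * s' ^ 2 * (p⁻¹ * q⁻¹) = s ^ 2 * (s' ^ 2 * p⁻¹) * q⁻¹ := by
          simp only [mul_assoc]
      _ = s ^ 2 * (p⁻¹ * s' ^ 2) * q⁻¹ := by rw [e2]
      _ = _ := by simp only [mul_assoc]
  have hζz : ∀ z, NN Ψ z = 1 → ζ₀ z = z := by
    intro z hz
    change z ^ 2 * (d * z * d⁻¹)⁻¹ = z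
    have : d * z * d⁻¹ = z := by rw [← central_of_NN Ψ hz, mul_inv_cancel_right]
    rw [this, pow_two, mul_inv_cancel_right]
  -- as a hom on S.subgroupOf C
  let S' : Subgroup C := S.subgroupOf C
  have hS' : ∀ s : S', ((s : C) : H) ∈ S := fun s => Subgroup.mem_subgroupOf.1 s.2
  let ζ : S' →* Subgroup.center H := MonoidHom.mk' (fun s => ⟨ζ₀ s, hζ1 _ (hS' s)⟩) (by
    intro s s'
    apply Subtype.ext
    exact hζmul _ (hS' s) _ (hS' s'))
  -- index
  have hUr : Uni ≤ Lin ⊓ (NN Ψ).range := by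
    intro p hp
    refine ⟨Uni_le_Lin hp, τ ^ p.b.val, ?_⟩
    rw [hτn]
    obtain ⟨h1, h2, h3, h4, h5⟩ := hp
    ext
    · exact h1.symm
    · exact h2.symm
    · exact h3.symm
    · simp
    · exact h4.symm
    · exact h5.symm
  have hidx : S'.index = Uni.relIndex (Lin ⊓ (NN Ψ).range) := by
    change S.relIndex C = _
    rw [hS, Subgroup.relIndex_comap, hC, Subgroup.map_comap_eq, inf_comm]
  obtain ⟨hi1, hi2⟩ := relIndex_Uni hUr inf_le_left
  rw [← hidx] at hi1 hi2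
  haveI : S'.FiniteIndex := ⟨hi2⟩
  let T : C →* Subgroup.center H := MonoidHom.transfer ζ
  have hzC : ∀ z, NN Ψ z = 1 → z ∈ C := by
    intro z hz
    change NN Ψ z ∈ Lin
    rw [hz]
    exact Lin.one_mem
  have hT : ∀ z (hz : NN Ψ z = 1), (T ⟨z, hzC z hz⟩ : H) = z ^ S'.index := by
    intro z hz
    have key : ∀ (k : ℕ) (g₀ : C), g₀⁻¹ * (⟨z, hzC z hz⟩ : C) ^ k * g₀ ∈ S' →
        g₀⁻¹ * (⟨z, hzC z hz⟩ : C) ^ k * g₀ = (⟨z, hzC z hz⟩ : C) ^ k := by
      intro k g₀ _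
      apply Subtype.ext
      change (g₀ : H)⁻¹ * z ^ k * g₀ = z ^ k
      have hzk : NN Ψ (z ^ k) = 1 := by rw [map_pow, hz, one_pow]
      rw [← central_of_NN Ψ hzk, mul_assoc, inv_mul_cancel, mul_one]
    change (MonoidHom.transfer ζ ⟨z, hzC z hz⟩ : H) = _
    rw [MonoidHom.transfer_eq_pow ζ _ key]
    change ζ₀ (z ^ S'.index) = _
    rw [hζz]
    rw [map_pow, hz, one_pow]
  refine ⟨S'.index, hi1, fun c => if h : c ∈ C then (T ⟨c, h⟩ : H) else 1, ?_, ?_, ?_⟩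
  · intro c
    beta_reduce
    split_ifs with hc
    · exact (mem_center_iff_NN Ψ _).1 (T ⟨c, hc⟩).2
    · exact map_one _
  · intro c c' h1 h2 h3 h4
    have e1 : c ∈ C := ⟨h1, h2⟩
    have e2 : c' ∈ C := ⟨h3, h4⟩
    have e3 : c * c' ∈ C := C.mul_mem e1 e2
    simp only [e1, e2, e3, dif_pos]
    rw [← Subgroup.coe_mul, ← map_mul]
    rfl
  · intro z hz
    simp only [hzC z hz, dif_pos]
    exact hT z hz

theorem caseI_absurd (hV : ∀ x y, ∃ u, NN Ψ u = vec x y) (s : H) (hs : NN Ψ s = neg) :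
    False := by
  have hσ : Ψ (MulAut.conj s) = neg := hs
  have hU : ∀ z, NN Ψ z = 1 → MulAut.conj s z = z := by
    intro z hz
    rw [MulAut.conj_apply, ← central_of_NN Ψ hz, mul_inv_cancel_right]
  have hE : ∀ x y, ∃ g, NN Ψ g = vec x y ∧ g ^ 7 = 1 ∧ MulAut.conj s g = g⁻¹ := by
    intro x y
    set σ := MulAut.conj s with hσdef
    have hσσ := neg_sq Ψ σ hσ
    obtain ⟨u, hu⟩ := hV (4 * x) (4 * y)
    set w' := u * (σ u)⁻¹ with hw'
    have h1 : NN Ψ w' = vec x y := by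
      rw [hw', map_mul, map_inv, NN_neg Ψ σ hσ hu, hu, vec_inv, vec_mul]
      have : (7 : ZMod 7) = 0 := by decide
      congr 1
      · linear_combination x * this
      · linear_combination y * this
    have h2 : σ w' = w'⁻¹ := by
      rw [hw', map_mul, map_inv, hσσ]
      group
    have h3 : w' ^ 14 = 1 := by
      have e1 := hU (w' ^ 7) (pow_seven_central Ψ h1)
      rw [map_pow, h2] at e1
      calc w' ^ 14 = w' ^ 7 * w' ^ 7 := by rw [← pow_add]
        _ = w' ^ 7 * (w'⁻¹) ^ 7 := by rw [e1]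
        _ = 1 := by rw [← mul_pow_seven Ψ h1 (show NN Ψ w'⁻¹ = vec (-x) (-y) by
              rw [map_inv, h1, vec_inv]), mul_inv_cancel, one_pow]
    refine ⟨w' ^ 8, ?_, ?_, ?_⟩
    · rw [pow_succ, map_mul, pow_seven_central Ψ h1, one_mul, h1]
    · rw [← pow_mul, show 8 * 7 = 14 * 4 from rfl, pow_mul, h3, one_pow]
    · rw [map_pow, h2, inv_pow]
  have hK := range_normal Ψ
  have hVr : ∀ x y, vec x y ∈ (NN Ψ).range := fun x y => hV x y
  by_cases h : ∀ c, NN Ψ c ∈ Lin → NN Ψ c = 1 ∨ NN Ψ c = neg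
  · obtain ⟨l₀, h1, h2, h3⟩ := l0_caseIa Ψ s hs h
    exact absurd_of_data Ψ hV _ hσ hE (fun z hz _ => hU z hz) 2 (by decide) l₀ h1 h2 h3
  · push Not at h
    obtain ⟨c, hcL, hc1, hc2⟩ := h
    have hns : (NN Ψ c).c ≠ 0 ∨ (NN Ψ c).b ≠ 0 ∨ (NN Ψ c).a ≠ (NN Ψ c).d := by
      by_contra hcon
      push Not at hcon
      exact hc2 (lin_eq_neg hcL hcon.1 hcon.2.1 hcon.2.2 hc1)
    have hx := nonscalar_mem _ hK hVr (NN Ψ c) ⟨c, rfl⟩ hns (by decide)
    have hdg := diag_of_x1 _ hK (by decide) hx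
    obtain ⟨τ, hτ⟩ := hx
    obtain ⟨d, hd⟩ := hdg
    obtain ⟨i, hi, l₀, h1, h2, h3⟩ := l0_caseIb Ψ τ d hτ hd
    exact absurd_of_data Ψ hV _ hσ hE (fun z hz _ => hU z hz) i hi l₀ h1 h2 h3

end Pool.Agent.Helper671
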