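import Pool.Agent.Helper671.Disc6
import Pool.Agent.Helper671.A7NoAb

set_option autoImplicit false

namespace Pool.Agent.Helper671

open A7

/-- `A7` is not the automorphism group of any (discrete) group. -/
theorem no_discrete (H : Type*) [Group H] (Ψ : MulAut H ≃* A7) : False := by
  by_cases hne : ∃ h, NN Ψ h ≠ 1
  · have hV := vec_mem_range Ψ hne
    by_cases hneg : ∃ s, NN Ψ s = neg
    · obtain ⟨s, hs⟩ := hneg
      exact caseI_absurd Ψ hV s hs
    · refine caseII_absurd Ψ ?_ hV
      intro h
      refine ⟨(NN Ψ h).u, (NN Ψ h).v, ?_⟩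
      by_cases hl : (NN Ψ h).a = 1 ∧ (NN Ψ h).b = 0 ∧ (NN Ψ h).c = 0 ∧ (NN Ψ h).d = 1
      · obtain ⟨h1, h2, h3, h4⟩ := hl
        ext
        · rfl
        · rfl
        · exact h1
        · exact h2
        · exact h3
        · exact h4
      · exfalso
        apply hneg
        exact neg_mem _ (range_normal Ψ) (fun x y => hV x y) _ ⟨h, rfl⟩ hl
  · push Not at hne
    let _ : CommGroup H := { (inferInstance : Group H) with
      mul_comm := fun a b => (NN_eq_one_iff Ψ a).1 (hne a) b }
    exact no_abelian H Ψ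

end Pool.Agent.Helper671
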