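import Pool.Agent.Helper671.A7

/-! The group `A7` is the group of topological automorphisms of a compact group
(proof by helper673). -/

set_option autoImplicit false

namespace Pool.Agent.Helper671




section circle
open MeasureTheory AddCircle

theorem fourier_add_arg {T : ℝ} (n : ℤ) (x y : AddCircle T) :
    fourier n (x + y) = fourier n x * fourier n y := by
  simp only [fourier_apply, smul_add, toCircle_add, Circle.coe_mul]

/-- Continuous characters of the circle are powers. -/
theorem circle_char (k : Circle →* Circle) (hk : Continuous k) : ∃ n : ℤ, ∀ z, k z = z ^ n := by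
  have : Fact ((0 : ℝ) < 1) := ⟨one_pos⟩
  let f : C(AddCircle (1 : ℝ), ℂ) :=
    ⟨fun x => (k (toCircle x) : ℂ), by
      exact continuous_subtype_val.comp (hk.comp AddCircle.continuous_toCircle)⟩
  have hf : ∀ x, f x = (k (toCircle x) : ℂ) := fun x => rfl
  have hadd : ∀ x y, f (x + y) = f x * f y := by
    intro x y
    rw [hf, hf, hf, toCircle_add, map_mul, Circle.coe_mul]
  have hnorm : ∀ x, ‖f x‖ = 1 := fun x => by rw [hf]; exact Circle.norm_coe _
  have hex : ∃ n : ℤ, fourierCoeff f n ≠ 0 := by
    by_contra hcon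
    push Not at hcon
    have h1 := tsum_sq_fourierCoeff (ContinuousMap.toLp (E := ℂ) 2 haarAddCircle ℂ f)
    have h2 : ∀ n : ℤ, fourierCoeff (ContinuousMap.toLp (E := ℂ) 2 haarAddCircle ℂ f) n = 0 :=
      fun n => by rw [fourierCoeff_toLp]; exact hcon n
    simp only [h2, norm_zero, ne_eq, OfNat.ofNat_ne_zero, not_false_eq_true, zero_pow,
      tsum_zero] at h1
    have h3 : ∫ t, ‖(ContinuousMap.toLp (E := ℂ) 2 haarAddCircle ℂ f) t‖ ^ 2
        ∂(haarAddCircle : Measure (AddCircle (1 : ℝ))) = 1 := by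
      have h4 : (fun t => ‖(ContinuousMap.toLp (E := ℂ) 2 haarAddCircle ℂ f) t‖ ^ 2)
          =ᵐ[haarAddCircle] fun _ => (1 : ℝ) := by
        filter_upwards [ContinuousMap.coeFn_toLp (E := ℂ) (p := 2) (𝕜 := ℂ) haarAddCircle f]
          with t ht
        rw [ht, hnorm]; norm_num
      rw [integral_congr_ae h4]; simp
    rw [h3] at h1
    exact zero_ne_one h1
  obtain ⟨n, hn⟩ := hex
  refine ⟨n, ?_⟩
  have key : ∀ y, f y = fourier n y := by
    intro y
    have h1 : fourierCoeff f n = (fourier (-n) y * f y) * fourierCoeff f n := by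
      unfold fourierCoeff
      calc ∫ t, fourier (-n) t • f t ∂haarAddCircle
          = ∫ t, fourier (-n) (t + y) • f (t + y) ∂haarAddCircle :=
            (integral_add_right_eq_self (fun t => fourier (-n) t • f t) y).symm
        _ = ∫ t, (fourier (-n) y * f y) * (fourier (-n) t • f t) ∂haarAddCircle := by
            congr 1; ext t
            rw [fourier_add_arg, hadd]
            simp only [smul_eq_mul]; ring
        _ = (fourier (-n) y * f y) * ∫ t, fourier (-n) t • f t ∂haarAddCircle :=
            integral_const_mul _ _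
    have h2 : fourier (-n) y * f y = 1 := by
      have h3 : (fourier (-n) y * f y - 1) * fourierCoeff f n = 0 := by
        rw [sub_mul, one_mul, ← h1, sub_self]
      rcases mul_eq_zero.1 h3 with h | h
      · exact sub_eq_zero.1 h
      · exact absurd h hn
    have h4 : fourier n y * fourier (-n) y = (1 : ℂ) := by
      rw [← fourier_add, add_neg_cancel, fourier_zero]
    calc f y = (fourier n y * fourier (-n) y) * f y := by rw [h4, one_mul]
      _ = fourier n y * (fourier (-n) y * f y) := by ring
      _ = fourier n y := by rw [h2, mul_one]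
  intro z
  obtain ⟨x, rfl⟩ : ∃ x : AddCircle (1 : ℝ), toCircle x = z :=
    ⟨(AddCircle.homeomorphCircle one_ne_zero).symm z, by
      have := (AddCircle.homeomorphCircle (T := 1) one_ne_zero).apply_symm_apply z
      rwa [AddCircle.homeomorphCircle_apply] at this⟩
  have h5 := key x
  rw [hf, fourier_apply] at h5
  have h6 := Circle.coe_injective h5
  rw [h6]
  exact toCircle_zsmul _ _

theorem circle_aut (k : Circle →* Circle) (hk : Continuous k) (hinj : Function.Injective k) :
    (∀ z, k z = z) ∨ ∀ z, k z = z⁻¹ := by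
  obtain ⟨n, hn⟩ := circle_char k hk
  have h1 : n = 1 ∨ n = -1 := by
    by_contra hcon
    push Not at hcon
    -- element of order |n|
    rcases eq_or_ne n 0 with h0 | h0
    · have : k (-1) = k 1 := by rw [hn, hn, h0]; simp
      have := hinj this
      have h2 := congrArg (fun z : Circle => (z : ℂ)) this
      norm_num at h2
    · have hN : 1 < n.natAbs := by omega
      have hN0 : n.natAbs ≠ 0 := by omega
      have : NeZero n.natAbs := ⟨hN0⟩
      let z : Circle := ZMod.toCircle (1 : ZMod n.natAbs)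
      have hz : z ^ n.natAbs = 1 := by
        show ZMod.toCircle (1 : ZMod n.natAbs) ^ n.natAbs = 1
        rw [← AddChar.map_nsmul_eq_pow]
        simp
      have hz1 : z ≠ 1 := by
        intro h
        have h3 : ZMod.toCircle (1 : ZMod n.natAbs) = ZMod.toCircle (0 : ZMod n.natAbs) := by
          rw [AddChar.map_zero_eq_one]; exact h
        have h4 := ZMod.injective_toCircle h3
        have : Fact (1 < n.natAbs) := ⟨hN⟩
        exact one_ne_zero h4
      have hkz : k z = k 1 := by
        rw [map_one, hn]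
        rcases Int.natAbs_eq n with h | h
        · rw [h, zpow_natCast]; exact hz
        · rw [h, zpow_neg, zpow_natCast, hz, inv_one]
      exact hz1 (hinj hkz)
  rcases h1 with rfl | rfl
  · left; intro z; rw [hn, zpow_one]
  · right; intro z; rw [hn, zpow_neg, zpow_one]

end circle

section LC

/-- The 7th roots of unity. -/
noncomputable def zeta (a : ZMod 7) : Circle := ZMod.toCircle a

theorem zeta_add (a b : ZMod 7) : zeta (a + b) = zeta a * zeta b := AddChar.map_add_eq_mul _ a b
theorem zeta_zero : zeta 0 = 1 := AddChar.map_zero_eq_one _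
theorem zeta_neg (a : ZMod 7) : zeta (-a) = (zeta a)⁻¹ := AddChar.map_neg_eq_inv _ a
theorem zeta_inj {a b : ZMod 7} (h : zeta a = zeta b) : a = b := ZMod.injective_toCircle h

/-- The underlying space of the group `Circle × F₇²`. -/
def G7 : Type := Circle × ZMod 7 × ZMod 7

namespace G7

noncomputable instance : TopologicalSpace G7 := inferInstanceAs (TopologicalSpace (Circle × ZMod 7 × ZMod 7))
instance : T2Space G7 := inferInstanceAs (T2Space (Circle × ZMod 7 × ZMod 7))
instance : CompactSpace G7 := inferInstanceAs (CompactSpace (Circle × ZMod 7 × ZMod 7))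

/-- Constructor. -/
def mk (z : Circle) (x y : ZMod 7) : G7 := (z, x, y)

/-- circle coordinate -/
def z (g : G7) : Circle := g.1
/-- first coordinate -/
def x (g : G7) : ZMod 7 := g.2.1
/-- second coordinate -/
def y (g : G7) : ZMod 7 := g.2.2

@[simp] theorem mk_z (z : Circle) (x y : ZMod 7) : (mk z x y).z = z := rfl
@[simp] theorem mk_x (z : Circle) (x y : ZMod 7) : (mk z x y).x = x := rfl
@[simp] theorem mk_y (z : Circle) (x y : ZMod 7) : (mk z x y).y = y := rfl

theorem ext {g h : G7} (h1 : g.z = h.z) (h2 : g.x = h.x) (h3 : g.y = h.y) : g = h :=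
  Prod.ext h1 (Prod.ext h2 h3)

theorem eta (g : G7) : mk g.z g.x g.y = g := rfl

theorem cont_z : Continuous (z : G7 → Circle) := continuous_fst
theorem cont_x : Continuous (x : G7 → ZMod 7) := continuous_fst.comp continuous_snd
theorem cont_y : Continuous (y : G7 → ZMod 7) := continuous_snd.comp continuous_snd

theorem cont_mk {α : Type*} [TopologicalSpace α] {f : α → Circle} {g h : α → ZMod 7}
    (hf : Continuous f) (hg : Continuous g) (hh : Continuous h) :
    Continuous fun a => mk (f a) (g a) (h a) := hf.prodMk (hg.prodMk hh)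

/-- The cocycle. -/
noncomputable def coc (q : (ZMod 7 × ZMod 7) × (ZMod 7 × ZMod 7)) : Circle :=
  zeta (4 * (q.1.1 * q.2.2 - q.1.2 * q.2.1))

theorem cont_coc : Continuous coc := continuous_of_discreteTopology

noncomputable instance : Mul G7 := ⟨fun g h =>
  mk (g.z * h.z * coc ((g.x, g.y), (h.x, h.y))) (g.x + h.x) (g.y + h.y)⟩
noncomputable instance : One G7 := ⟨mk 1 0 0⟩
noncomputable instance : Inv G7 := ⟨fun g => mk (g.z)⁻¹ (-g.x) (-g.y)⟩

@[simp] theorem mul_z (g h : G7) :
    (g * h).z = g.z * h.z * zeta (4 * (g.x * h.y - g.y * h.x)) := rfl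
@[simp] theorem mul_x (g h : G7) : (g * h).x = g.x + h.x := rfl
@[simp] theorem mul_y (g h : G7) : (g * h).y = g.y + h.y := rfl
@[simp] theorem one_z : (1 : G7).z = 1 := rfl
@[simp] theorem one_x : (1 : G7).x = 0 := rfl
@[simp] theorem one_y : (1 : G7).y = 0 := rfl
@[simp] theorem inv_z (g : G7) : (g⁻¹).z = (g.z)⁻¹ := rfl
@[simp] theorem inv_x (g : G7) : (g⁻¹).x = -g.x := rfl
@[simp] theorem inv_y (g : G7) : (g⁻¹).y = -g.y := rfl

noncomputable instance : Group G7 := Group.ofLeftAxioms
  (by
    intro p q r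
    refine G7.ext ?_ ?_ ?_
    · simp only [mul_z, mul_x, mul_y]
      calc p.z * q.z * zeta (4 * (p.x * q.y - p.y * q.x)) * r.z *
            zeta (4 * ((p.x + q.x) * r.y - (p.y + q.y) * r.x))
          = p.z * q.z * r.z * (zeta (4 * (p.x * q.y - p.y * q.x)) *
            zeta (4 * ((p.x + q.x) * r.y - (p.y + q.y) * r.x))) := by
              simp only [mul_assoc, mul_left_comm, mul_comm]
        _ = p.z * q.z * r.z * (zeta (4 * (q.x * r.y - q.y * r.x)) *
            zeta (4 * (p.x * (q.y + r.y) - p.y * (q.x + r.x)))) := by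
              rw [← zeta_add, ← zeta_add]; congr 2; ring
        _ = _ := by simp only [mul_assoc, mul_left_comm, mul_comm]
    · simp [add_assoc]
    · simp [add_assoc])
  (by
    intro p
    refine G7.ext ?_ ?_ ?_
    · simp [zeta_zero]
    · simp
    · simp)
  (by
    intro p
    refine G7.ext ?_ ?_ ?_
    · simp only [mul_z, inv_z, inv_x, inv_y, one_z]
      have : 4 * (-p.x * p.y - -p.y * p.x) = 0 := by ring
      rw [this, zeta_zero]; simp
    · simp
    · simp)

theorem cont_mul_aux : Continuous fun g : G7 × G7 =>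
    mk (g.1.z * g.2.z * coc ((g.1.x, g.1.y), (g.2.x, g.2.y))) (g.1.x + g.2.x)
      (g.1.y + g.2.y) := by
  have c1 : Continuous fun g : G7 × G7 => g.1.z := cont_z.comp continuous_fst
  have c2 : Continuous fun g : G7 × G7 => g.2.z := cont_z.comp continuous_snd
  have c3 : Continuous fun g : G7 × G7 => g.1.x := cont_x.comp continuous_fst
  have c4 : Continuous fun g : G7 × G7 => g.2.x := cont_x.comp continuous_snd
  have c5 : Continuous fun g : G7 × G7 => g.1.y := cont_y.comp continuous_fst
  have c6 : Continuous fun g : G7 × G7 => g.2.y := cont_y.comp continuous_snd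
  have c7 : Continuous fun g : G7 × G7 => ((g.1.x, g.1.y), (g.2.x, g.2.y)) :=
    (c3.prodMk c5).prodMk (c4.prodMk c6)
  have f2 : Continuous fun q : (ZMod 7 × ZMod 7) × (ZMod 7 × ZMod 7) => q.1.1 + q.2.1 :=
    continuous_of_discreteTopology
  have f3 : Continuous fun q : (ZMod 7 × ZMod 7) × (ZMod 7 × ZMod 7) => q.1.2 + q.2.2 :=
    continuous_of_discreteTopology
  have e1 : Continuous fun g : G7 × G7 => coc ((g.1.x, g.1.y), (g.2.x, g.2.y)) :=
    cont_coc.comp c7
  have e2 : Continuous fun g : G7 × G7 => g.1.x + g.2.x := by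
    exact f2.comp c7
  have e3 : Continuous fun g : G7 × G7 => g.1.y + g.2.y := by
    exact f3.comp c7
  exact cont_mk ((c1.mul c2).mul e1) e2 e3

theorem cont_inv_aux : Continuous fun g : G7 => mk (g.z)⁻¹ (-g.x) (-g.y) := by
  have h1 : Continuous fun q : Circle => q⁻¹ := continuous_inv
  have h2 : Continuous fun q : ZMod 7 => -q := continuous_of_discreteTopology
  exact cont_mk (h1.comp cont_z) (h2.comp cont_x) (h2.comp cont_y)

instance : IsTopologicalGroup G7 where
  continuous_mul := cont_mul_aux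
  continuous_inv := cont_inv_aux


/-- `z ↦ z^δ` for `δ = ±1`. -/
noncomputable def pw (δ : ZMod 7) (z : Circle) : Circle := if δ = 1 then z else z⁻¹

theorem sq_one : ∀ δ : ZMod 7, δ ^ 2 = 1 → δ = 1 ∨ δ = -1 := by decide

theorem pw_one (z : Circle) : pw 1 z = z := if_pos rfl
theorem pw_neg (z : Circle) : pw (-1) z = z⁻¹ := if_neg (by decide)

theorem pw_mul {δ : ZMod 7} (hδ : δ ^ 2 = 1) (z z' : Circle) : pw δ (z * z') = pw δ z * pw δ z' := by
  rcases sq_one δ hδ with rfl | rfl
  · simp only [pw_one]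
  · simp only [pw_neg, mul_inv]

theorem pw_zeta {δ : ZMod 7} (hδ : δ ^ 2 = 1) (s : ZMod 7) : pw δ (zeta s) = zeta (δ * s) := by
  rcases sq_one δ hδ with rfl | rfl
  · simp only [pw_one, one_mul]
  · simp only [pw_neg, neg_mul, one_mul, zeta_neg]

theorem pw_pw {δ ε : ZMod 7} (hδ : δ ^ 2 = 1) (hε : ε ^ 2 = 1) (z : Circle) :
    pw δ (pw ε z) = pw (δ * ε) z := by
  rcases sq_one δ hδ with rfl | rfl <;> rcases sq_one ε hε with rfl | rfl
  · simp only [pw_one, mul_one]
  · simp only [pw_one, one_mul]
  · simp only [pw_one, mul_one]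
  · rw [neg_mul_neg, one_mul]; simp only [pw_neg, pw_one, inv_inv]

theorem pw_cont (δ : ZMod 7) : Continuous (pw δ) := by
  by_cases h : δ = 1
  · have : pw δ = id := by ext z; simp [pw, h]
    rw [this]; exact continuous_id
  · have : pw δ = fun z => z⁻¹ := by ext z; simp [pw, h]
    rw [this]; exact continuous_inv

/-- The automorphism attached to an element of `A7`. -/
noncomputable def act (p : A7) (g : G7) : G7 :=
  mk (pw (p.a * p.d - p.b * p.c) g.z *
    zeta (p.u * (p.c * g.x + p.d * g.y) - p.v * (p.a * g.x + p.b * g.y)))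
    (p.a * g.x + p.b * g.y) (p.c * g.x + p.d * g.y)

@[simp] theorem act_z (p : A7) (g : G7) : (act p g).z = pw (p.a * p.d - p.b * p.c) g.z *
    zeta (p.u * (p.c * g.x + p.d * g.y) - p.v * (p.a * g.x + p.b * g.y)) := rfl
@[simp] theorem act_x (p : A7) (g : G7) : (act p g).x = p.a * g.x + p.b * g.y := rfl
@[simp] theorem act_y (p : A7) (g : G7) : (act p g).y = p.c * g.x + p.d * g.y := rfl

theorem aux5 {M : Type*} [CommMonoid M] (A B C D E : M) :
    (A * B) * ((C * D) * E) = (A * C) * (B * D) * E := by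
  rw [← mul_assoc, mul_mul_mul_comm]

theorem aux4 {M : Type*} [CommMonoid M] (A B C D : M) :
    (A * B) * (C * D) = (A * C) * (D * B) := by
  rw [mul_mul_mul_comm, mul_comm B D]

theorem aux4' {M : Type*} [CommMonoid M] (A B C D : M) :
    (A * B) * (C * D) = (C * B) * (D * A) := by
  rw [mul_mul_mul_comm, mul_comm A C, mul_comm B D, mul_mul_mul_comm, mul_comm A B,
    ← mul_mul_mul_comm]

theorem act_mul (p : A7) (g h : G7) : act p (g * h) = act p g * act p h := by
  refine G7.ext ?_ ?_ ?_
  · rw [act_z, mul_z, mul_z, act_z, act_z, pw_mul p.h, pw_mul p.h, pw_zeta p.h]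
    simp only [mul_x, mul_y, act_x, act_y]
    calc pw (p.a * p.d - p.b * p.c) g.z * pw (p.a * p.d - p.b * p.c) h.z *
          zeta ((p.a * p.d - p.b * p.c) * (4 * (g.x * h.y - g.y * h.x))) *
          zeta (p.u * (p.c * (g.x + h.x) + p.d * (g.y + h.y)) -
            p.v * (p.a * (g.x + h.x) + p.b * (g.y + h.y)))
        = (pw (p.a * p.d - p.b * p.c) g.z * pw (p.a * p.d - p.b * p.c) h.z) *
          (zeta ((p.a * p.d - p.b * p.c) * (4 * (g.x * h.y - g.y * h.x))) *
          zeta (p.u * (p.c * (g.x + h.x) + p.d * (g.y + h.y)) -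
            p.v * (p.a * (g.x + h.x) + p.b * (g.y + h.y)))) := by rw [mul_assoc]
      _ = (pw (p.a * p.d - p.b * p.c) g.z * pw (p.a * p.d - p.b * p.c) h.z) *
          ((zeta (p.u * (p.c * g.x + p.d * g.y) - p.v * (p.a * g.x + p.b * g.y)) *
          zeta (p.u * (p.c * h.x + p.d * h.y) - p.v * (p.a * h.x + p.b * h.y))) *
          zeta (4 * ((p.a * g.x + p.b * g.y) * (p.c * h.x + p.d * h.y) -
            (p.c * g.x + p.d * g.y) * (p.a * h.x + p.b * h.y)))) := by
          rw [← zeta_add, ← zeta_add, ← zeta_add]; congr 2; ring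
      _ = _ := aux5 _ _ _ _ _
  · simp only [mul_x, mul_y, act_x]; ring
  · simp only [mul_x, mul_y, act_y]; ring

theorem act_comp (p q : A7) (g : G7) : act (p * q) g = act p (act q g) := by
  refine G7.ext ?_ ?_ ?_
  · rw [act_z, act_z, act_z, pw_mul p.h, pw_zeta p.h, pw_pw p.h q.h, mul_assoc, ← zeta_add]
    simp only [A7.mul_u, A7.mul_v, A7.mul_a, A7.mul_b, A7.mul_c, A7.mul_d, act_x, act_y]
    congr 2
    · ring
    · ring
  · simp only [A7.mul_a, A7.mul_b, act_x, act_y]; ring
  · simp only [A7.mul_c, A7.mul_d, act_x, act_y]; ring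

theorem act_one (g : G7) : act 1 g = g := by
  refine G7.ext ?_ ?_ ?_
  · rw [act_z]
    simp [zeta_zero, pw_one]
  · simp
  · simp

theorem act_cont (p : A7) : Continuous (act p) := by
  have c1 : Continuous fun g : G7 => (g.x, g.y) := cont_x.prodMk cont_y
  have f1 : Continuous fun q : ZMod 7 × ZMod 7 =>
    zeta (p.u * (p.c * q.1 + p.d * q.2) - p.v * (p.a * q.1 + p.b * q.2)) :=
    continuous_of_discreteTopology
  have f2 : Continuous fun q : ZMod 7 × ZMod 7 => p.a * q.1 + p.b * q.2 :=
    continuous_of_discreteTopology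
  have f3 : Continuous fun q : ZMod 7 × ZMod 7 => p.c * q.1 + p.d * q.2 :=
    continuous_of_discreteTopology
  have e1 := (pw_cont (p.a * p.d - p.b * p.c)).comp cont_z
  have e2 := f1.comp c1
  have e3 := f2.comp c1
  have e4 := f3.comp c1
  exact cont_mk (e1.mul e2) e3 e4

/-- The topological automorphism attached to an element of `A7`. -/
noncomputable def actEquiv (p : A7) : ContinuousMulEquiv G7 G7 where
  toFun := act p
  invFun := act p⁻¹
  left_inv g := by rw [← act_comp, inv_mul_cancel, act_one]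
  right_inv g := by rw [← act_comp, mul_inv_cancel, act_one]
  map_mul' := act_mul p
  continuous_toFun := act_cont p
  continuous_invFun := act_cont p⁻¹

theorem actEquiv_inj : Function.Injective actEquiv := by
  intro p q hpq
  have h : ∀ g, act p g = act q g := fun g => congrArg (fun e : ContinuousMulEquiv G7 G7 => e g) hpq
  have h1 := h (mk 1 1 0)
  have h2 := h (mk 1 0 1)
  have a1 : p.a = q.a := by simpa using congrArg G7.x h1
  have a2 : p.c = q.c := by simpa using congrArg G7.y h1
  have a3 : p.b = q.b := by simpa using congrArg G7.x h2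
  have a4 : p.d = q.d := by simpa using congrArg G7.y h2
  have b1 := congrArg G7.z h1
  have b2 := congrArg G7.z h2
  rw [act_z, act_z, a1, a2, a3, a4] at b1 b2
  have c1 := zeta_inj (mul_left_cancel b1)
  have c2 := zeta_inj (mul_left_cancel b2)
  simp only [mk_x, mk_y, mul_one, mul_zero, add_zero, zero_add] at c1 c2
  have hd := q.h
  refine A7.ext ?_ ?_ a1 a3 a2 a4
  · linear_combination (q.a * q.d - q.b * q.c) * (q.a * c2 - q.b * c1) +
      (q.u - p.u) * hd
  · linear_combination (q.a * q.d - q.b * q.c) * (q.c * c2 - q.d * c1) +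
      (q.v - p.v) * hd


theorem zeta_of_pow {z : Circle} (hz : z ^ 7 = 1) : ∃ a : ZMod 7, z = zeta a := by
  have hmem : toUnits z ∈ rootsOfUnity 7 Circle := by
    rw [mem_rootsOfUnity]; ext; simp [hz]
  obtain ⟨a, ha⟩ := (bijective_rootsOfUnityAddChar 7).2 ⟨toUnits z, hmem⟩
  refine ⟨a, ?_⟩
  have h1 := congrArg (fun w : rootsOfUnity 7 Circle => ((w : Circleˣ) : Circle)) ha
  simpa [zeta] using h1.symm

theorem lin_of_add (h : ZMod 7 →+ ZMod 7) (x : ZMod 7) : h x = x * h 1 := by
  have h1 : x = (x.val) • (1 : ZMod 7) := by simp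
  conv_lhs => rw [h1]
  rw [map_nsmul, nsmul_eq_mul]
  simp

theorem add_lin (f : ZMod 7 → ZMod 7) (h0 : ∀ a b, f (a + b) = f a + f b) (x : ZMod 7) :
    f x = x * f 1 := by
  have hz : f 0 = 0 := by
    have := h0 0 0
    rw [add_zero] at this
    exact (add_eq_left.1 this.symm)
  exact lin_of_add (AddMonoidHom.mk' f h0) x

theorem char_pow (h : ZMod 7 → Circle) (h0 : ∀ x y, h (x + y) = h x * h y) :
    ∃ s : ZMod 7, ∀ x, h x = zeta (s * x) := by
  have hz : h 0 = 1 := by
    have := h0 0 0
    rw [add_zero] at this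
    exact (mul_eq_left.1 this.symm)
  have hn : ∀ n : ℕ, h (n : ZMod 7) = h 1 ^ n := by
    intro n
    induction n with
    | zero => simpa using hz
    | succ n ih => rw [Nat.cast_succ, h0, ih, pow_succ]
  have h7 : h 1 ^ 7 = 1 := by
    rw [← hn 7]
    have : ((7 : ℕ) : ZMod 7) = 0 := by decide
    rw [this, hz]
  obtain ⟨s, hs⟩ := zeta_of_pow h7
  refine ⟨s, fun x => ?_⟩
  have hx : ((x.val : ℕ) : ZMod 7) = x := by simp
  rw [← hx, hn, hs, zeta, zeta, ← AddChar.map_nsmul_eq_pow]
  congr 1
  rw [nsmul_eq_mul, mul_comm]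

theorem central_xy {g : G7} (h : ∀ x y : ZMod 7, g * mk 1 x y = mk 1 x y * g) :
    g.x = 0 ∧ g.y = 0 := by
  have key : ∀ x y : ZMod 7, 4 * (g.x * y - g.y * x) = 4 * (x * g.y - y * g.x) := by
    intro x y
    have h1 := congrArg G7.z (h x y)
    rw [mul_z, mul_z] at h1
    simp only [mk_z, mk_x, mk_y, mul_one, one_mul] at h1
    exact zeta_inj (mul_left_cancel h1)
  have k1 := key 0 1
  have k2 := key 1 0
  have h8 : (8 : ZMod 7) = 1 := by decide
  constructor
  · linear_combination k1 - g.x * h8
  · linear_combination -k2 - g.y * h8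

theorem mk_comm_aux (z : Circle) (g : G7) : mk z 0 0 * g = g * mk z 0 0 := by
  refine G7.ext ?_ ?_ ?_
  · rw [mul_z, mul_z]
    simp only [mk_z, mk_x, mk_y, zero_mul, mul_zero, sub_zero, zeta_zero, mul_one]
    exact mul_comm _ _
  · simp
  · simp

theorem actEquiv_surj : Function.Surjective actEquiv := by
  intro φ
  have hφc : Continuous φ := φ.continuous_toFun
  have hφi : Function.Injective φ := φ.injective
  -- the central circle is preserved
  have hc : ∀ z : Circle, (φ (mk z 0 0)).x = 0 ∧ (φ (mk z 0 0)).y = 0 := by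
    intro z
    apply central_xy
    intro x y
    obtain ⟨g, hg⟩ := φ.surjective (mk 1 x y)
    rw [← hg, ← map_mul, ← map_mul, mk_comm_aux z g]
  have hc' : ∀ z : Circle, φ (mk z 0 0) = mk (φ (mk z 0 0)).z 0 0 := fun z =>
    G7.ext rfl (hc z).1 (hc z).2
  have mk00 : ∀ z w : Circle, mk z 0 0 * mk w 0 0 = mk (z * w) 0 0 := by
    intro z w
    refine G7.ext ?_ ?_ ?_
    · rw [mul_z]; simp [zeta_zero]
    · simp
    · simp
  let k : Circle →* Circle :=
    { toFun := fun z => (φ (mk z 0 0)).z
      map_one' := by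
        show (φ 1).z = 1
        rw [map_one]; rfl
      map_mul' := by
        intro z w
        rw [← mk00, map_mul, mul_z, (hc z).1, (hc z).2]
        simp [zeta_zero] }
  have hk : ∀ z, k z = (φ (mk z 0 0)).z := fun z => rfl
  have hkc : Continuous k := by
    have h1 : Continuous fun z : Circle => mk z 0 0 :=
      cont_mk continuous_id continuous_const continuous_const
    exact cont_z.comp (hφc.comp h1)
  have hki : Function.Injective k := by
    intro z w hzw
    rw [hk, hk] at hzw
    have h1 : φ (mk z 0 0) = φ (mk w 0 0) := by rw [hc' z, hc' w, hzw]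
    exact congrArg G7.z (hφi h1)
  obtain ⟨ε, hε, hkε⟩ : ∃ ε : ZMod 7, ε ^ 2 = 1 ∧ ∀ z, k z = pw ε z := by
    rcases circle_aut k hkc hki with h | h
    · exact ⟨1, by decide, fun z => by rw [h, pw_one]⟩
    · exact ⟨-1, by decide, fun z => by rw [h, pw_neg]⟩
  -- the data
  let X : ZMod 7 → ZMod 7 → ZMod 7 := fun x y => (φ (mk 1 x y)).x
  let Y : ZMod 7 → ZMod 7 → ZMod 7 := fun x y => (φ (mk 1 x y)).y
  let C : ZMod 7 → ZMod 7 → Circle := fun x y => (φ (mk 1 x y)).z
  have hmm : ∀ x y x' y', mk 1 x y * mk 1 x' y' =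
      mk (zeta (4 * (x * y' - y * x'))) 0 0 * mk 1 (x + x') (y + y') := by
    intro x y x' y'
    refine G7.ext ?_ ?_ ?_
    · rw [mul_z, mul_z]
      simp [zeta_zero]
    · simp
    · simp
  have hφmm : ∀ x y x' y', φ (mk 1 x y) * φ (mk 1 x' y') =
      mk (zeta (ε * (4 * (x * y' - y * x')))) 0 0 * φ (mk 1 (x + x') (y + y')) := by
    intro x y x' y'
    rw [← map_mul, hmm, map_mul, hc' (zeta _), ← hk, hkε, pw_zeta hε]
  have hX : ∀ x y x' y', X (x + x') (y + y') = X x y + X x' y' := by
    intro x y x' y'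
    have := congrArg G7.x (hφmm x y x' y')
    rw [mul_x, mul_x] at this
    simp only [mk_x, zero_add] at this
    exact this.symm
  have hY : ∀ x y x' y', Y (x + x') (y + y') = Y x y + Y x' y' := by
    intro x y x' y'
    have := congrArg G7.y (hφmm x y x' y')
    rw [mul_y, mul_y] at this
    simp only [mk_y, zero_add] at this
    exact this.symm
  have hC : ∀ x y x' y', C x y * C x' y' * zeta (4 * (X x y * Y x' y' - Y x y * X x' y')) =
      zeta (ε * (4 * (x * y' - y * x'))) * C (x + x') (y + y') := by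
    intro x y x' y'
    have := congrArg G7.z (hφmm x y x' y')
    rw [mul_z, mul_z] at this
    simp only [mk_x, mk_y, mk_z, zero_mul, mul_zero, sub_zero, zeta_zero, mul_one] at this
    exact this
  have hW : ∀ x y x' y', X x y * Y x' y' - Y x y * X x' y' = ε * (x * y' - y * x') := by
    intro x y x' y'
    have h1 := hC x y x' y'
    have h2 := hC x' y' x y
    rw [add_comm x' x, add_comm y' y, mul_comm (C x' y') (C x y)] at h2
    -- eliminate
    have h3 : zeta (4 * (X x y * Y x' y' - Y x y * X x' y')) *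
        zeta (ε * (4 * (x' * y - y' * x))) =
        zeta (4 * (X x' y' * Y x y - Y x' y' * X x y)) * zeta (ε * (4 * (x * y' - y * x'))) := by
      have e1 : (C x y * C x' y' * C (x + x') (y + y')) *
          (zeta (4 * (X x y * Y x' y' - Y x y * X x' y')) * zeta (ε * (4 * (x' * y - y' * x)))) =
          (C x y * C x' y' * C (x + x') (y + y')) *
          (zeta (4 * (X x' y' * Y x y - Y x' y' * X x y)) *
            zeta (ε * (4 * (x * y' - y * x')))) := by
        calc (C x y * C x' y' * C (x + x') (y + y')) *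
          (zeta (4 * (X x y * Y x' y' - Y x y * X x' y')) * zeta (ε * (4 * (x' * y - y' * x))))
            = (C x y * C x' y' * zeta (4 * (X x y * Y x' y' - Y x y * X x' y'))) *
              (zeta (ε * (4 * (x' * y - y' * x))) * C (x + x') (y + y')) := aux4 _ _ _ _
          _ = (zeta (ε * (4 * (x * y' - y * x'))) * C (x + x') (y + y')) *
              (C x y * C x' y' * zeta (4 * (X x' y' * Y x y - Y x' y' * X x y))) := by
              rw [h1, h2]
          _ = _ := aux4' _ _ _ _
      exact mul_left_cancel e1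
    rw [← zeta_add, ← zeta_add] at h3
    have h4 := zeta_inj h3
    have h8 : (8 : ZMod 7) = 1 := by decide
    linear_combination h4 - (X x y * Y x' y' - Y x y * X x' y' - ε * (x * y' - y * x')) * h8
  have hCm : ∀ x y x' y', C (x + x') (y + y') = C x y * C x' y' := by
    intro x y x' y'
    have h1 := hC x y x' y'
    rw [hW] at h1
    have h2 : 4 * (ε * (x * y' - y * x')) = ε * (4 * (x * y' - y * x')) := by ring
    rw [h2, mul_comm] at h1
    exact (mul_left_cancel h1).symm
  -- linear data
  have hX' : ∀ x y, X x y = X 1 0 * x + X 0 1 * y := by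
    intro x y
    have e1 : X x 0 = x * X 1 0 := add_lin (fun x => X x 0) (fun a b => by
      have := hX a 0 b 0
      rwa [add_zero] at this) x
    have e2 : X 0 y = y * X 0 1 := add_lin (fun y => X 0 y) (fun a b => by
      have := hX 0 a 0 b
      rwa [add_zero] at this) y
    have e3 := hX x 0 0 y
    rw [add_zero, zero_add] at e3
    rw [e3, e1, e2]; ring
  have hY' : ∀ x y, Y x y = Y 1 0 * x + Y 0 1 * y := by
    intro x y
    have e1 : Y x 0 = x * Y 1 0 := add_lin (fun x => Y x 0) (fun a b => by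
      have := hY a 0 b 0
      rwa [add_zero] at this) x
    have e2 : Y 0 y = y * Y 0 1 := add_lin (fun y => Y 0 y) (fun a b => by
      have := hY 0 a 0 b
      rwa [add_zero] at this) y
    have e3 := hY x 0 0 y
    rw [add_zero, zero_add] at e3
    rw [e3, e1, e2]; ring
  obtain ⟨s, hs⟩ := char_pow (fun x => C x 0) (fun a b => by
    have := hCm a 0 b 0; rwa [add_zero] at this)
  obtain ⟨t, ht⟩ := char_pow (fun y => C 0 y) (fun a b => by
    have := hCm 0 a 0 b; rwa [add_zero] at this)
  have hC' : ∀ x y, C x y = zeta (s * x + t * y) := by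
    intro x y
    have e3 := hCm x 0 0 y
    rw [add_zero, zero_add] at e3
    rw [e3, hs x, ht y, zeta_add]
  have hdet : X 1 0 * Y 0 1 - X 0 1 * Y 1 0 = ε := by
    have := hW 1 0 0 1
    linear_combination this
  have hdet2 : (X 1 0 * Y 0 1 - X 0 1 * Y 1 0) ^ 2 = 1 := by rw [hdet]; exact hε
  refine ⟨⟨(X 1 0 * Y 0 1 - X 0 1 * Y 1 0) * (X 1 0 * t - X 0 1 * s),
    (X 1 0 * Y 0 1 - X 0 1 * Y 1 0) * (Y 1 0 * t - Y 0 1 * s),
    X 1 0, X 0 1, Y 1 0, Y 0 1, hdet2⟩, ?_⟩
  apply ContinuousMulEquiv.ext
  intro g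
  show act _ g = φ g
  have hg : g = mk g.z 0 0 * mk 1 g.x g.y := by
    refine G7.ext ?_ ?_ ?_
    · rw [mul_z]; simp [zeta_zero]
    · simp
    · simp
  have hg2 : φ g = mk (pw ε g.z * C g.x g.y) (X g.x g.y) (Y g.x g.y) := by
    conv_lhs => rw [hg]
    rw [map_mul, hc' g.z, ← hk, hkε]
    refine G7.ext ?_ ?_ ?_
    · rw [mul_z]
      simp only [mk_x, mk_y, mk_z, zero_mul, sub_zero, mul_zero, zeta_zero, mul_one]
      rfl
    · rw [mul_x]
      simp only [mk_x, zero_add]
      rfl
    · rw [mul_y]
      simp only [mk_y, zero_add]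
      rfl
  rw [hg2]
  refine G7.ext ?_ ?_ ?_
  · rw [act_z]
    simp only [mk_z]
    rw [hdet, hC']
    congr 2
    have hd := hdet
    linear_combination (s * g.x + t * g.y) * hdet2 +
      ((X 1 0 * t - X 0 1 * s) * (Y 1 0 * g.x + Y 0 1 * g.y) -
        (Y 1 0 * t - Y 0 1 * s) * (X 1 0 * g.x + X 0 1 * g.y)) * (-hd)
  · rw [act_x]
    simp only [mk_x]
    rw [hX' g.x g.y]
  · rw [act_y]
    simp only [mk_y]
    rw [hY' g.x g.y]

end G7

end LC

open A7 in
/-- LC side: `A7` is the group of topological automorphisms of a compact Hausdorff group. -/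
theorem lc_side :
    ∃ (G : Type) (_ : Group G) (_ : TopologicalSpace G) (_ : IsTopologicalGroup G)
      (_ : LocallyCompactSpace G) (_ : T2Space G) (e : A7 ≃ ContinuousMulEquiv G G),
      ∀ a b : A7, e (a * b) = (e b).trans (e a) := by
  refine ⟨G7, inferInstance, inferInstance, inferInstance, inferInstance, inferInstance,
    Equiv.ofBijective G7.actEquiv ⟨G7.actEquiv_inj, G7.actEquiv_surj⟩, ?_⟩
  intro a b
  apply ContinuousMulEquiv.ext
  intro g
  exact G7.act_comp a b g

end Pool.Agent.Helper671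

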