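import Mathlib

set_option autoImplicit false

namespace Helper671.FLR

open Finset

/-- the indicator that `v` is the letter with number `rank_S i` of size `|S|`. -/
def isLetter {q : ℕ} (S : Finset (Fin q)) (i : Fin q) (v : Fin q × Fin q) : Prop :=
  ((v.1 : ℕ) + 1 = S.card) ∧ ((v.2 : ℕ) = (S.filter (· < i)).card)

instance {q : ℕ} (S : Finset (Fin q)) (i : Fin q) (v : Fin q × Fin q) :
    Decidable (isLetter S i v) := by unfold isLetter; infer_instance

/-- the signed measure on words (inclusion-exclusion). -/
def nu {q : ℕ} (S : Finset (Fin q)) (x : Fin q → Fin q × Fin q) : ℤ :=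
  if S = ∅ then 1 else
    ∑ T ∈ S.ssubsets.attach, (-1) ^ (S.card - T.1.card - 1) * nu T.1 x *
      ∏ i ∈ S \ T.1, (if isLetter S i (x i) then 1 else 0)
termination_by S.card
decreasing_by exact Finset.card_lt_card (Finset.mem_ssubsets.1 T.2)

variable {q : ℕ}

theorem nu_empty (x : Fin q → Fin q × Fin q) : nu ∅ x = 1 := by
  rw [nu]; simp

theorem nu_rec {S : Finset (Fin q)} (hS : S.Nonempty) (x : Fin q → Fin q × Fin q) :
    nu S x = ∑ T ∈ S.ssubsets, (-1) ^ (S.card - T.card - 1) * nu T x *
      ∏ i ∈ S \ T, (if isLetter S i (x i) then 1 else 0) := by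
  rw [nu, if_neg hS.ne_empty]
  exact Finset.sum_attach S.ssubsets (fun T => (-1) ^ (S.card - T.card - 1) * nu T x *
      ∏ i ∈ S \ T, (if isLetter S i (x i) then (1:ℤ) else 0))

/-- `nu S x` depends only on `x` restricted to `S`. -/
theorem nu_congr (S : Finset (Fin q)) {x x' : Fin q → Fin q × Fin q}
    (h : ∀ i ∈ S, x i = x' i) : nu S x = nu S x' := by
  induction S using Finset.strongInduction with
  | H S ih =>
    rcases S.eq_empty_or_nonempty with rfl | hS
    · rw [nu_empty, nu_empty]
    · rw [nu_rec hS, nu_rec hS]
      refine Finset.sum_congr rfl fun T hT => ?_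
      have hT' := Finset.mem_ssubsets.1 hT
      rw [ih T hT' (fun i hi => h i (hT'.1 hi))]
      congr 1
      refine Finset.prod_congr rfl fun i hi => ?_
      rw [h i (Finset.mem_sdiff.1 hi).1]

/-- `(N3)` -/
theorem nu_ne_zero {S : Finset (Fin q)} {x : Fin q → Fin q × Fin q} (h : nu S x ≠ 0) :
    Set.InjOn x S ∧ ∀ i ∈ S, ((x i).1 : ℕ) < S.card := by
  induction S using Finset.strongInduction with
  | H S ih =>
    rcases S.eq_empty_or_nonempty with rfl | hS
    · simp
    · rw [nu_rec hS] at h
      obtain ⟨T, hT, hne⟩ := Finset.exists_ne_zero_of_sum_ne_zero h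
      have hT' := Finset.mem_ssubsets.1 hT
      have h1 : nu T x ≠ 0 := by
        intro h0; apply hne; rw [h0]; ring
      have h2 : ∀ i ∈ S \ T, isLetter S i (x i) := by
        intro i hi
        by_contra hc
        apply hne
        rw [Finset.prod_eq_zero hi (if_neg hc)]; ring
      obtain ⟨hinj, hlt⟩ := ih T hT' h1
      have hcard := Finset.card_lt_card hT'
      constructor
      · intro i hi j hj hij
        have hi' : i ∈ S := hi
        have hj' : j ∈ S := hj
        by_cases hiT : i ∈ T <;> by_cases hjT : j ∈ T
        · exact hinj hiT hjT hij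
        · have a := hlt i hiT
          have b := (h2 j (Finset.mem_sdiff.2 ⟨hj', hjT⟩)).1
          rw [hij] at a; omega
        · have a := hlt j hjT
          have b := (h2 i (Finset.mem_sdiff.2 ⟨hi', hiT⟩)).1
          rw [← hij] at a; omega
        · have a := (h2 i (Finset.mem_sdiff.2 ⟨hi', hiT⟩)).2
          have b := (h2 j (Finset.mem_sdiff.2 ⟨hj', hjT⟩)).2
          rw [hij] at a
          have hc : (S.filter (· < i)).card = (S.filter (· < j)).card := by rw [← a, ← b]
          rcases lt_trichotomy i j with hlt' | heq | hgt
          · exfalso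
            have : S.filter (· < i) ⊂ S.filter (· < j) := by
              rw [Finset.ssubset_iff_of_subset]
              · exact ⟨i, by simp [hi', hlt'], by simp⟩
              · intro k hk
                simp only [Finset.mem_filter] at hk ⊢
                exact ⟨hk.1, hk.2.trans hlt'⟩
            exact absurd hc (Finset.card_lt_card this).ne
          · exact heq
          · exfalso
            have : S.filter (· < j) ⊂ S.filter (· < i) := by
              rw [Finset.ssubset_iff_of_subset]
              · exact ⟨j, by simp [hj', hgt], by simp⟩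
              · intro k hk
                simp only [Finset.mem_filter] at hk ⊢
                exact ⟨hk.1, hk.2.trans hgt⟩
            exact absurd hc (Finset.card_lt_card this).ne'
      · intro i hi
        by_cases hiT : i ∈ T
        · exact (hlt i hiT).trans hcard
        · have := (h2 i (Finset.mem_sdiff.2 ⟨hi, hiT⟩)).1
          omega

theorem card_filter_image {S : Finset (Fin q)} {θ : Fin q → Fin q}
    (hθ : StrictMonoOn θ S) {i : Fin q} (hi : i ∈ S) :
    ((S.image θ).filter (· < θ i)).card = (S.filter (· < i)).card := by
  have : (S.image θ).filter (· < θ i) = (S.filter (· < i)).image θ := by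
    ext k
    simp only [Finset.mem_filter, Finset.mem_image]
    constructor
    · rintro ⟨⟨j, hj, rfl⟩, hlt⟩
      exact ⟨j, ⟨hj, (hθ.lt_iff_lt hj hi).1 hlt⟩, rfl⟩
    · rintro ⟨j, ⟨hj, hlt⟩, rfl⟩
      exact ⟨⟨j, hj, rfl⟩, (hθ.lt_iff_lt hj hi).2 hlt⟩
  rw [this, Finset.card_image_of_injOn]
  intro a ha b hb hab
  have ha' : a ∈ S := (Finset.mem_filter.1 (Finset.mem_coe.1 ha)).1
  have hb' : b ∈ S := (Finset.mem_filter.1 (Finset.mem_coe.1 hb)).1
  exact hθ.injOn ha' hb' hab

/-- `(N2)` order invariance. -/
theorem nu_image (S : Finset (Fin q)) {θ : Fin q → Fin q} (hθ : StrictMonoOn θ S)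
    (x : Fin q → Fin q × Fin q) : nu (S.image θ) x = nu S (x ∘ θ) := by
  induction S using Finset.strongInduction with
  | H S ih =>
    rcases S.eq_empty_or_nonempty with rfl | hS
    · rw [Finset.image_empty, nu_empty, nu_empty]
    · rw [nu_rec hS, nu_rec (hS.image θ)]
      have hinj : Set.InjOn θ S := hθ.injOn
      have hcard : (S.image θ).card = S.card := Finset.card_image_of_injOn hinj
      symm
      refine Finset.sum_bij (fun T _ => T.image θ) ?_ ?_ ?_ ?_
      · intro T hT
        have hT' := Finset.mem_ssubsets.1 hT
        rw [Finset.mem_ssubsets]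
        refine Finset.ssubset_iff_subset_ne.2 ⟨Finset.image_subset_image hT'.1, ?_⟩
        intro he
        have h1 := congrArg Finset.card he
        rw [hcard, Finset.card_image_of_injOn (hinj.mono (by exact_mod_cast hT'.1))] at h1
        exact absurd h1 (Finset.card_lt_card hT').ne
      · intro T hT T' hT' he
        have h1 := (Finset.mem_ssubsets.1 hT).1
        have h2 := (Finset.mem_ssubsets.1 hT').1
        have := (Finset.image_injOn_powerset_of_injOn hinj)
        exact this (by simpa using h1) (by simpa using h2) he
      · intro U hU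
        have hU' := Finset.mem_ssubsets.1 hU
        obtain ⟨T, hTS, rfl⟩ := Finset.subset_image_iff.1 hU'.1
        have hTS' : T ⊆ S := by exact_mod_cast hTS
        refine ⟨T, ?_, rfl⟩
        rw [Finset.mem_ssubsets]
        refine Finset.ssubset_iff_subset_ne.2 ⟨hTS', ?_⟩
        rintro rfl
        exact hU'.2 (Finset.Subset.refl _)
      · intro T hT
        have hT' := Finset.mem_ssubsets.1 hT
        have hmono : StrictMonoOn θ T := hθ.mono (by exact_mod_cast hT'.1)
        rw [hcard, Finset.card_image_of_injOn hmono.injOn, ih T hT' hmono]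
        congr 1
        have hsd : S.image θ \ T.image θ = (S \ T).image θ := by
          ext k
          simp only [Finset.mem_sdiff, Finset.mem_image]
          constructor
          · rintro ⟨⟨j, hj, rfl⟩, hn⟩
            exact ⟨j, ⟨hj, fun h => hn ⟨j, h, rfl⟩⟩, rfl⟩
          · rintro ⟨j, ⟨hj, hjT⟩, rfl⟩
            refine ⟨⟨j, hj, rfl⟩, ?_⟩
            rintro ⟨j', hj', he⟩
            exact hjT (hinj (hT'.1 hj') hj he ▸ hj')
        rw [hsd, Finset.prod_image]
        · refine Finset.prod_congr rfl fun i hi => ?_
          have hi' := (Finset.mem_sdiff.1 hi).1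
          simp only [isLetter, hcard, card_filter_image hθ hi', Function.comp]
        · intro a ha b hb hab
          have ha' : a ∈ S := (Finset.mem_sdiff.1 (Finset.mem_coe.1 ha)).1
          have hb' : b ∈ S := (Finset.mem_sdiff.1 (Finset.mem_coe.1 hb)).1
          exact hinj ha' hb' hab

/-- exactly one letter of a given size and rank. -/
theorem sum_isLetter (S : Finset (Fin q)) (hS : S.Nonempty) (i : Fin q) :
    ∑ v : Fin q × Fin q, (if isLetter S i v then (1:ℤ) else 0) = 1 := by
  have hc : S.card ≤ q := by simpa using Finset.card_le_univ S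
  have hc0 : 0 < S.card := hS.card_pos
  have hr : (S.filter (· < i)).card < q := by
    have : S.filter (· < i) ⊆ Finset.univ.filter (· < i) := Finset.filter_subset_filter _ (Finset.subset_univ _)
    have h1 := Finset.card_le_card this
    have h2 : (Finset.univ.filter (· < i)).card = (i : ℕ) := by
      rw [Finset.filter_gt_eq_Iio, Fin.card_Iio]
    have := i.2
    omega
  rw [Finset.sum_eq_single (⟨⟨S.card - 1, by omega⟩, ⟨(S.filter (· < i)).card, hr⟩⟩ : Fin q × Fin q)]
  · rw [if_pos]
    refine ⟨?_, rfl⟩
    show S.card - 1 + 1 = S.card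
    omega
  · intro v _ hv
    rw [if_neg]
    rintro ⟨h1, h2⟩
    apply hv
    ext
    · show (v.1 : ℕ) = S.card - 1
      omega
    · exact h2
  · intro h; exact absurd (Finset.mem_univ _) h

/-- `(N1)` marginals. -/
theorem nu_marginal (S : Finset (Fin q)) {i : Fin q} (hi : i ∉ S)
    (x : Fin q → Fin q × Fin q) :
    ∑ v : Fin q × Fin q, nu (insert i S) (Function.update x i v) = nu S x := by
  induction S using Finset.strongInduction with
  | H S ih =>
    have hne : (insert i S).Nonempty := Finset.insert_nonempty i S
    simp_rw [nu_rec hne]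
    rw [Finset.sum_comm]
    -- split ssubsets of insert i S
    have hsplit : (insert i S).ssubsets =
        insert S (S.ssubsets ∪ S.ssubsets.image (fun T => insert i T)) := by
      ext U
      simp only [Finset.mem_ssubsets, Finset.mem_insert, Finset.mem_union, Finset.mem_image]
      constructor
      · intro hU
        by_cases hiU : i ∈ U
        · right; right
          refine ⟨U.erase i, ?_, Finset.insert_erase hiU⟩
          rw [Finset.ssubset_iff_subset_ne]
          constructor
          · intro k hk
            have := hU.1 (Finset.mem_of_mem_erase hk)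
            rcases Finset.mem_insert.1 this with h | h
            · exact absurd h (Finset.ne_of_mem_erase hk)
            · exact h
          · intro he
            apply hU.2
            rw [← he, Finset.insert_erase hiU]
        · have hsub : U ⊆ S := by
            intro k hk
            rcases Finset.mem_insert.1 (hU.1 hk) with h | h
            · exact absurd (h ▸ hk) hiU
            · exact h
          by_cases he : U = S
          · exact Or.inl he
          · right; left; exact Finset.ssubset_iff_subset_ne.2 ⟨hsub, he⟩
      · rintro (rfl | h | ⟨T, hT, rfl⟩)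
        · exact Finset.ssubset_insert hi
        · exact h.trans_subset (Finset.subset_insert i S)
        · rw [Finset.ssubset_iff_subset_ne]
          refine ⟨Finset.insert_subset_insert i hT.1, ?_⟩
          intro he
          apply hT.2
          intro k hk
          have : k ∈ insert i T := he ▸ Finset.mem_insert_of_mem hk
          rcases Finset.mem_insert.1 this with h | h
          · exact absurd (h ▸ hk) hi
          · exact h
    rw [hsplit, Finset.sum_insert, Finset.sum_union, Finset.sum_image]
    · -- main computation
      have hST : ∀ T : Finset (Fin q), T ⊆ S → insert i S \ T = insert i (S \ T) := by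
        intro T hT
        ext k
        simp only [Finset.mem_sdiff, Finset.mem_insert]
        constructor
        · rintro ⟨h | h, h'⟩
          · exact Or.inl h
          · exact Or.inr ⟨h, h'⟩
        · rintro (h | ⟨h, h'⟩)
          · exact ⟨Or.inl h, fun hk => hi (hT (h ▸ hk))⟩
          · exact ⟨Or.inr h, h'⟩
      have hcongr : ∀ (T : Finset (Fin q)), T ⊆ S → ∀ v, nu T (Function.update x i v) = nu T x := by
        intro T hT v
        refine nu_congr T fun k hk => ?_
        rw [Function.update_of_ne]
        rintro rfl
        exact hi (hT hk)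
      have hprod : ∀ (T : Finset (Fin q)), ∀ v, 
          ∏ j ∈ S \ T, (if isLetter (insert i S) j (Function.update x i v j) then (1:ℤ) else 0)
          = ∏ j ∈ S \ T, (if isLetter (insert i S) j (x j) then (1:ℤ) else 0) := by
        intro T v
        refine Finset.prod_congr rfl fun j hj => ?_
        rw [Function.update_of_ne]
        rintro rfl
        exact hi (Finset.mem_sdiff.1 hj).1
      have hcardi : (insert i S).card = S.card + 1 := Finset.card_insert_of_notMem hi
      have h1 : ∀ T : Finset (Fin q), T ⊆ S → ∑ v : Fin q × Fin q, (-1) ^ ((insert i S).card - T.card - 1) *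
          nu T (Function.update x i v) * ∏ j ∈ insert i S \ T,
            (if isLetter (insert i S) j (Function.update x i v j) then (1:ℤ) else 0) =
          (-1) ^ (S.card - T.card) * nu T x *
            ∏ j ∈ S \ T, (if isLetter (insert i S) j (x j) then (1:ℤ) else 0) := by
        intro T hT
        have hiST : i ∉ S \ T := fun h => hi (Finset.mem_sdiff.1 h).1
        simp_rw [hcongr T hT, hST T hT, Finset.prod_insert hiST, hprod T, Function.update_self]
        have hc := Finset.card_le_card hT
        have e : (insert i S).card - T.card - 1 = S.card - T.card := by omega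
        rw [e]
        have := sum_isLetter (insert i S) hne i
        calc ∑ v : Fin q × Fin q, (-1) ^ (S.card - T.card) * nu T x *
              ((if isLetter (insert i S) i v then (1:ℤ) else 0) *
                ∏ j ∈ S \ T, (if isLetter (insert i S) j (x j) then (1:ℤ) else 0))
            = (-1) ^ (S.card - T.card) * nu T x *
                ((∑ v : Fin q × Fin q, (if isLetter (insert i S) i v then (1:ℤ) else 0)) *
                ∏ j ∈ S \ T, (if isLetter (insert i S) j (x j) then (1:ℤ) else 0)) := by
              rw [Finset.sum_mul, Finset.mul_sum]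
          _ = _ := by rw [this, one_mul]
      have h2 : ∀ T ∈ S.ssubsets, ∑ v : Fin q × Fin q,
          (-1) ^ ((insert i S).card - (insert i T).card - 1) *
          nu (insert i T) (Function.update x i v) * ∏ j ∈ insert i S \ insert i T,
            (if isLetter (insert i S) j (Function.update x i v j) then (1:ℤ) else 0) =
          - ((-1) ^ (S.card - T.card) * nu T x *
            ∏ j ∈ S \ T, (if isLetter (insert i S) j (x j) then (1:ℤ) else 0)) := by
        intro T hT
        have hT' := Finset.mem_ssubsets.1 hT
        have hiT : i ∉ T := fun h => hi (hT'.1 h)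
        have hsd : insert i S \ insert i T = S \ T := by
          ext k
          simp only [Finset.mem_sdiff, Finset.mem_insert]
          constructor
          · rintro ⟨h | h, h'⟩
            · exact absurd (Or.inl h) h'
            · exact ⟨h, fun hk => h' (Or.inr hk)⟩
          · rintro ⟨h, h'⟩
            refine ⟨Or.inr h, ?_⟩
            rintro (hk | hk)
            · exact hi (hk ▸ h)
            · exact h' hk
        have hc := Finset.card_lt_card hT'
        have e : (insert i S).card - (insert i T).card - 1 = S.card - T.card - 1 := by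
          rw [hcardi, Finset.card_insert_of_notMem hiT]; omega
        have e2 : S.card - T.card = (S.card - T.card - 1) + 1 := by omega
        rw [hsd, e]
        simp_rw [hprod T]
        rw [← Finset.sum_mul, ← Finset.mul_sum, ih T hT' hiT, e2, pow_succ]
        simp only [Nat.add_sub_cancel]
        ring
      rw [h1 S (Finset.Subset.refl S), Finset.sum_congr rfl (fun T hT => h1 T (Finset.mem_ssubsets.1 hT).1),
        Finset.sum_congr rfl h2, Finset.sum_neg_distrib]
      simp
    · intro T hT T' hT' he
      have hiT : i ∉ T := fun h => hi ((Finset.mem_ssubsets.1 (Finset.mem_coe.1 hT)).1 h)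
      have hiT' : i ∉ T' := fun h => hi ((Finset.mem_ssubsets.1 (Finset.mem_coe.1 hT')).1 h)
      have := congrArg (fun U => U.erase i) he
      simpa [Finset.erase_insert hiT, Finset.erase_insert hiT'] using this
    · rw [Finset.disjoint_left]
      intro T hT hT'
      obtain ⟨U, _, rfl⟩ := Finset.mem_image.1 hT'
      exact hi ((Finset.mem_ssubsets.1 hT).1 (Finset.mem_insert_self i U))
    · intro h
      rcases Finset.mem_union.1 h with h | h
      · exact (Finset.mem_ssubsets.1 h).2 (Finset.Subset.refl S)
      · obtain ⟨U, _, hU⟩ := Finset.mem_image.1 h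
        exact hi (hU ▸ Finset.mem_insert_self i U)

/-- freeing one coordinate of a function. -/
theorem sum_free_coord {L : Type*} [Fintype L] [DecidableEq L] (i : Fin q) (c : L)
    (g : (Fin q → L) → ℤ) :
    ∑ u : Fin q → L, g u =
      ∑ u : Fin q → L, (if u i = c then ∑ v : L, g (Function.update u i v) else 0) := by
  rw [← (Equiv.funSplitAt i L).symm.sum_comp g,
    ← (Equiv.funSplitAt i L).symm.sum_comp
      (fun u => (if u i = c then ∑ v : L, g (Function.update u i v) else 0)),
    Fintype.sum_prod_type, Fintype.sum_prod_type]
  have h1 : ∀ (a : L) (b : { j // j ≠ i } → L), ((Equiv.funSplitAt i L).symm (a, b)) i = a := by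
    intro a b; simp [Equiv.funSplitAt, Equiv.piSplitAt]
  have h2 : ∀ (a v : L) (b : { j // j ≠ i } → L),
      Function.update ((Equiv.funSplitAt i L).symm (a, b)) i v = (Equiv.funSplitAt i L).symm (v, b) := by
    intro a v b
    ext j
    by_cases hj : j = i
    · subst hj; rw [Function.update_self, h1]
    · rw [Function.update_of_ne hj]; simp [Equiv.funSplitAt, Equiv.piSplitAt, hj]
  simp_rw [h1, h2]
  rw [Finset.sum_comm, Finset.sum_comm (γ := L)]
  refine Finset.sum_congr rfl fun b _ => ?_
  simp

theorem nu_sum_aux (S : Finset (Fin q)) (x : Fin q → Fin q × Fin q) (R : Finset (Fin q))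
    (hR : Disjoint R S) :
    ∑ u : Fin q → Fin q × Fin q, nu (S ∪ R) u *
      ∏ i ∈ Rᶜ, (if u i = x i then (1:ℤ) else 0) = nu S x := by
  induction R using Finset.induction_on with
  | empty =>
    rw [Finset.sum_eq_single x]
    · simp
    · intro u _ hu
      obtain ⟨i, hi⟩ := Function.ne_iff.1 hu
      rw [Finset.prod_eq_zero (Finset.mem_compl.2 (Finset.notMem_empty i)) (if_neg hi), mul_zero]
    · intro h; exact absurd (Finset.mem_univ _) h
  | insert i R hiR ih =>
    have hiS : i ∉ S := by
      intro h
      exact Finset.disjoint_left.1 hR (Finset.mem_insert_self i R) h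
    have hR' : Disjoint R S := Finset.disjoint_of_subset_left (Finset.subset_insert i R) hR
    rw [← ih hR', sum_free_coord i (x i)]
    refine Finset.sum_congr rfl fun u _ => ?_
    have hcompl : Rᶜ = insert i (insert i R)ᶜ := by
      ext k
      simp only [Finset.mem_compl, Finset.mem_insert, not_or]
      constructor
      · intro hk
        by_cases h : k = i
        · exact Or.inl h
        · exact Or.inr ⟨h, hk⟩
      · rintro (h | h)
        · exact h ▸ hiR
        · exact h.2
    have hi' : i ∉ (insert i R)ᶜ := by simp
    rw [hcompl, Finset.prod_insert hi']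
    by_cases hu : u i = x i
    · rw [if_pos hu, if_pos hu, one_mul]
      have hp : ∀ v, ∏ j ∈ (insert i R)ᶜ, (if Function.update u i v j = x j then (1:ℤ) else 0) =
          ∏ j ∈ (insert i R)ᶜ, (if u j = x j then (1:ℤ) else 0) := by
        intro v
        refine Finset.prod_congr rfl fun j hj => ?_
        rw [Function.update_of_ne]
        rintro rfl
        exact hi' hj
      simp_rw [hp]
      rw [← Finset.sum_mul, Finset.union_insert, nu_marginal]
      intro h
      rcases Finset.mem_union.1 h with h | h
      · exact hiS h
      · exact hiR h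
    · rw [if_neg hu, if_neg hu, zero_mul, mul_zero]

/-- the marginal of the full measure on a set `S` of labels. -/
theorem nu_sum (S : Finset (Fin q)) (x : Fin q → Fin q × Fin q) :
    ∑ u : Fin q → Fin q × Fin q, nu Finset.univ u *
      ∏ i ∈ S, (if u i = x i then (1:ℤ) else 0) = nu S x := by
  have := nu_sum_aux S x Sᶜ disjoint_compl_left
  rw [compl_compl] at this
  rw [← this]
  refine Finset.sum_congr rfl fun u _ => ?_
  rw [Finset.union_compl]

/-- the correlation of letters `x ∈ T` placed at the labels `lam x`. -/
def mcor (T : Finset (Fin q × Fin q)) (lam : Fin q × Fin q → Fin q) : ℤ :=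
  ∑ u : Fin q → Fin q × Fin q, nu Finset.univ u *
      ∏ x ∈ T, (if u (lam x) = x then (1:ℤ) else 0)

theorem mcor_congr (T : Finset (Fin q × Fin q)) {lam lam' : Fin q × Fin q → Fin q}
    (h : ∀ x ∈ T, lam x = lam' x) : mcor T lam = mcor T lam' := by
  unfold mcor
  refine Finset.sum_congr rfl fun u _ => ?_
  congr 1
  exact Finset.prod_congr rfl fun x hx => by rw [h x hx]

theorem mcor_not_inj (T : Finset (Fin q × Fin q)) (lam : Fin q × Fin q → Fin q)
    (h : ¬ Set.InjOn lam T) : mcor T lam = 0 := by
  unfold mcor
  refine Finset.sum_eq_zero fun u _ => ?_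
  have : ∃ x ∈ T, ∃ y ∈ T, lam x = lam y ∧ x ≠ y := by
    by_contra hc
    apply h
    intro x hx y hy hxy
    by_contra hne
    exact hc ⟨x, hx, y, hy, hxy, hne⟩
  obtain ⟨x, hx, y, hy, hxy, hne⟩ := this
  by_cases hu : u (lam x) = x
  · rw [Finset.prod_eq_zero hy, mul_zero]
    rw [if_neg]
    rw [← hxy, hu]
    exact hne
  · rw [Finset.prod_eq_zero hx (if_neg hu), mul_zero]

theorem mcor_eq_nu (T : Finset (Fin q × Fin q)) (lam : Fin q × Fin q → Fin q)
    (h : Set.InjOn lam T) (u0 : Fin q → Fin q × Fin q) (hu : ∀ x ∈ T, u0 (lam x) = x) :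
    mcor T lam = nu (T.image lam) u0 := by
  rw [← nu_sum]
  unfold mcor
  refine Finset.sum_congr rfl fun u _ => ?_
  congr 1
  rw [Finset.prod_image h]
  exact Finset.prod_congr rfl fun x hx => by rw [hu x hx]

/-- order invariance of correlations. -/
theorem mcor_comp (T : Finset (Fin q × Fin q)) (lam : Fin q × Fin q → Fin q)
    (θ : Fin q → Fin q) (hθ : StrictMonoOn θ (T.image lam : Finset (Fin q))) :
    mcor T (θ ∘ lam) = mcor T lam := by
  classical
  have hmem : ∀ x ∈ T, lam x ∈ ((T.image lam : Finset (Fin q)) : Set (Fin q)) := fun x hx =>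
    Finset.mem_coe.2 (Finset.mem_image_of_mem lam hx)
  by_cases h : Set.InjOn lam T
  · have h' : Set.InjOn (θ ∘ lam) T := by
      intro x hx y hy hxy
      exact h hx hy (hθ.injOn (hmem x hx) (hmem y hy) hxy)
    have hT : T.Nonempty ∨ T = ∅ := by
      rcases T.eq_empty_or_nonempty with h | h
      · exact Or.inr h
      · exact Or.inl h
    rcases hT with ⟨x0, hx0⟩ | hT
    · -- u0 for θ ∘ lam
      let u0 : Fin q → Fin q × Fin q := fun l =>
        if hl : ∃ x ∈ T, θ (lam x) = l then hl.choose else x0
      have hu0 : ∀ x ∈ T, u0 ((θ ∘ lam) x) = x := by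
        intro x hx
        have hl : ∃ y ∈ T, θ (lam y) = (θ ∘ lam) x := ⟨x, hx, rfl⟩
        have e : u0 ((θ ∘ lam) x) = hl.choose := dif_pos hl
        rw [e]
        exact h' (Finset.mem_coe.2 hl.choose_spec.1) (Finset.mem_coe.2 hx) hl.choose_spec.2
      rw [mcor_eq_nu T (θ ∘ lam) h' u0 hu0, mcor_eq_nu T lam h (u0 ∘ θ) (fun x hx => hu0 x hx),
        ← Finset.image_image, nu_image _ hθ]
    · subst hT
      unfold mcor
      simp
  · have h' : ¬ Set.InjOn (θ ∘ lam) T := by
      intro hc
      apply h
      intro x hx y hy hxy
      exact hc hx hy (by simp only [Function.comp, hxy])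
    rw [mcor_not_inj T _ h, mcor_not_inj T _ h']

end Helper671.FLR
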