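import Mathlib

set_option autoImplicit false
set_option linter.unusedSectionVars false

namespace Pool.Agent.Helper671.TorsionR

/-- Terms in the signature of lattice-ordered groups. -/
inductive LTerm : Type
  | var (i : ℕ) : LTerm
  | one : LTerm
  | mul (s t : LTerm) : LTerm
  | inv (t : LTerm) : LTerm
  | sup (s t : LTerm) : LTerm
  | inf (s t : LTerm) : LTerm

/-- The value of a term when the variable `x_i` has the value `v i`. -/
def LTerm.eval {G : Type*} [Group G] [Lattice G] (v : ℕ → G) : LTerm → G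
  | .var i => v i
  | .one => 1
  | .mul s t => LTerm.eval v s * LTerm.eval v t
  | .inv t => (LTerm.eval v t)⁻¹
  | .sup s t => LTerm.eval v s ⊔ LTerm.eval v t
  | .inf s t => LTerm.eval v s ⊓ LTerm.eval v t

/-- Convex `ℓ`-subgroups. -/
structure IsCvx {G : Type*} [Group G] [Lattice G] (N : Subgroup G) : Prop where
  sup_mem : ∀ x ∈ N, ∀ y ∈ N, x ⊔ y ∈ N
  inf_mem : ∀ x ∈ N, ∀ y ∈ N, x ⊓ y ∈ N
  convex : ∀ x ∈ N, ∀ y ∈ N, ∀ g : G, x ≤ g → g ≤ y → g ∈ N

/-- The action of an `ℓ`-group on a chain, with pointwise lattice operations. -/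
class ChainAct (G Ω : Type*) [Group G] [Lattice G] [LinearOrder Ω] [MulAction G Ω] : Prop where
  smul_sup : ∀ (g h : G) (ω : Ω), (g ⊔ h) • ω = max (g • ω) (h • ω)
  smul_inf : ∀ (g h : G) (ω : Ω), (g ⊓ h) • ω = min (g • ω) (h • ω)
  mono : ∀ (g : G) (x y : Ω), x ≤ y → g • x ≤ g • y

section action

variable {G Ω : Type*} [Group G] [Lattice G] [MulLeftMono G] [MulRightMono G]
  [LinearOrder Ω] [MulAction G Ω] [ChainAct G Ω]

theorem smul_lt {g : G} {x y : Ω} (h : x < y) : g • x < g • y := by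
  refine lt_of_le_of_ne (ChainAct.mono g x y h.le) ?_
  intro he
  exact h.ne (MulAction.injective g he)

theorem smul_le_smul_left {g h : G} (hgh : g ≤ h) (x : Ω) : g • x ≤ h • x := by
  have h1 : h • x = max (g • x) (h • x) := by
    rw [← ChainAct.smul_sup, sup_eq_right.mpr hgh]
  rw [h1]
  exact le_max_left _ _

theorem le_inv_smul {g : G} {x y : Ω} (h : g • x ≤ y) : x ≤ g⁻¹ • y := by
  have := ChainAct.mono g⁻¹ _ _ h
  rwa [inv_smul_smul] at this

theorem inv_smul_le {g : G} {x y : Ω} (h : x ≤ g • y) : g⁻¹ • x ≤ y := by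
  have := ChainAct.mono g⁻¹ _ _ h
  rwa [inv_smul_smul] at this

theorem stab_cvx (β : Ω) : IsCvx (MulAction.stabilizer G β) := by
  constructor
  · intro x hx y hy
    rw [MulAction.mem_stabilizer_iff] at *
    rw [ChainAct.smul_sup, hx, hy, max_self]
  · intro x hx y hy
    rw [MulAction.mem_stabilizer_iff] at *
    rw [ChainAct.smul_inf, hx, hy, min_self]
  · intro x hx y hy g h1 h2
    rw [MulAction.mem_stabilizer_iff] at *
    apply le_antisymm
    · rw [← hy]
      conv_lhs => rw [hy]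
      exact smul_le_smul_left h2 β
    · rw [← hx]
      conv_rhs => rw [hx]
      exact smul_le_smul_left h1 β

theorem stab_prime (β : Ω) (a b : G) (hab : a ⊓ b = 1) :
    a ∈ MulAction.stabilizer G β ∨ b ∈ MulAction.stabilizer G β := by
  rw [MulAction.mem_stabilizer_iff, MulAction.mem_stabilizer_iff]
  have h : β = min (a • β) (b • β) := by
    rw [← ChainAct.smul_inf, hab, one_smul]
  rcases min_choice (a • β) (b • β) with h1 | h1
  · left; rw [← h1, ← h]
  · right; rw [← h1, ← h]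

/-- Truncation to a convex subgroup. -/
theorem truncate {C : Subgroup G} (hC : IsCvx C) (F : Finset Ω) (g : G)
    (hF : ∀ t ∈ F, ∃ c ∈ C, c • t = g • t) : ∃ a ∈ C, ∀ t ∈ F, a • t = g • t := by
  classical
  have hup : ∃ c ∈ C, ∀ t ∈ F, g • t ≤ c • t := by
    induction F using Finset.induction_on with
    | empty => exact ⟨1, C.one_mem, by simp⟩
    | insert t F _ ih =>
      obtain ⟨c, hc, hcF⟩ := ih (fun s hs => hF s (Finset.mem_insert_of_mem hs))
      obtain ⟨d, hd, hdt⟩ := hF t (Finset.mem_insert_self _ _)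
      refine ⟨c ⊔ d, hC.sup_mem c hc d hd, ?_⟩
      intro s hs
      rw [ChainAct.smul_sup]
      rcases Finset.mem_insert.mp hs with rfl | hs
      · rw [hdt]; exact le_max_right _ _
      · exact le_trans (hcF s hs) (le_max_left _ _)
  have hdown : ∃ c ∈ C, ∀ t ∈ F, c • t ≤ g • t := by
    clear hup
    induction F using Finset.induction_on with
    | empty => exact ⟨1, C.one_mem, by simp⟩
    | insert t F _ ih =>
      obtain ⟨c, hc, hcF⟩ := ih (fun s hs => hF s (Finset.mem_insert_of_mem hs))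
      obtain ⟨d, hd, hdt⟩ := hF t (Finset.mem_insert_self _ _)
      refine ⟨c ⊓ d, hC.inf_mem c hc d hd, ?_⟩
      intro s hs
      rw [ChainAct.smul_inf]
      rcases Finset.mem_insert.mp hs with rfl | hs
      · rw [hdt]; exact min_le_right _ _
      · exact le_trans (min_le_left _ _) (hcF s hs)
  obtain ⟨c, hc, hcF⟩ := hup
  obtain ⟨d, hd, hdF⟩ := hdown
  refine ⟨(g ⊔ d) ⊓ (c ⊔ d), ?_, ?_⟩
  · refine hC.convex d hd (c ⊔ d) (hC.sup_mem c hc d hd) _ ?_ inf_le_right
    exact le_inf le_sup_right le_sup_right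
  · intro t ht
    rw [ChainAct.smul_inf, ChainAct.smul_sup, ChainAct.smul_sup, max_eq_left (hdF t ht),
      min_eq_left (le_trans (hcF t ht) (le_max_left _ _))]

/-- Membership in the orbit of `β` under the subgroup `C`. -/
def Orb (C : Subgroup G) (β x : Ω) : Prop := ∃ c ∈ C, c • β = x

theorem Orb.refl (C : Subgroup G) (β : Ω) : Orb C β β := ⟨1, C.one_mem, one_smul _ _⟩

theorem Orb.symm {C : Subgroup G} {x y : Ω} (h : Orb C x y) : Orb C y x := by
  obtain ⟨c, hc, rfl⟩ := h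
  exact ⟨c⁻¹, C.inv_mem hc, inv_smul_smul _ _⟩

theorem Orb.trans {C : Subgroup G} {x y z : Ω} (h : Orb C x y) (h' : Orb C y z) : Orb C x z := by
  obtain ⟨c, hc, rfl⟩ := h
  obtain ⟨d, hd, rfl⟩ := h'
  exact ⟨d * c, C.mul_mem hd hc, mul_smul _ _ _⟩

theorem orb_convex {C : Subgroup G} (hC : IsCvx C) {β x y z : Ω} (hx : Orb C β x)
    (hz : Orb C β z) (hy : ∃ g : G, g • β = y) (hxy : x ≤ y) (hyz : y ≤ z) : Orb C β y := by
  obtain ⟨c, hc, rfl⟩ := hx
  obtain ⟨d, hd, rfl⟩ := hz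
  obtain ⟨g, rfl⟩ := hy
  refine ⟨(g ⊔ c) ⊓ (d ⊔ c), ?_, ?_⟩
  · refine hC.convex c hc (d ⊔ c) (hC.sup_mem d hd c hc) _ ?_ inf_le_right
    exact le_inf le_sup_right le_sup_right
  · rw [ChainAct.smul_inf, ChainAct.smul_sup, ChainAct.smul_sup, max_eq_left hxy,
      min_eq_left (le_trans hyz (le_max_left _ _))]

end action

section transport

universe u

/-- `t` or its inverse. -/
def sgn {G : Type u} [Group G] (e : Bool) (g : G) : G := if e then g else g⁻¹

variable {G Ω : Type u} [Group G] [Lattice G] [MulLeftMono G] [MulRightMono G]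
  [LinearOrder Ω] [MulAction G Ω] [ChainAct G Ω]

/-- `T` tracks the evaluation of the element at `ω`. -/
def Tracks (h : ℕ → G) (t : LTerm) (e : Bool) (ω : Ω) (T : Finset Ω) : Prop :=
  ω ∈ T ∧ sgn e (t.eval h) • ω ∈ T ∧
  (∀ Z : Set Ω, (∀ i z, z ∈ Z ↔ h i • z ∈ Z) → ω ∈ Z → ↑T ⊆ Z) ∧
  ∀ (Ω' : Type u) [LinearOrder Ω'] (G' : Type u) [Group G'] [Lattice G'] [MulLeftMono G']
    [MulRightMono G'] [MulAction G' Ω'] [ChainAct G' Ω'] (x : Ω → Ω') (h' : ℕ → G') (S : Set Ω),
    ↑T ⊆ S → StrictMonoOn x S → (∀ i, ∀ s ∈ S, h i • s ∈ S → h' i • x s = x (h i • s)) →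
    sgn e (t.eval h') • x ω = x (sgn e (t.eval h) • ω)

theorem tracks_var (h : ℕ → G) (i : ℕ) (e : Bool) (ω : Ω) : ∃ T, Tracks h (.var i) e ω T := by
  classical
  refine ⟨{ω, sgn e (h i) • ω}, ?_, ?_, ?_, ?_⟩
  · simp
  · simp [LTerm.eval]
  · intro Z hZ hω z hz
    simp only [Finset.coe_insert, Finset.coe_singleton, Set.mem_insert_iff,
      Set.mem_singleton_iff] at hz
    rcases hz with rfl | rfl
    · exact hω
    · cases e with
      | true => simpa [sgn] using (hZ i ω).mp hω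
      | false =>
        simp only [sgn]
        refine (hZ i _).mpr ?_
        simpa using hω
  · intro Ω' _ G' _ _ _ _ _ _ x h' S hTS hx hh
    have h1 : ω ∈ S := hTS (by simp)
    have h2 : sgn e (h i) • ω ∈ S := hTS (by simp)
    cases e with
    | true =>
      simp only [sgn, LTerm.eval, if_true] at h2 ⊢
      exact hh i ω h1 h2
    | false =>
      simp only [sgn, LTerm.eval] at h2 ⊢
      have h3 := hh i ((h i)⁻¹ • ω) h2 (by simpa using h1)
      rw [smul_inv_smul] at h3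
      change (h' i)⁻¹ • x ω = x ((h i)⁻¹ • ω)
      rw [← h3, inv_smul_smul]

theorem max_mem_of {S : Finset Ω} {a b : Ω} (ha : a ∈ S) (hb : b ∈ S) : max a b ∈ S := by
  rcases max_choice a b with h | h <;> rw [h] <;> assumption

theorem min_mem_of {S : Finset Ω} {a b : Ω} (ha : a ∈ S) (hb : b ∈ S) : min a b ∈ S := by
  rcases min_choice a b with h | h <;> rw [h] <;> assumption

theorem map_max_on {Ω' : Type u} [LinearOrder Ω'] {x : Ω → Ω'} {S : Set Ω}
    (hx : StrictMonoOn x S) {a b : Ω} (ha : a ∈ S) (hb : b ∈ S) :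
    max (x a) (x b) = x (max a b) := by
  rcases le_total a b with h | h
  · rw [max_eq_right h, max_eq_right (hx.monotoneOn ha hb h)]
  · rw [max_eq_left h, max_eq_left (hx.monotoneOn hb ha h)]

theorem map_min_on {Ω' : Type u} [LinearOrder Ω'] {x : Ω → Ω'} {S : Set Ω}
    (hx : StrictMonoOn x S) {a b : Ω} (ha : a ∈ S) (hb : b ∈ S) :
    min (x a) (x b) = x (min a b) := by
  rcases le_total a b with h | h
  · rw [min_eq_left h, min_eq_left (hx.monotoneOn ha hb h)]
  · rw [min_eq_right h, min_eq_right (hx.monotoneOn hb ha h)]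

theorem tracks_exists (h : ℕ → G) (t : LTerm) : ∀ (e : Bool) (ω : Ω), ∃ T, Tracks h t e ω T := by
  classical
  induction t with
  | var i => exact fun e ω => tracks_var h i e ω
  | one =>
    intro e ω
    refine ⟨{ω}, ?_, ?_, ?_, ?_⟩
    · simp
    · cases e <;> simp [sgn, LTerm.eval]
    · intro Z _ hω z hz
      simp only [Finset.coe_singleton, Set.mem_singleton_iff] at hz
      rw [hz]; exact hω
    · intro Ω' _ G' _ _ _ _ _ _ x h' S hTS hx hh
      cases e <;> simp [sgn, LTerm.eval]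
  | mul s t ihs iht =>
    intro e ω
    cases e with
    | true =>
      obtain ⟨T1, a1, a2, a3, a4⟩ := iht true ω
      obtain ⟨T2, b1, b2, b3, b4⟩ := ihs true (sgn true (t.eval h) • ω)
      refine ⟨T1 ∪ T2, ?_, ?_, ?_, ?_⟩
      · exact Finset.mem_union_left _ a1
      · apply Finset.mem_union_right
        simpa [sgn, LTerm.eval, mul_smul] using b2
      · intro Z hZ hω
        rw [Finset.coe_union]
        refine Set.union_subset (a3 Z hZ hω) (b3 Z hZ (a3 Z hZ hω a2))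
      · intro Ω' _ G' _ _ _ _ _ _ x h' S hTS hx hh
        rw [Finset.coe_union, Set.union_subset_iff] at hTS
        have e1 := a4 Ω' G' x h' S hTS.1 hx hh
        have e2 := b4 Ω' G' x h' S hTS.2 hx hh
        simp only [sgn, LTerm.eval, mul_smul, if_true] at *
        rw [e1, e2]
    | false =>
      obtain ⟨T1, a1, a2, a3, a4⟩ := ihs false ω
      obtain ⟨T2, b1, b2, b3, b4⟩ := iht false (sgn false (s.eval h) • ω)
      refine ⟨T1 ∪ T2, ?_, ?_, ?_, ?_⟩
      · exact Finset.mem_union_left _ a1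
      · apply Finset.mem_union_right
        simpa [sgn, LTerm.eval, mul_smul] using b2
      · intro Z hZ hω
        rw [Finset.coe_union]
        refine Set.union_subset (a3 Z hZ hω) (b3 Z hZ (a3 Z hZ hω a2))
      · intro Ω' _ G' _ _ _ _ _ _ x h' S hTS hx hh
        rw [Finset.coe_union, Set.union_subset_iff] at hTS
        have e1 := a4 Ω' G' x h' S hTS.1 hx hh
        have e2 := b4 Ω' G' x h' S hTS.2 hx hh
        simp only [sgn, LTerm.eval, mul_inv_rev] at *
        simp only [Bool.false_eq_true, if_false, mul_smul] at *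
        rw [e1, e2]
  | inv t ih =>
    intro e ω
    cases e with
    | true =>
      obtain ⟨T1, a1, a2, a3, a4⟩ := ih false ω
      refine ⟨T1, a1, ?_, a3, ?_⟩
      · simpa [sgn, LTerm.eval] using a2
      · intro Ω' _ G' _ _ _ _ _ _ x h' S hTS hx hh
        have e1 := a4 Ω' G' x h' S hTS hx hh
        simpa [sgn, LTerm.eval] using e1
    | false =>
      obtain ⟨T1, a1, a2, a3, a4⟩ := ih true ω
      refine ⟨T1, a1, ?_, a3, ?_⟩
      · simpa [sgn, LTerm.eval] using a2
      · intro Ω' _ G' _ _ _ _ _ _ x h' S hTS hx hh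
        have e1 := a4 Ω' G' x h' S hTS hx hh
        simpa [sgn, LTerm.eval] using e1
  | sup s t ihs iht =>
    intro e ω
    obtain ⟨T1, a1, a2, a3, a4⟩ := ihs e ω
    obtain ⟨T2, b1, b2, b3, b4⟩ := iht e ω
    cases e with
    | true =>
      simp only [sgn, if_true] at *
      refine ⟨T1 ∪ T2, ?_, ?_, ?_, ?_⟩
      · exact Finset.mem_union_left _ a1
      · simp only [sgn, LTerm.eval, if_true, ChainAct.smul_sup]
        exact max_mem_of (Finset.mem_union_left _ a2) (Finset.mem_union_right _ b2)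
      · intro Z hZ hω
        rw [Finset.coe_union]
        exact Set.union_subset (a3 Z hZ hω) (b3 Z hZ hω)
      · intro Ω' _ G' _ _ _ _ _ _ x h' S hTS hx hh
        rw [Finset.coe_union, Set.union_subset_iff] at hTS
        have e1 := a4 Ω' G' x h' S hTS.1 hx hh
        have e2 := b4 Ω' G' x h' S hTS.2 hx hh
        simp only [sgn, LTerm.eval, if_true, ChainAct.smul_sup]
        rw [e1, e2]
        exact map_max_on hx (hTS.1 a2) (hTS.2 b2)
    | false =>
      simp only [sgn, Bool.false_eq_true, if_false] at *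
      refine ⟨T1 ∪ T2, ?_, ?_, ?_, ?_⟩
      · exact Finset.mem_union_left _ a1
      · simp only [sgn, LTerm.eval, Bool.false_eq_true, if_false, inv_sup, ChainAct.smul_inf]
        exact min_mem_of (Finset.mem_union_left _ a2) (Finset.mem_union_right _ b2)
      · intro Z hZ hω
        rw [Finset.coe_union]
        exact Set.union_subset (a3 Z hZ hω) (b3 Z hZ hω)
      · intro Ω' _ G' _ _ _ _ _ _ x h' S hTS hx hh
        rw [Finset.coe_union, Set.union_subset_iff] at hTS
        have e1 := a4 Ω' G' x h' S hTS.1 hx hh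
        have e2 := b4 Ω' G' x h' S hTS.2 hx hh
        simp only [sgn, LTerm.eval, Bool.false_eq_true, if_false, inv_sup, ChainAct.smul_inf]
        rw [e1, e2]
        exact map_min_on hx (hTS.1 a2) (hTS.2 b2)
  | inf s t ihs iht =>
    intro e ω
    obtain ⟨T1, a1, a2, a3, a4⟩ := ihs e ω
    obtain ⟨T2, b1, b2, b3, b4⟩ := iht e ω
    cases e with
    | true =>
      simp only [sgn, if_true] at *
      refine ⟨T1 ∪ T2, ?_, ?_, ?_, ?_⟩
      · exact Finset.mem_union_left _ a1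
      · simp only [sgn, LTerm.eval, if_true, ChainAct.smul_inf]
        exact min_mem_of (Finset.mem_union_left _ a2) (Finset.mem_union_right _ b2)
      · intro Z hZ hω
        rw [Finset.coe_union]
        exact Set.union_subset (a3 Z hZ hω) (b3 Z hZ hω)
      · intro Ω' _ G' _ _ _ _ _ _ x h' S hTS hx hh
        rw [Finset.coe_union, Set.union_subset_iff] at hTS
        have e1 := a4 Ω' G' x h' S hTS.1 hx hh
        have e2 := b4 Ω' G' x h' S hTS.2 hx hh
        simp only [sgn, LTerm.eval, if_true, ChainAct.smul_inf]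
        rw [e1, e2]
        exact map_min_on hx (hTS.1 a2) (hTS.2 b2)
    | false =>
      simp only [sgn, Bool.false_eq_true, if_false] at *
      refine ⟨T1 ∪ T2, ?_, ?_, ?_, ?_⟩
      · exact Finset.mem_union_left _ a1
      · simp only [sgn, LTerm.eval, Bool.false_eq_true, if_false, inv_inf, ChainAct.smul_sup]
        exact max_mem_of (Finset.mem_union_left _ a2) (Finset.mem_union_right _ b2)
      · intro Z hZ hω
        rw [Finset.coe_union]
        exact Set.union_subset (a3 Z hZ hω) (b3 Z hZ hω)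
      · intro Ω' _ G' _ _ _ _ _ _ x h' S hTS hx hh
        rw [Finset.coe_union, Set.union_subset_iff] at hTS
        have e1 := a4 Ω' G' x h' S hTS.1 hx hh
        have e2 := b4 Ω' G' x h' S hTS.2 hx hh
        simp only [sgn, LTerm.eval, Bool.false_eq_true, if_false, inv_inf, ChainAct.smul_sup]
        rw [e1, e2]
        exact map_max_on hx (hTS.1 a2) (hTS.2 b2)

end transport

section cosets

universe u

variable {G : Type u} [Group G] [Lattice G] [MulLeftMono G] [MulRightMono G]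

theorem coset_sup_eq {P : Subgroup G} (_hP : IsCvx P)
    (hpr : ∀ a b : G, a ⊓ b = 1 → a ∈ P ∨ b ∈ P) (a b : G) :
    ((a ⊔ b : G) : G ⧸ P) = (a : G ⧸ P) ∨ ((a ⊔ b : G) : G ⧸ P) = (b : G ⧸ P) := by
  have h1 : ((a⁻¹ * b) ⊔ 1) ⊓ ((b⁻¹ * a) ⊔ 1) = 1 := by
    apply le_antisymm
    · have e1 : (a⁻¹ * b) ⊔ 1 = a⁻¹ * (b ⊔ a) := by rw [mul_sup, inv_mul_cancel]
      have e2 : (b⁻¹ * a) ⊔ 1 = b⁻¹ * (b ⊔ a) := by rw [mul_sup, inv_mul_cancel, sup_comm]
      rw [e1, e2, ← inf_mul, ← inv_sup, sup_comm a b, inv_mul_cancel]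
    · exact le_inf le_sup_right le_sup_right
  rcases hpr _ _ h1 with h | h
  · left
    symm
    rw [QuotientGroup.eq]
    have : a⁻¹ * (a ⊔ b) = (a⁻¹ * b) ⊔ 1 := by rw [mul_sup, inv_mul_cancel, sup_comm]
    rw [this]; exact h
  · right
    symm
    rw [QuotientGroup.eq]
    have : b⁻¹ * (a ⊔ b) = (b⁻¹ * a) ⊔ 1 := by rw [mul_sup, inv_mul_cancel]
    rw [this]; exact h

theorem coset_inf_eq {P : Subgroup G} (_hP : IsCvx P)
    (hpr : ∀ a b : G, a ⊓ b = 1 → a ∈ P ∨ b ∈ P) (a b : G) :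
    ((a ⊓ b : G) : G ⧸ P) = (a : G ⧸ P) ∨ ((a ⊓ b : G) : G ⧸ P) = (b : G ⧸ P) := by
  have h1 : (b⁻¹ * a ⊔ 1) ⊓ (a⁻¹ * b ⊔ 1) = 1 := by
    apply le_antisymm
    · have e1 : (a⁻¹ * b) ⊔ 1 = a⁻¹ * (b ⊔ a) := by rw [mul_sup, inv_mul_cancel]
      have e2 : (b⁻¹ * a) ⊔ 1 = b⁻¹ * (b ⊔ a) := by rw [mul_sup, inv_mul_cancel, sup_comm]
      rw [e1, e2, ← inf_mul, ← inv_sup, inv_mul_cancel]
    · exact le_inf le_sup_right le_sup_right
  rcases hpr _ _ h1 with h | h
  · left
    rw [QuotientGroup.eq]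
    have : (a ⊓ b)⁻¹ * a = (b⁻¹ * a) ⊔ 1 := by
      rw [inv_inf, sup_mul, inv_mul_cancel, sup_comm]
    rw [this]; exact h
  · right
    rw [QuotientGroup.eq]
    have : (a ⊓ b)⁻¹ * b = (a⁻¹ * b) ⊔ 1 := by
      rw [inv_inf, sup_mul, inv_mul_cancel]
    rw [this]; exact h

theorem coset_chain {P : Subgroup G} (hP : IsCvx P)
    (hpr : ∀ a b : G, a ⊓ b = 1 → a ∈ P ∨ b ∈ P) :
    ∃ _ : LinearOrder (G ⧸ P), ChainAct G (G ⧸ P) := by
  classical
  have hle_sup : ∀ a b : G, ∃ g : G, 1 ≤ g ∧ g • (a : G ⧸ P) = ((a ⊔ b : G) : G ⧸ P) := by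
    intro a b
    refine ⟨(a ⊔ b) * a⁻¹, ?_, ?_⟩
    · rw [← mul_inv_cancel a]
      exact mul_le_mul_left le_sup_left _
    · rw [MulAction.Quotient.smul_coe, smul_eq_mul, inv_mul_cancel_right]
  have hinf_le : ∀ a b : G, ∃ g : G, 1 ≤ g ∧ g • ((a ⊓ b : G) : G ⧸ P) = (a : G ⧸ P) := by
    intro a b
    refine ⟨a * (a ⊓ b)⁻¹, ?_, ?_⟩
    · rw [← mul_inv_cancel (a ⊓ b)]
      exact mul_le_mul_left inf_le_left _
    · rw [MulAction.Quotient.smul_coe, smul_eq_mul, inv_mul_cancel_right]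
  let L : LinearOrder (G ⧸ P) :=
    { le := fun x y => ∃ g : G, 1 ≤ g ∧ g • x = y
      le_refl := fun x => ⟨1, le_refl _, one_smul _ _⟩
      le_trans := by
        rintro x y z ⟨g, hg, rfl⟩ ⟨h, hh, rfl⟩
        exact ⟨h * g, one_le_mul hh hg, mul_smul _ _ _⟩
      le_antisymm := by
        rintro x y ⟨g, hg, rfl⟩ ⟨h, hh, hxy⟩
        induction x using QuotientGroup.induction_on with
        | H a =>
          rw [MulAction.Quotient.smul_coe, MulAction.Quotient.smul_coe] at hxy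
          rw [MulAction.Quotient.smul_coe]
          simp only [smul_eq_mul] at *
          rw [QuotientGroup.eq]
          have h1 := QuotientGroup.eq.mp hxy.symm
          refine hP.convex 1 P.one_mem _ h1 _ ?_ ?_
          · rw [← inv_mul_cancel a]
            exact mul_le_mul_right (by simpa using mul_le_mul_left hg a) _
          · apply mul_le_mul_right
            simpa using mul_le_mul_left hh (g * a)
      le_total := by
        intro x y
        induction x using QuotientGroup.induction_on with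
        | H a =>
          induction y using QuotientGroup.induction_on with
          | H b =>
            rcases coset_sup_eq hP hpr a b with h | h
            · right
              rw [← h, sup_comm]
              exact hle_sup b a
            · left
              rw [← h]
              exact hle_sup a b
      toDecidableLE := Classical.decRel _ }
  refine ⟨L, ?_⟩
  have hle : ∀ x y : G ⧸ P, x ≤ y ↔ ∃ g : G, 1 ≤ g ∧ g • x = y := fun x y => Iff.rfl
  constructor
  · intro g h ω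
    induction ω using QuotientGroup.induction_on with
    | H a =>
      simp only [MulAction.Quotient.smul_coe, smul_eq_mul, sup_mul]
      apply le_antisymm
      · rcases coset_sup_eq hP hpr (g * a) (h * a) with h1 | h1
        · rw [h1]; exact le_max_left _ _
        · rw [h1]; exact le_max_right _ _
      · apply max_le
        · rw [hle]; exact hle_sup _ _
        · rw [hle, sup_comm]; exact hle_sup _ _
  · intro g h ω
    induction ω using QuotientGroup.induction_on with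
    | H a =>
      simp only [MulAction.Quotient.smul_coe, smul_eq_mul, inf_mul]
      apply le_antisymm
      · apply le_min
        · rw [hle]; exact hinf_le _ _
        · rw [hle, inf_comm]; exact hinf_le _ _
      · rcases coset_inf_eq hP hpr (g * a) (h * a) with h1 | h1
        · rw [h1]; exact min_le_left _ _
        · rw [h1]; exact min_le_right _ _
  · intro g x y hxy
    rw [hle] at hxy ⊢
    obtain ⟨k, hk, rfl⟩ := hxy
    refine ⟨g * k * g⁻¹, ?_, ?_⟩
    · have : g * g⁻¹ ≤ g * k * g⁻¹ := mul_le_mul_left (by simpa using mul_le_mul_right hk g) _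
      rwa [mul_inv_cancel] at this
    · rw [mul_smul, mul_smul, inv_smul_smul]

/-- Zorn. -/
theorem exists_max {K0 : Subgroup G} (h0 : IsCvx K0) {w : G} (hw : w ∉ K0) :
    ∃ M : Subgroup G, K0 ≤ M ∧ IsCvx M ∧ w ∉ M ∧
      ∀ K : Subgroup G, IsCvx K → M ≤ K → (∃ g ∈ K, g ∉ M) → w ∈ K := by
  obtain ⟨M, hKM, hM⟩ := zorn_le_nonempty₀ {K : Subgroup G | IsCvx K ∧ w ∉ K} (by
    intro c hc hchain y hy
    have hdir : DirectedOn (· ≤ ·) c := hchain.directedOn
    have hne : c.Nonempty := ⟨y, hy⟩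
    have hmem : ∀ x, x ∈ sSup c ↔ ∃ K ∈ c, x ∈ K := fun x =>
      Subgroup.mem_sSup_of_directedOn hne hdir
    refine ⟨sSup c, ⟨⟨?_, ?_, ?_⟩, ?_⟩, fun z hz => le_sSup hz⟩
    · intro x hx z hz
      rw [hmem] at *
      obtain ⟨K1, hK1, hx⟩ := hx
      obtain ⟨K2, hK2, hz⟩ := hz
      obtain ⟨K3, hK3, h13, h23⟩ := hdir K1 hK1 K2 hK2
      exact ⟨K3, hK3, (hc hK3).1.sup_mem _ (h13 hx) _ (h23 hz)⟩
    · intro x hx z hz
      rw [hmem] at *
      obtain ⟨K1, hK1, hx⟩ := hx
      obtain ⟨K2, hK2, hz⟩ := hz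
      obtain ⟨K3, hK3, h13, h23⟩ := hdir K1 hK1 K2 hK2
      exact ⟨K3, hK3, (hc hK3).1.inf_mem _ (h13 hx) _ (h23 hz)⟩
    · intro x hx z hz g h1 h2
      rw [hmem] at *
      obtain ⟨K1, hK1, hx⟩ := hx
      obtain ⟨K2, hK2, hz⟩ := hz
      obtain ⟨K3, hK3, h13, h23⟩ := hdir K1 hK1 K2 hK2
      exact ⟨K3, hK3, (hc hK3).1.convex _ (h13 hx) _ (h23 hz) _ h1 h2⟩
    · intro h
      rw [hmem] at h
      obtain ⟨K1, hK1, hx⟩ := h
      exact (hc hK1).2 hx) K0 ⟨h0, hw⟩
  refine ⟨M, hKM, hM.prop.1, hM.prop.2, ?_⟩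
  intro K hK hMK ⟨g, hg, hgM⟩
  by_contra hwK
  exact hgM (hM.le_of_ge ⟨hK, hwK⟩ hMK hg)

theorem inf_mul_le {c u v : G} (hc : 1 ≤ c) (hu : 1 ≤ u) (hv : 1 ≤ v) :
    c ⊓ (u * v) ≤ (c ⊓ u) * (c ⊓ v) := by
  rw [mul_inf, inf_mul, inf_mul]
  refine le_inf (le_inf ?_ ?_) (le_inf ?_ ?_)
  · exact le_trans inf_le_left (le_mul_of_one_le_left' hc)
  · exact le_trans inf_le_left (le_mul_of_one_le_left' hu)
  · exact le_trans inf_le_left (le_mul_of_one_le_right' hv)
  · exact inf_le_right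

/-- The polar-like subgroup. -/
theorem exists_D {P : Subgroup G} (hP : IsCvx P) {c : G} (hc : 1 ≤ c) :
    ∃ D : Subgroup G, IsCvx D ∧
      ∀ y, y ∈ D ↔ ∃ u : G, 1 ≤ u ∧ c ⊓ u ∈ P ∧ u⁻¹ ≤ y ∧ y ≤ u := by
  have hmul : ∀ {u v : G}, 1 ≤ u → 1 ≤ v → c ⊓ u ∈ P → c ⊓ v ∈ P → c ⊓ (u * v) ∈ P := by
    intro u v hu hv h1 h2
    refine hP.convex 1 P.one_mem _ (P.mul_mem h1 h2) _ ?_ (inf_mul_le hc hu hv)
    exact le_inf hc (one_le_mul hu hv)
  let D : Subgroup G :=
    { carrier := {y | ∃ u : G, 1 ≤ u ∧ c ⊓ u ∈ P ∧ u⁻¹ ≤ y ∧ y ≤ u}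
      one_mem' := ⟨1, le_refl _, by rw [inf_eq_right.mpr hc]; exact P.one_mem, by simp, le_refl _⟩
      mul_mem' := by
        rintro y z ⟨u, hu, hcu, h1, h2⟩ ⟨v, hv, hcv, h3, h4⟩
        refine ⟨u * v * u, one_le_mul (one_le_mul hu hv) hu,
          hmul (one_le_mul hu hv) hu (hmul hu hv hcu hcv) hcu, ?_, ?_⟩
        · have e : (u * v * u)⁻¹ = u⁻¹ * v⁻¹ * u⁻¹ := by group
          rw [e]
          have : u⁻¹ * v⁻¹ * u⁻¹ ≤ u⁻¹ * v⁻¹ :=
            mul_le_of_le_one_right' (Left.inv_le_one_iff.mpr hu)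
          exact le_trans this (mul_le_mul' h1 h3)
        · exact le_trans (mul_le_mul' h2 h4) (le_mul_of_one_le_right' hu)
      inv_mem' := by
        rintro y ⟨u, hu, hcu, h1, h2⟩
        exact ⟨u, hu, hcu, inv_le_inv_iff.mpr h2, inv_le_of_inv_le' h1⟩ }
  have hmem : ∀ y, y ∈ D ↔ ∃ u : G, 1 ≤ u ∧ c ⊓ u ∈ P ∧ u⁻¹ ≤ y ∧ y ≤ u := fun y => Iff.rfl
  have hsub : ∀ {u v : G}, 1 ≤ u → 1 ≤ v → (u * v)⁻¹ ≤ u⁻¹ ∧ (u * v)⁻¹ ≤ v⁻¹ ∧ u ≤ u * v ∧
      v ≤ u * v := by
    intro u v hu hv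
    have h1 : u ≤ u * v := le_mul_of_one_le_right' hv
    have h2 : v ≤ u * v := le_mul_of_one_le_left' hu
    exact ⟨inv_le_inv_iff.mpr h1, inv_le_inv_iff.mpr h2, h1, h2⟩
  refine ⟨D, ⟨?_, ?_, ?_⟩, hmem⟩
  · rintro y ⟨u, hu, hcu, h1, h2⟩ z ⟨v, hv, hcv, h3, h4⟩
    obtain ⟨k1, k2, k3, k4⟩ := hsub hu hv
    exact ⟨u * v, one_le_mul hu hv, hmul hu hv hcu hcv, le_trans (le_trans k1 h1) le_sup_left,
      sup_le (le_trans h2 k3) (le_trans h4 k4)⟩
  · rintro y ⟨u, hu, hcu, h1, h2⟩ z ⟨v, hv, hcv, h3, h4⟩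
    obtain ⟨k1, k2, k3, k4⟩ := hsub hu hv
    exact ⟨u * v, one_le_mul hu hv, hmul hu hv hcu hcv, le_inf (le_trans k1 h1) (le_trans k2 h3),
      le_trans inf_le_left (le_trans h2 k3)⟩
  · rintro y ⟨u, hu, hcu, h1, h2⟩ z ⟨v, hv, hcv, h3, h4⟩ g hyg hgz
    obtain ⟨k1, k2, k3, k4⟩ := hsub hu hv
    exact ⟨u * v, one_le_mul hu hv, hmul hu hv hcu hcv, le_trans (le_trans k1 h1) hyg,
      le_trans hgz (le_trans h4 k4)⟩

theorem exists_prime {w : G} (hw : w ≠ 1) :
    ∃ P : Subgroup G, IsCvx P ∧ w ∉ P ∧ ∀ a b : G, a ⊓ b = 1 → a ∈ P ∨ b ∈ P := by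
  have hbot : IsCvx (⊥ : Subgroup G) := by
    constructor
    · intro x hx y hy
      rw [Subgroup.mem_bot] at *
      rw [hx, hy, sup_idem]
    · intro x hx y hy
      rw [Subgroup.mem_bot] at *
      rw [hx, hy, inf_idem]
    · intro x hx y hy g h1 h2
      rw [Subgroup.mem_bot] at *
      rw [hx] at h1; rw [hy] at h2
      exact le_antisymm h2 h1
  obtain ⟨P, _, hP, hwP, hmax⟩ := exists_max hbot (w := w) (by rwa [Subgroup.mem_bot])
  refine ⟨P, hP, hwP, ?_⟩
  intro a b hab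
  by_contra hcon
  push Not at hcon
  obtain ⟨haP, hbP⟩ := hcon
  have ha1 : 1 ≤ a := by rw [← hab]; exact inf_le_left
  have hb1 : 1 ≤ b := by rw [← hab]; exact inf_le_right
  have habs : ∀ y ∈ P, ∀ c : G, 1 ≤ c → ∃ u : G, 1 ≤ u ∧ c ⊓ u ∈ P ∧ u⁻¹ ≤ y ∧ y ≤ u := by
    intro y hy c hc
    refine ⟨y ⊔ y⁻¹, ?_, ?_, ?_, le_sup_left⟩
    · exact one_le_mabs y
    · refine hP.convex 1 P.one_mem _ (hP.sup_mem y hy _ (P.inv_mem hy)) _ ?_ inf_le_right
      exact le_inf hc (one_le_mabs y)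
    · rw [inv_sup, inv_inv]; exact inf_le_right
  have hself : ∀ {y : G}, 1 ≤ y → y⁻¹ ≤ y := fun {y} hy =>
    le_trans (Left.inv_le_one_iff.mpr hy) hy
  -- first step
  obtain ⟨D1, hD1, hD1m⟩ := exists_D hP ha1
  have hw1 : w ∈ D1 := by
    apply hmax D1 hD1
    · intro y hy
      rw [hD1m]
      exact habs y hy a ha1
    · refine ⟨b, ?_, hbP⟩
      rw [hD1m]
      exact ⟨b, hb1, by rw [hab]; exact P.one_mem, hself hb1, le_refl _⟩
  rw [hD1m] at hw1
  obtain ⟨u, hu, hau, h1, h2⟩ := hw1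
  set c := w ⊔ w⁻¹ with hc
  have hc1 : 1 ≤ c := one_le_mabs w
  have hcu : c ≤ u := sup_le h2 (inv_le_of_inv_le' h1)
  obtain ⟨D2, hD2, hD2m⟩ := exists_D hP hc1
  have hw2 : w ∈ D2 := by
    apply hmax D2 hD2
    · intro y hy
      rw [hD2m]
      exact habs y hy c hc1
    · refine ⟨a, ?_, haP⟩
      rw [hD2m]
      refine ⟨a, ha1, ?_, hself ha1, le_refl _⟩
      refine hP.convex 1 P.one_mem _ hau _ (le_inf hc1 ha1) ?_
      exact le_inf inf_le_right (le_trans inf_le_left hcu)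
  rw [hD2m] at hw2
  obtain ⟨u', hu', hcu', h1', h2'⟩ := hw2
  have hcu2 : c ≤ u' := sup_le h2' (inv_le_of_inv_le' h1')
  rw [inf_eq_left.mpr hcu2] at hcu'
  apply hwP
  refine hP.convex c⁻¹ (P.inv_mem hcu') c hcu' w ?_ le_sup_left
  rw [hc, inv_sup, inv_inv]; exact inf_le_right

end cosets

section core

universe u

variable {G Ω : Type u} [Group G] [Lattice G] [MulLeftMono G] [MulRightMono G]
  [LinearOrder Ω] [MulAction G Ω] [ChainAct G Ω]

theorem exists_step {α : Type u} {r : α → α → Prop} {P : α → Prop} {a b : α}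
    (h : Relation.ReflTransGen r a b) (ha : P a) (hb : ¬ P b) :
    ∃ u v, r u v ∧ P u ∧ ¬ P v := by
  induction h with
  | refl => exact absurd ha hb
  | @tail d c hd hbc ih =>
    by_cases hPb : P d
    · exact ⟨d, c, hbc, hPb, hb⟩
    · exact ih hPb

theorem mem_of_between_up {K : Subgroup G} (hK : IsCvx K) {β : Ω}
    (hQ : MulAction.stabilizer G β ≤ K) {g k : G} (hk : k ∈ K) (h1 : β ≤ g • β)
    (h2 : g • β ≤ k • β) : g ∈ K := by
  have hm : (g ⊔ 1) ⊓ (k ⊔ 1) ∈ K :=
    hK.convex 1 K.one_mem _ (hK.sup_mem k hk 1 K.one_mem) _ (le_inf le_sup_right le_sup_right)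
      inf_le_right
  have hmβ : ((g ⊔ 1) ⊓ (k ⊔ 1)) • β = g • β := by
    rw [ChainAct.smul_inf, ChainAct.smul_sup, ChainAct.smul_sup, one_smul, max_eq_left h1,
      max_eq_left (le_trans h1 h2), min_eq_left h2]
  have hq : g⁻¹ * ((g ⊔ 1) ⊓ (k ⊔ 1)) ∈ K := by
    apply hQ
    rw [MulAction.mem_stabilizer_iff, mul_smul, hmβ, inv_smul_smul]
  have : g = ((g ⊔ 1) ⊓ (k ⊔ 1)) * (g⁻¹ * ((g ⊔ 1) ⊓ (k ⊔ 1)))⁻¹ := by group
  rw [this]
  exact K.mul_mem hm (K.inv_mem hq)

theorem mem_of_between_down {K : Subgroup G} (hK : IsCvx K) {β : Ω}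
    (hQ : MulAction.stabilizer G β ≤ K) {g k : G} (hk : k ∈ K) (h1 : g • β ≤ β)
    (h2 : k • β ≤ g • β) : g ∈ K := by
  have hm : (g ⊓ 1) ⊔ (k ⊓ 1) ∈ K :=
    hK.convex _ (hK.inf_mem k hk 1 K.one_mem) 1 K.one_mem _ le_sup_right
      (sup_le inf_le_right inf_le_right)
  have hmβ : ((g ⊓ 1) ⊔ (k ⊓ 1)) • β = g • β := by
    rw [ChainAct.smul_sup, ChainAct.smul_inf, ChainAct.smul_inf, one_smul, min_eq_left h1,
      min_eq_left (le_trans h2 h1), max_eq_left h2]
  have hq : g⁻¹ * ((g ⊓ 1) ⊔ (k ⊓ 1)) ∈ K := by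
    apply hQ
    rw [MulAction.mem_stabilizer_iff, mul_smul, hmβ, inv_smul_smul]
  have : g = ((g ⊓ 1) ⊔ (k ⊓ 1)) * (g⁻¹ * ((g ⊓ 1) ⊔ (k ⊓ 1)))⁻¹ := by group
  rw [this]
  exact K.mul_mem hm (K.inv_mem hq)

/-- The key two-point transitivity. -/
theorem key {Λ : Type u} [LinearOrder Λ] [MulAction G Λ] [ChainAct G Λ]
    (htr : ∀ x y : Λ, ∃ g : G, g • x = y) (α : Λ) {A : Subgroup G} {b : G}
    (hb : ∀ c ∈ A, b • α < c • α)
    (hK : ∀ K : Subgroup G, IsCvx K → MulAction.stabilizer G α ≤ K →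
      (∃ g ∈ K, g ∉ MulAction.stabilizer G α) → b ∈ K)
    {x y x' y' : Λ} (hxy : x < y) (hx' : Orb A α x') (hy' : Orb A α y') (_hxy' : x' < y') :
    ∃ g : G, g • x = x' ∧ y' ≤ g • y := by
  set S : Λ → Λ → Prop := fun u v => ∃ g : G, g • x ≤ u ∧ v ≤ g • y with hS
  have hSinv : ∀ (k : G) (u v : Λ), S u v → S (k • u) (k • v) := by
    rintro k u v ⟨g, h1, h2⟩
    refine ⟨k * g, ?_, ?_⟩
    · rw [mul_smul]; exact ChainAct.mono k _ _ h1
    · rw [mul_smul]; exact ChainAct.mono k _ _ h2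
  have hSle : ∀ u v : Λ, v ≤ u → S u v := by
    intro u v hvu
    obtain ⟨g, hg⟩ := htr x u
    refine ⟨g, hg.le, le_trans hvu ?_⟩
    rw [← hg]
    exact ChainAct.mono g _ _ hxy.le
  set R := Relation.ReflTransGen S with hR
  have hRinv : ∀ (k : G) (u v : Λ), R u v → R (k • u) (k • v) := by
    intro k u v h
    induction h with
    | refl => exact Relation.ReflTransGen.refl
    | @tail d c hd hbc ih => exact ih.tail (hSinv k d c hbc)
  let K : Subgroup G :=
    { carrier := {g | R α (g • α) ∧ R (g • α) α}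
      one_mem' := by
        simp only [Set.mem_ofPred_eq, one_smul]
        exact ⟨Relation.ReflTransGen.refl, Relation.ReflTransGen.refl⟩
      mul_mem' := by
        rintro g h ⟨g1, g2⟩ ⟨h1, h2⟩
        constructor
        · rw [mul_smul]
          exact g1.trans (hRinv g _ _ h1)
        · rw [mul_smul]
          exact (hRinv g _ _ h2).trans g2
      inv_mem' := by
        rintro g ⟨g1, g2⟩
        constructor
        · have := hRinv g⁻¹ _ _ g2
          rwa [inv_smul_smul] at this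
        · have := hRinv g⁻¹ _ _ g1
          rwa [inv_smul_smul] at this }
  have hKmem : ∀ g, g ∈ K ↔ R α (g • α) ∧ R (g • α) α := fun g => Iff.rfl
  have hKc : IsCvx K := by
    constructor
    · intro g hg h hh
      rw [hKmem] at *
      rw [ChainAct.smul_sup]
      rcases max_choice (g • α) (h • α) with h1 | h1 <;> rw [h1] <;> assumption
    · intro g hg h hh
      rw [hKmem] at *
      rw [ChainAct.smul_inf]
      rcases min_choice (g • α) (h • α) with h1 | h1 <;> rw [h1] <;> assumption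
    · intro g hg h hh k h1 h2
      rw [hKmem] at *
      constructor
      · exact hh.1.tail (hSle _ _ (smul_le_smul_left h2 α))
      · exact Relation.ReflTransGen.head (hSle _ _ (smul_le_smul_left h1 α)) hg.2
  have hMK : MulAction.stabilizer G α ≤ K := by
    intro g hg
    rw [MulAction.mem_stabilizer_iff] at hg
    rw [hKmem, hg]
    exact ⟨Relation.ReflTransGen.refl, Relation.ReflTransGen.refl⟩
  have hbK : b ∈ K := by
    apply hK K hKc hMK
    obtain ⟨k, hk⟩ := htr x α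
    obtain ⟨h0, hh0⟩ := htr α (k • y)
    have hlt : α < k • y := by
      rw [← hk]; exact smul_lt hxy
    refine ⟨h0, ?_, ?_⟩
    · rw [hKmem, hh0]
      exact ⟨Relation.ReflTransGen.single ⟨k, hk.le, le_refl _⟩,
        Relation.ReflTransGen.single (hSle _ _ hlt.le)⟩
    · rw [MulAction.mem_stabilizer_iff, hh0]
      exact hlt.ne'
  obtain ⟨u, v, hSuv, hu, hv⟩ := exists_step (P := fun z => ∀ c ∈ A, z < c • α)
    ((hKmem b).mp hbK).2 hb (by
      intro hcon
      have := hcon 1 A.one_mem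
      rw [one_smul] at this
      exact lt_irrefl _ this)
  push Not at hv
  obtain ⟨c, hc, hcv⟩ := hv
  obtain ⟨c', hc', rfl⟩ := hy'
  obtain ⟨c'', hc'', rfl⟩ := hx'
  have hS1 : S u (c • α) := by
    obtain ⟨g, h1, h2⟩ := hSuv
    exact ⟨g, h1, le_trans hcv h2⟩
  have hS2 := hSinv (c' * c⁻¹) _ _ hS1
  rw [mul_smul, mul_smul, inv_smul_smul] at hS2
  have hlt : c' • c⁻¹ • u < c'' • α := by
    have h1 := hu ((c' * c⁻¹)⁻¹ * c'') (A.mul_mem (A.inv_mem (A.mul_mem hc' (A.inv_mem hc))) hc'')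
    have h2 := smul_lt (g := c' * c⁻¹) h1
    rw [mul_smul (c' * c⁻¹)⁻¹, smul_inv_smul, mul_smul] at h2
    exact h2
  obtain ⟨g, h1, h2⟩ := hS2
  obtain ⟨t, ht⟩ := htr x (c'' • α)
  refine ⟨g ⊔ t, ?_, ?_⟩
  · rw [ChainAct.smul_sup, ht]
    exact max_eq_right (le_trans h1 hlt.le)
  · rw [ChainAct.smul_sup]
    exact le_trans h2 (le_max_left _ _)

/-- Realising finite partial maps. -/
theorem realise {Λ : Type u} [LinearOrder Λ] [MulAction G Λ] [ChainAct G Λ]
    (htr : ∀ x y : Λ, ∃ g : G, g • x = y) (α : Λ) {A : Subgroup G} (hA : IsCvx A)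
    (hkey : ∀ {x y x' y' : Λ}, x < y → Orb A α x' → Orb A α y' → x' < y' →
      ∃ g : G, g • x = x' ∧ y' ≤ g • y)
    (D : Finset Ω) (ξ η : Ω → Λ) (hξ : StrictMonoOn ξ D) (hη : StrictMonoOn η D)
    (hξO : ∀ s ∈ D, Orb A α (ξ s)) (hηO : ∀ s ∈ D, Orb A α (η s)) :
    ∃ a ∈ A, ∀ s ∈ D, a • ξ s = η s := by
  classical
  have hpair : ∀ s ∈ D, ∀ s' ∈ D, ∃ u : G, u • ξ s = η s ∧ u • ξ s' ≤ η s' := by
    intro s hs s' hs'
    rcases lt_trichotomy s s' with h | h | h
    · obtain ⟨g, h1, h2⟩ := hkey (hη hs hs' h) (hξO s hs) (hξO s' hs') (hξ hs hs' h)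
      refine ⟨g⁻¹, ?_, ?_⟩
      · rw [← h1, inv_smul_smul]
      · exact inv_smul_le h2
    · subst h
      obtain ⟨u, hu⟩ := htr (ξ s) (η s)
      exact ⟨u, hu, hu.le⟩
    · obtain ⟨g, h1, h2⟩ := hkey (hξ hs' hs h) (hηO s' hs') (hηO s hs) (hη hs' hs h)
      obtain ⟨c, hc⟩ := htr (ξ s) (η s)
      refine ⟨g ⊓ c, ?_, ?_⟩
      · rw [ChainAct.smul_inf, hc]
        exact min_eq_right h2
      · rw [ChainAct.smul_inf]
        exact le_trans (min_le_left _ _) h1.le
  have h1 : ∀ s ∈ D, ∃ u : G, u • ξ s = η s ∧ ∀ s' ∈ D, u • ξ s' ≤ η s' := by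
    intro s hs
    have : ∀ E : Finset Ω, E ⊆ D → ∃ u : G, u • ξ s = η s ∧ ∀ s' ∈ E, u • ξ s' ≤ η s' := by
      intro E
      induction E using Finset.induction_on with
      | empty =>
        intro _
        obtain ⟨u, hu⟩ := htr (ξ s) (η s)
        exact ⟨u, hu, by simp⟩
      | insert t E _ ih =>
        intro hE
        obtain ⟨u, hu, huE⟩ := ih (fun z hz => hE (Finset.mem_insert_of_mem hz))
        obtain ⟨v, hv, hvt⟩ := hpair s hs t (hE (Finset.mem_insert_self _ _))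
        refine ⟨u ⊓ v, ?_, ?_⟩
        · rw [ChainAct.smul_inf, hu, hv, min_self]
        · intro s' hs'
          rw [ChainAct.smul_inf]
          rcases Finset.mem_insert.mp hs' with rfl | hs'
          · exact le_trans (min_le_right _ _) hvt
          · exact le_trans (min_le_left _ _) (huE s' hs')
    exact this D (Finset.Subset.refl _)
  have h2 : ∀ E : Finset Ω, E ⊆ D → E.Nonempty →
      ∃ g : G, (∀ s ∈ E, g • ξ s = η s) ∧ ∀ s ∈ D, g • ξ s ≤ η s := by
    intro E
    induction E using Finset.induction_on with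
    | empty => intro _ h; exact absurd h (by simp)
    | insert t E _ ih =>
      intro hE _
      obtain ⟨v, hv, hvD⟩ := h1 t (hE (Finset.mem_insert_self _ _))
      rcases E.eq_empty_or_nonempty with rfl | hne
      · refine ⟨v, ?_, hvD⟩
        intro s hs
        simp only [insert_empty_eq, Finset.mem_singleton] at hs
        rw [hs, hv]
      · obtain ⟨u, hu, huD⟩ := ih (fun z hz => hE (Finset.mem_insert_of_mem hz)) hne
        refine ⟨u ⊔ v, ?_, ?_⟩
        · intro s hs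
          rw [ChainAct.smul_sup]
          rcases Finset.mem_insert.mp hs with rfl | hs'
          · rw [hv]; exact max_eq_right (huD s (hE hs))
          · rw [hu s hs']; exact max_eq_left (hvD s (hE hs))
        · intro s hs
          rw [ChainAct.smul_sup]
          exact max_le (huD s hs) (hvD s hs)
  rcases D.eq_empty_or_nonempty with hD | hD
  · exact ⟨1, A.one_mem, by simp [hD]⟩
  obtain ⟨g, hg, _⟩ := h2 D (Finset.Subset.refl _) hD
  obtain ⟨a, ha, haF⟩ := truncate hA (D.image ξ) g (by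
    intro t ht
    rw [Finset.mem_image] at ht
    obtain ⟨s, hs, rfl⟩ := ht
    obtain ⟨c, hc, hc2⟩ := (hξO s hs).symm.trans (hηO s hs)
    exact ⟨c, hc, by rw [hc2, hg s hs]⟩)
  refine ⟨a, ha, ?_⟩
  intro s hs
  rw [haF (ξ s) (Finset.mem_image_of_mem _ hs), hg s hs]

/-- Properly overlapping orbits realise every finite configuration. -/
theorem overlap {G0 : Type u} [Group G0] [Lattice G0] [MulLeftMono G0] [MulRightMono G0]
    [MulAction G0 Ω] [ChainAct G0 Ω]
    {Γ : Type u} [LinearOrder Γ] [MulAction G Γ] [ChainAct G Γ]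
    (β : Γ) {A B : Subgroup G} (hA : IsCvx A) {a b : G} (ha : a ∈ A) (hb : b ∈ B)
    (haB : ∀ b' ∈ B, b' • β < a • β) (hbA : ∀ a' ∈ A, b • β < a' • β)
    (h : ℕ → G0) (T : Finset Ω) :
    ∃ (Λ : Type u) (_ : LinearOrder Λ) (_ : MulAction G Λ) (_ : ChainAct G Λ) (x : Ω → Λ)
      (h' : ℕ → G), StrictMonoOn x T ∧ (∀ n, h' n ∈ A) ∧
      ∀ n, ∀ s ∈ T, h n • s ∈ T → h' n • x s = x (h n • s) := by
  classical
  have haQ : a ∉ MulAction.stabilizer G β := by
    rw [MulAction.mem_stabilizer_iff]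
    have := haB 1 B.one_mem
    rw [one_smul] at this
    exact this.ne'
  obtain ⟨M, hQM, hM, haM, hmax⟩ := exists_max (stab_cvx (G := G) β) haQ
  have hMpr : ∀ c d : G, c ⊓ d = 1 → c ∈ M ∨ d ∈ M := by
    intro c d hcd
    rcases stab_prime β c d hcd with h | h
    · exact Or.inl (hQM h)
    · exact Or.inr (hQM h)
  have hF1 : ∀ K : Subgroup G, IsCvx K → M ≤ K → (∃ g ∈ K, g ∉ M) → A ≤ K ∧ b ∈ K := by
    intro K hK hMK hne
    have haK := hmax K hK hMK hne
    have hQK : MulAction.stabilizer G β ≤ K := le_trans hQM hMK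
    have hBK : ∀ b' ∈ B, b' ∈ K := by
      intro b' hb'
      rcases le_total β (b' • β) with h1 | h1
      · exact mem_of_between_up hK hQK haK h1 (haB b' hb').le
      · have h2 : β ≤ b'⁻¹ • β := le_inv_smul h1
        have := mem_of_between_up hK hQK haK h2 (haB _ (B.inv_mem hb')).le
        simpa using K.inv_mem this
    have hbK := hBK b hb
    refine ⟨?_, hbK⟩
    intro a' ha'
    rcases le_total (a' • β) β with h1 | h1
    · exact mem_of_between_down hK hQK hbK h1 (hbA a' ha').le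
    · have h2 : a'⁻¹ • β ≤ β := inv_smul_le h1
      have := mem_of_between_down hK hQK hbK h2 (hbA _ (A.inv_mem ha')).le
      simpa using K.inv_mem this
  obtain ⟨LO, CA⟩ := coset_chain hM hMpr
  set α : G ⧸ M := ((1 : G) : G ⧸ M) with hα
  have hstab : ∀ g : G, g ∈ MulAction.stabilizer G α ↔ g ∈ M := by
    intro g
    rw [MulAction.mem_stabilizer_iff, hα, MulAction.Quotient.smul_coe, smul_eq_mul, mul_one]
    rw [eq_comm, QuotientGroup.eq]
    simp
  have htr : ∀ x y : G ⧸ M, ∃ g : G, g • x = y := MulAction.exists_smul_eq G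
  have htransfer : ∀ g k : G, g • β ≤ k • β → g • α ≤ k • α := by
    intro g k hgk
    have h1 : (k⁻¹ * g) • β ≤ β := by
      rw [mul_smul]
      exact inv_smul_le hgk
    have h2 : ((k⁻¹ * g) ⊔ 1) ∈ M := by
      apply hQM
      rw [MulAction.mem_stabilizer_iff, ChainAct.smul_sup, one_smul, max_eq_right h1]
    rw [← hstab, MulAction.mem_stabilizer_iff, ChainAct.smul_sup, one_smul] at h2
    have h3 : (k⁻¹ * g) • α ≤ α := by
      rw [← h2]
      conv_lhs => rw [h2]
      exact le_max_left _ _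
    have h4 := ChainAct.mono k _ _ h3
    rwa [mul_smul, smul_inv_smul] at h4
  have hF2 : ∀ c ∈ A, b • α < c • α := by
    intro c hc
    have hle : ∀ c' ∈ A, b • α ≤ c' • α := fun c' hc' => htransfer _ _ (hbA c' hc').le
    refine lt_of_le_of_ne (hle c hc) ?_
    intro he
    have h1 : ∀ d ∈ A, α ≤ d • α := by
      intro d hd
      have h2 := hle (c * d) (A.mul_mem hc hd)
      rw [he, mul_smul] at h2
      have h3 := ChainAct.mono c⁻¹ _ _ h2
      rwa [inv_smul_smul, inv_smul_smul] at h3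
    have h4 : a • α ≤ α := by
      have := ChainAct.mono a _ _ (h1 a⁻¹ (A.inv_mem ha))
      rwa [smul_inv_smul] at this
    have h5 : a • α = α := le_antisymm h4 (h1 a ha)
    exact haM ((hstab a).mp h5)
  have hkey : ∀ {x y x' y' : G ⧸ M}, x < y → Orb A α x' → Orb A α y' → x' < y' →
      ∃ g : G, g • x = x' ∧ y' ≤ g • y := by
    intro x y x' y' h1 h2 h3 h4
    refine key htr α hF2 ?_ h1 h2 h3 h4
    intro K hK hMK hne
    refine (hF1 K hK ?_ ?_).2
    · intro g hg; exact hMK ((hstab g).mpr hg)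
    · obtain ⟨g, hg, hgM⟩ := hne
      exact ⟨g, hg, fun h => hgM ((hstab g).mpr h)⟩
  -- an increasing sequence in the orbit
  obtain ⟨e, heA, he⟩ : ∃ e ∈ A, α < e • α := by
    have hne : a • α ≠ α := fun h => haM ((hstab a).mp h)
    rcases lt_or_gt_of_ne hne with h1 | h1
    · refine ⟨a⁻¹, A.inv_mem ha, ?_⟩
      have := smul_lt (g := a⁻¹) h1
      rwa [inv_smul_smul] at this
    · exact ⟨a, ha, h1⟩
  have hmono : StrictMono (fun n : ℕ => e ^ n • α) := by
    apply strictMono_nat_of_lt_succ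
    intro n
    rw [pow_succ, mul_smul]
    exact smul_lt he
  set x : Ω → G ⧸ M := fun t => e ^ (T.filter (fun s => s < t)).card • α with hx
  have hxmono : StrictMonoOn x T := by
    intro s hs t ht hst
    apply hmono
    apply Finset.card_lt_card
    rw [Finset.ssubset_iff_of_subset]
    · refine ⟨s, ?_, ?_⟩
      · rw [Finset.mem_filter]; exact ⟨hs, hst⟩
      · rw [Finset.mem_filter]; exact fun h => lt_irrefl _ h.2
    · intro r hr
      rw [Finset.mem_filter] at *
      exact ⟨hr.1, lt_trans hr.2 hst⟩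
  have hxO : ∀ t, Orb A α (x t) := fun t => ⟨_, A.pow_mem heA _, rfl⟩
  have hreal : ∀ n, ∃ c ∈ A, ∀ s ∈ T.filter (fun s => h n • s ∈ T), c • x s = x (h n • s) := by
    intro n
    refine realise htr α hA hkey (T.filter (fun s => h n • s ∈ T)) x (fun s => x (h n • s)) ?_ ?_
      (fun s _ => hxO s) (fun s _ => hxO _)
    · exact hxmono.mono (by intro s hs; exact (Finset.mem_filter.mp hs).1)
    · intro s hs t ht hst
      exact hxmono (Finset.mem_filter.mp hs).2 (Finset.mem_filter.mp ht).2 (smul_lt hst)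
  choose h' hh'A hh' using hreal
  refine ⟨G ⧸ M, LO, inferInstance, CA, x, h', hxmono, hh'A, ?_⟩
  intro n s hs hns
  exact hh' n s (Finset.mem_filter.mpr ⟨hs, hns⟩)

end core

section final

universe u

variable {G : Type u} [Group G] [Lattice G] [MulLeftMono G] [MulRightMono G]

/-- The stabiliser of a convex set of points. -/
theorem exists_setStab {Ω : Type u} [LinearOrder Ω] [MulAction G Ω] [ChainAct G Ω]
    (Z : Set Ω) (hZ : ∀ x ∈ Z, ∀ z ∈ Z, ∀ y, x ≤ y → y ≤ z → y ∈ Z) :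
    ∃ K : Subgroup G, IsCvx K ∧ ∀ g, g ∈ K ↔ ∀ z, z ∈ Z ↔ g • z ∈ Z := by
  let K : Subgroup G :=
    { carrier := {g | ∀ z, z ∈ Z ↔ g • z ∈ Z}
      one_mem' := by intro z; rw [one_smul]
      mul_mem' := by
        intro g h hg hh z
        rw [mul_smul, ← hg, ← hh]
      inv_mem' := by
        intro g hg z
        have := hg (g⁻¹ • z)
        rw [smul_inv_smul] at this
        exact this.symm }
  have hmem : ∀ g, g ∈ K ↔ ∀ z, z ∈ Z ↔ g • z ∈ Z := fun g => Iff.rfl
  have hone : ∀ g : G, (∀ z ∈ Z, g • z ∈ Z) → (∀ z ∈ Z, g⁻¹ • z ∈ Z) → g ∈ K := by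
    intro g h1 h2 z
    refine ⟨h1 z, fun h => ?_⟩
    have := h2 _ h
    rwa [inv_smul_smul] at this
  refine ⟨K, ⟨?_, ?_, ?_⟩, hmem⟩
  · intro g hg h hh
    apply hone
    · intro z hz
      rw [ChainAct.smul_sup]
      rcases max_choice (g • z) (h • z) with h1 | h1 <;> rw [h1]
      · exact (hg z).mp hz
      · exact (hh z).mp hz
    · intro z hz
      rw [inv_sup, ChainAct.smul_inf]
      rcases min_choice (g⁻¹ • z) (h⁻¹ • z) with h1 | h1 <;> rw [h1]
      · exact (K.inv_mem hg z).mp hz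
      · exact (K.inv_mem hh z).mp hz
  · intro g hg h hh
    apply hone
    · intro z hz
      rw [ChainAct.smul_inf]
      rcases min_choice (g • z) (h • z) with h1 | h1 <;> rw [h1]
      · exact (hg z).mp hz
      · exact (hh z).mp hz
    · intro z hz
      rw [inv_inf, ChainAct.smul_sup]
      rcases max_choice (g⁻¹ • z) (h⁻¹ • z) with h1 | h1 <;> rw [h1]
      · exact (K.inv_mem hg z).mp hz
      · exact (K.inv_mem hh z).mp hz
  · intro g hg h hh k h1 h2
    apply hone
    · intro z hz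
      exact hZ _ ((hg z).mp hz) _ ((hh z).mp hz) _ (smul_le_smul_left h1 z)
        (smul_le_smul_left h2 z)
    · intro z hz
      exact hZ _ ((K.inv_mem hh z).mp hz) _ ((K.inv_mem hg z).mp hz) _
        (smul_le_smul_left (inv_le_inv_iff.mpr h2) z) (smul_le_smul_left (inv_le_inv_iff.mpr h1) z)

/-- Holland's theorem (varieties of `ℓ`-groups are torsion classes), elementwise form. -/
theorem theoremR {I : Type*} [Nonempty I] (C : I → Subgroup G) (hC : ∀ i, IsCvx (C i))
    (h : ℕ → G) (hh : ∀ x, ∀ K : Subgroup G, IsCvx K → (∀ i, C i ≤ K) → h x ∈ K)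
    (p q : LTerm) (hpq : p.eval h ≠ q.eval h) :
    ∃ i, ∃ h' : ℕ → G, (∀ x, h' x ∈ C i) ∧ p.eval h' ≠ q.eval h' := by
  classical
  have hw : (q.eval h)⁻¹ * p.eval h ≠ 1 := by
    intro hcon
    apply hpq
    rw [inv_mul_eq_one] at hcon
    exact hcon.symm
  obtain ⟨P, hP, hwP, hpr⟩ := exists_prime hw
  obtain ⟨LO, CA⟩ := coset_chain hP hpr
  have htr : ∀ x y : G ⧸ P, ∃ g : G, g • x = y := MulAction.exists_smul_eq G
  set α : G ⧸ P := ((1 : G) : G ⧸ P) with hα
  have hmove : p.eval h • α ≠ q.eval h • α := by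
    intro hcon
    apply hwP
    rw [hα, MulAction.Quotient.smul_coe, MulAction.Quotient.smul_coe, smul_eq_mul, smul_eq_mul,
      mul_one, mul_one] at hcon
    exact QuotientGroup.eq.mp hcon.symm
  obtain ⟨T1, a1, a2, a3, a4⟩ := tracks_exists h p true α
  obtain ⟨T2, b1, b2, b3, b4⟩ := tracks_exists h q true α
  set T : Finset (G ⧸ P) := T1 ∪ T2 with hT
  have hT1 : (T1 : Set (G ⧸ P)) ⊆ T := by
    rw [hT, Finset.coe_union]; exact Set.subset_union_left
  have hT2 : (T2 : Set (G ⧸ P)) ⊆ T := by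
    rw [hT, Finset.coe_union]; exact Set.subset_union_right
  -- conclusion from a realisation
  have hconcl : ∀ (Λ : Type u) [LinearOrder Λ] [MulAction G Λ] [ChainAct G Λ] (x : G ⧸ P → Λ)
      (h' : ℕ → G), StrictMonoOn x T →
      (∀ n, ∀ s ∈ T, h n • s ∈ T → h' n • x s = x (h n • s)) → p.eval h' ≠ q.eval h' := by
    intro Λ _ _ _ x h' hx hh' heq
    have e1 := a4 Λ G x h' T hT1 hx hh'
    have e2 := b4 Λ G x h' T hT2 hx hh'
    simp only [sgn, if_true] at e1 e2 a2 b2
    rw [heq, e2] at e1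
    exact hmove (hx.injOn (hT2 b2) (hT1 a2) e1).symm
  by_cases hnest : ∀ (β : G ⧸ P) (i j : I), (∀ x, Orb (C i) β x → Orb (C j) β x) ∨
      (∀ x, Orb (C j) β x → Orb (C i) β x)
  · -- nested case
    set Z : Set (G ⧸ P) := {x | ∃ i, Orb (C i) α x} with hZ
    have hZc : ∀ x ∈ Z, ∀ z ∈ Z, ∀ y, x ≤ y → y ≤ z → y ∈ Z := by
      rintro x ⟨i, hx⟩ z ⟨j, hz⟩ y hxy hyz
      rcases hnest α i j with hij | hij
      · exact ⟨j, orb_convex (hC j) (hij x hx) hz (htr α y) hxy hyz⟩
      · exact ⟨i, orb_convex (hC i) hx (hij z hz) (htr α y) hxy hyz⟩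
    obtain ⟨K, hK, hKmem⟩ := exists_setStab (G := G) Z hZc
    have hCK : ∀ i, C i ≤ K := by
      intro j
      have hinv : ∀ c ∈ C j, ∀ z ∈ Z, c • z ∈ Z := by
        rintro c hc z ⟨i, hz⟩
        -- orbits of z
        rcases hnest z i j with hij | hij
        · -- C i orbit of z contained in C j orbit; α is in the C i orbit of z
          have h1 : Orb (C j) z α := hij α hz.symm
          exact ⟨j, h1.symm.trans ⟨c, hc, rfl⟩⟩
        · exact ⟨i, hz.trans (hij _ ⟨c, hc, rfl⟩)⟩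
      intro c hc
      rw [hKmem]
      intro z
      refine ⟨hinv c hc z, fun hz => ?_⟩
      have := hinv c⁻¹ ((C j).inv_mem hc) _ hz
      rwa [inv_smul_smul] at this
    have hhK : ∀ n z, z ∈ Z ↔ h n • z ∈ Z := fun n => (hKmem _).mp (hh n K hK hCK)
    obtain ⟨i0⟩ := (inferInstance : Nonempty I)
    have hαZ : α ∈ Z := ⟨i0, Orb.refl _ _⟩
    have hTZ : (T : Set (G ⧸ P)) ⊆ Z := by
      rw [hT, Finset.coe_union]
      exact Set.union_subset (a3 Z hhK hαZ) (b3 Z hhK hαZ)
    have hone : ∃ i, ∀ t ∈ T, Orb (C i) α t := by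
      have : ∀ E : Finset (G ⧸ P), (E : Set (G ⧸ P)) ⊆ Z → ∃ i, ∀ t ∈ E, Orb (C i) α t := by
        intro E
        induction E using Finset.induction_on with
        | empty => intro _; exact ⟨i0, by simp⟩
        | insert t E _ ih =>
          intro hE
          rw [Finset.coe_insert, Set.insert_subset_iff] at hE
          obtain ⟨i, hi⟩ := ih hE.2
          obtain ⟨j, hj⟩ := hE.1
          rcases hnest α i j with hij | hij
          · refine ⟨j, ?_⟩
            intro s hs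
            rcases Finset.mem_insert.mp hs with rfl | hs
            · exact hj
            · exact hij s (hi s hs)
          · refine ⟨i, ?_⟩
            intro s hs
            rcases Finset.mem_insert.mp hs with rfl | hs
            · exact hij _ hj
            · exact hi s hs
      exact this T hTZ
    obtain ⟨i, hi⟩ := hone
    have hreal : ∀ n, ∃ c ∈ C i, ∀ s ∈ T.filter (fun s => h n • s ∈ T), c • s = h n • s := by
      intro n
      apply truncate (hC i)
      intro t ht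
      rw [Finset.mem_filter] at ht
      obtain ⟨c, hc, hc2⟩ := (hi t ht.1).symm.trans (hi _ ht.2)
      exact ⟨c, hc, hc2⟩
    choose h' hh'C hh' using hreal
    refine ⟨i, h', hh'C, ?_⟩
    refine hconcl (G ⧸ P) id h' (fun s _ t _ hst => hst) ?_
    intro n s hs hns
    exact hh' n s (Finset.mem_filter.mpr ⟨hs, hns⟩)
  · -- overlapping case
    push Not at hnest
    obtain ⟨β, i, j, ⟨x1, hx1, hx1'⟩, ⟨x2, hx2, hx2'⟩⟩ := hnest
    obtain ⟨a, ha, rfl⟩ := hx1
    obtain ⟨b, hb, rfl⟩ := hx2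
    have hup : ∀ {A B : Subgroup G} (_ : IsCvx B) {a : G}, β < a • β →
        ¬ Orb B β (a • β) → ∀ b' ∈ B, b' • β < a • β := by
      intro A B hB a h1 h2 b' hb'
      by_contra hcon
      push Not at hcon
      exact h2 (orb_convex hB (Orb.refl B β) ⟨b', hb', rfl⟩ ⟨a, rfl⟩ h1.le hcon)
    have hdown : ∀ {A B : Subgroup G} (_ : IsCvx B) {a : G}, a • β < β →
        ¬ Orb B β (a • β) → ∀ b' ∈ B, a • β < b' • β := by
      intro A B hB a h1 h2 b' hb'
      by_contra hcon
      push Not at hcon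
      exact h2 (orb_convex hB ⟨b', hb', rfl⟩ (Orb.refl B β) ⟨a, rfl⟩ hcon h1.le)
    have hane : a • β ≠ β := by
      intro he
      apply hx1'
      rw [he]
      exact Orb.refl _ _
    have hbne : b • β ≠ β := by
      intro he
      apply hx2'
      rw [he]
      exact Orb.refl _ _
    rcases lt_or_gt_of_ne hane with h1 | h1
    · rcases lt_or_gt_of_ne hbne with h2 | h2
      · exact absurd (hdown (A := C i) (hC j) h1 hx1' b hb)
          (not_lt.mpr (hdown (A := C j) (hC i) h2 hx2' a ha).le)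
      · -- a below, b above
        obtain ⟨Λ, _, _, _, x, h', hx, hA', hreal⟩ := overlap (Ω := G ⧸ P) β (hC j) hb ha
          (hup (A := C j) (hC i) h2 hx2') (hdown (A := C i) (hC j) h1 hx1') h T
        exact ⟨j, h', hA', hconcl Λ x h' hx hreal⟩
    · rcases lt_or_gt_of_ne hbne with h2 | h2
      · obtain ⟨Λ, _, _, _, x, h', hx, hA', hreal⟩ := overlap (Ω := G ⧸ P) β (hC i) ha hb
          (hup (A := C i) (hC j) h1 hx1') (hdown (A := C j) (hC i) h2 hx2') h T
        exact ⟨i, h', hA', hconcl Λ x h' hx hreal⟩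
      · exact absurd (hup (A := C i) (hC j) h1 hx1' b hb)
          (not_lt.mpr (hup (A := C j) (hC i) h2 hx2' a ha).le)

end final

end Pool.Agent.Helper671.TorsionR
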